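import Mathlib
import Pool.Agent.R583.DUni
import Pool.Agent.Helper669.KA2
set_option autoImplicit false
set_option linter.unusedSectionVars false

/-!
# Coherent systems of conditions
-/

namespace Pool.Agent.R583.D

open Cardinal Pool.Agent.Helper669.Forcing Pool.Agent.Helper669.K

/-- a system of conditions indexed by the functions `τ : Θ → Bool` -/
structure Sys (X Θ : Type) where
  /-- common top -/
  top : X
  /-- common set of points -/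
  s : Set X
  /-- common support -/
  supp : Set Θ
  /-- coordinates -/
  Y : (Θ → Bool) → Θ → Set X

variable {X Θ : Type} [LinearOrder X]

/-- the conditions of the system -/
def Sys.cond (Q : Sys X Θ) (τ : Θ → Bool) : Cond X Θ := ⟨Q.top, Q.s, Q.supp, Q.Y τ⟩

variable [LinearOrder Θ] [WellFoundedLT Θ]

/-- `τ` and `τ'` agree on the part of `F` up to `j` -/
def Agr (F : Set Θ) (τ τ' : Θ → Bool) (j : Θ) : Prop := ∀ i ≤ j, i ∈ F → τ i = τ' i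

/-- coherent systems of legal conditions -/
def Good (N : Θ → X → X → Set (Cond X Θ)) (F : Set Θ) (Q : Sys X Θ) : Prop :=
  (∀ τ, Legal N (Q.cond τ)) ∧ ∀ τ τ' j, Agr F τ τ' j → Q.Y τ j = Q.Y τ' j

/-- the coherent systems depending on `F` only -/
def GSys (N : Θ → X → X → Set (Cond X Θ)) (F : Set Θ) : Type := {Q : Sys X Θ // Good N F Q}

instance instPreorderGSys (N : Θ → X → X → Set (Cond X Θ)) (F : Set Θ) :
    Preorder (GSys N F) where
  le Q' Q := ∀ τ, Q'.1.cond τ ≤ Q.1.cond τ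
  le_refl Q τ := le_rfl
  le_trans _ _ _ h h' τ := (h τ).trans (h' τ)

variable {N : Θ → X → X → Set (Cond X Θ)}

theorem gsys_le {F : Set Θ} {Q' Q : GSys N F} : Q' ≤ Q ↔ ∀ τ, Q'.1.cond τ ≤ Q.1.cond τ := Iff.rfl

/-- the union of a set of systems -/
noncomputable def uniSys [Nonempty X] {F : Set Θ} (D : Set (GSys N F)) : Sys X Θ :=
  ⟨Classical.epsilon fun b => IsLUB ((fun Q : GSys N F => Q.1.top) '' D) b,
    {x | ∃ Q ∈ D, x ∈ Q.1.s}, {j | ∃ Q ∈ D, j ∈ Q.1.supp},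
    fun τ j => {x | ∃ Q ∈ D, x ∈ Q.1.Y τ j}⟩

theorem uniSys_cond [Nonempty X] {F : Set Θ} (D : Set (GSys N F)) (τ : Θ → Bool) :
    (uniSys D).cond τ = uni ((fun Q : GSys N F => Q.1.cond τ) '' D) := by
  have h1 : (fun Q : GSys N F => Q.1.top) '' D =
      Cond.top '' ((fun Q : GSys N F => Q.1.cond τ) '' D) := by
    rw [← Set.image_comp]
    rfl
  ext x
  · change Classical.epsilon (fun b => IsLUB ((fun Q : GSys N F => Q.1.top) '' D) b) =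
      Classical.epsilon (fun b => IsLUB (Cond.top '' ((fun Q : GSys N F => Q.1.cond τ) '' D)) b)
    rw [h1]
  · simp only [Sys.cond, uniSys, uni, Set.mem_ofPred_eq, Set.exists_mem_image]
  · simp only [Sys.cond, uniSys, uni, Set.mem_ofPred_eq, Set.exists_mem_image]
  · simp only [Sys.cond, uniSys, uni, Set.mem_ofPred_eq, Set.exists_mem_image]

theorem dirClosed_gsys [WellFoundedLT X] [Nonempty X] (hX : Bdd X) (F : Set Θ) :
    DirClosed #X (GSys N F) := by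
  intro D hD hne hdir
  have hsm : ∀ τ, #((fun Q : GSys N F => Q.1.cond τ) '' D : Set (Cond X Θ)) < #X := fun τ =>
    lt_of_le_of_lt Cardinal.mk_image_le hD
  have hd : ∀ τ, Dir ((fun Q : GSys N F => Q.1.cond τ) '' D) := by
    rintro τ _ ⟨a, ha, rfl⟩ _ ⟨b, hb, rfl⟩
    obtain ⟨c, hc, h1, h2⟩ := hdir a ha b hb
    exact ⟨_, ⟨c, hc, rfl⟩, h1 τ, h2 τ⟩
  have hl : ∀ τ, ∀ c ∈ (fun Q : GSys N F => Q.1.cond τ) '' D, Legal N c := by
    rintro τ _ ⟨a, ha, rfl⟩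
    exact a.2.1 τ
  refine ⟨⟨uniSys D, fun τ => ?_, fun τ τ' j h => ?_⟩, fun Q hQ τ => ?_⟩
  · rw [uniSys_cond]
    exact uni_legal hX (hsm τ) (hd τ) (hl τ)
  · ext x
    constructor
    · rintro ⟨Q, hQ, hx⟩
      exact ⟨Q, hQ, by rwa [← Q.2.2 τ τ' j h]⟩
    · rintro ⟨Q, hQ, hx⟩
      exact ⟨Q, hQ, by rwa [Q.2.2 τ τ' j h]⟩
  · change (uniSys D).cond τ ≤ Q.1.cond τ
    rw [uniSys_cond]
    exact uni_le hX (hsm τ) (hd τ) (fun c hc => (hl τ c hc).1) ⟨Q, hQ, rfl⟩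

/-- the legal conditions -/
abbrev PT (N : Θ → X → X → Set (Cond X Θ)) : Type := {p : Cond X Θ // Legal N p}

theorem dirClosed_PT [WellFoundedLT X] [Nonempty X] (hX : Bdd X) : DirClosed #X (PT N) := by
  intro D hD hne hdir
  have hsm : #((Subtype.val) '' D : Set (Cond X Θ)) < #X := lt_of_le_of_lt Cardinal.mk_image_le hD
  have hd : Dir (Subtype.val '' D) := by
    rintro _ ⟨a, ha, rfl⟩ _ ⟨b, hb, rfl⟩
    obtain ⟨c, hc, h1, h2⟩ := hdir a ha b hb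
    exact ⟨_, ⟨c, hc, rfl⟩, h1, h2⟩
  have hl : ∀ c ∈ Subtype.val '' D, Legal N c := by
    rintro _ ⟨a, ha, rfl⟩
    exact a.2
  exact ⟨⟨_, uni_legal hX hsm hd hl⟩, fun a ha =>
    uni_le hX hsm hd (fun c hc => (hl c hc).1) ⟨a, ha, rfl⟩⟩

/-- making one of the conditions of a system stronger -/
theorem sys_dense (hX : Bdd X) (hinf : ℵ₀ ≤ #X) {F : Set Θ} (E : Set (PT N))
    (hE : ∀ p, ∃ q ≤ p, q ∈ E) (Q : GSys N F) (τ0 : Θ → Bool) :
    ∃ Q' ≤ Q, ∃ h : Legal N (Q'.1.cond τ0), (⟨Q'.1.cond τ0, h⟩ : PT N) ∈ E := by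
  classical
  obtain ⟨t, ht⟩ := hX.exists_lt Q.1.top
  obtain ⟨hl, hle⟩ := raise_spec (N := N) (Q.2.1 τ0) (t := t) ht.le
  obtain ⟨⟨r, hr⟩, hrle, hrE⟩ := hE ⟨_, hl⟩
  have hrle' : r ≤ raise (Q.1.cond τ0) t := hrle
  have hsup : Q.1.supp ⊆ r.supp := hrle'.2.2.1
  let U : (Θ → Bool) → Set Θ := fun τ => {j | Agr F τ τ0 j}
  have hU : ∀ τ, IsLowerSet (U τ) := fun τ j j' hj' hj i hi hiF => hj i (hi.trans hj') hiF
  let Q' : Sys X Θ := ⟨r.top, r.s, r.supp ∪ Q.1.supp, fun τ j => if j ∈ U τ then r.y j else Q.1.Y τ j⟩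
  have hQ'am : ∀ τ, Q'.cond τ = am (U τ) r (Q.1.cond τ) := fun τ => rfl
  have key : ∀ τ, Legal N (Q'.cond τ) ∧ Q'.cond τ ≤ Q.1.cond τ := by
    intro τ
    obtain ⟨h1, h2, -⟩ := am_spec (hU τ) hr (Q.2.1 τ) (t := t) ht hrle'.1 (hrle'.2.1) hinf (by
      intro j hj hjs
      refine ⟨hsup hjs, fun x hx => ?_⟩
      have h3 : (Q.1.cond τ).y j = (Q.1.cond τ0).y j := Q.2.2 τ τ0 j hj
      rw [h3]
      exact hrle'.2.2.2 j hjs x (hx.trans ht))
    exact ⟨h1, h2⟩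
  have hτ0 : Q'.cond τ0 = r := by
    have h1 : U τ0 = Set.univ := Set.eq_univ_of_forall fun j i _ _ => rfl
    ext x
    · rfl
    · rfl
    · change x ∈ r.supp ∪ Q.1.supp ↔ x ∈ r.supp
      exact ⟨fun h => h.elim id fun h => hsup h, Or.inl⟩
    · rename_i z
      change z ∈ (if x ∈ U τ0 then r.y x else Q.1.Y τ0 x) ↔ z ∈ r.y x
      rw [if_pos (show x ∈ U τ0 by rw [h1]; exact Set.mem_univ x)]
  refine ⟨⟨Q', fun τ => (key τ).1, fun τ τ' j h => ?_⟩, fun τ => (key τ).2, ?_⟩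
  · change (if j ∈ U τ then r.y j else Q.1.Y τ j) = (if j ∈ U τ' then r.y j else Q.1.Y τ' j)
    by_cases hj : j ∈ U τ
    · have hj' : j ∈ U τ' := fun i hi hiF => (h i hi hiF).symm.trans (hj i hi hiF)
      rw [if_pos hj, if_pos hj']
    · have hj' : j ∉ U τ' := fun hj' => hj fun i hi hiF => (h i hi hiF).trans (hj' i hi hiF)
      rw [if_neg hj, if_neg hj', Q.2.2 τ τ' j h]
  · refine ⟨by
      change Legal N (Q'.cond τ0)
      exact (key τ0).1, ?_⟩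
    have : (⟨Q'.cond τ0, (key τ0).1⟩ : PT N) = ⟨r, hr⟩ := Subtype.ext hτ0
    change (⟨Q'.cond τ0, (key τ0).1⟩ : PT N) ∈ E
    rw [this]
    exact hrE

/-- all the conditions of a system can be put into a dense open set -/
theorem sys_meet [WellFoundedLT X] [Nonempty X] (hX : Bdd X) (hinf : ℵ₀ ≤ #X) {F : Set Θ}
    (hF : #(F → Bool) < #X) (E : Set (PT N)) (hE : ∀ p, ∃ q ≤ p, q ∈ E) (hEd : Down E)
    (Q : GSys N F) : ∃ Q' ≤ Q, ∀ τ, (⟨Q'.1.cond τ, Q'.2.1 τ⟩ : PT N) ∈ E := by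
  classical
  let ex : (F → Bool) → Θ → Bool := fun f j => if h : j ∈ F then f ⟨j, h⟩ else false
  obtain ⟨Q', hQ', hall⟩ := exists_forall_mem hinf (dirClosed_gsys (N := N) hX F) hF
    (fun f => {Q : GSys N F | (⟨Q.1.cond (ex f), Q.2.1 _⟩ : PT N) ∈ E})
    (fun f Q hQ Q' hle => hEd _ hQ _ (hle (ex f)))
    (fun f Q => by
      obtain ⟨Q', h1, h2, h3⟩ := sys_dense hX hinf E hE Q (ex f)
      exact ⟨Q', h1, h3⟩) Q
  refine ⟨Q', hQ', fun τ => ?_⟩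
  have h := hall fun i => τ i
  have h2 : Q'.1.cond (ex fun i => τ i) = Q'.1.cond τ := by
    have h3 : Q'.1.Y (ex fun i => τ i) = Q'.1.Y τ := by
      funext j
      refine Q'.2.2 _ _ j fun i _ hiF => ?_
      simp [ex, hiF]
    unfold Sys.cond
    rw [h3]
  have h4 : (⟨Q'.1.cond τ, Q'.2.1 τ⟩ : PT N) = ⟨Q'.1.cond (ex fun i => τ i), Q'.2.1 _⟩ :=
    Subtype.ext h2.symm
  rw [h4]
  exact h

/-- splitting all the coordinates of the support -/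
def splitSys (Q : Sys X Θ) (t : X) : Sys X Θ :=
  ⟨t, Q.s, Q.supp, fun τ j => Q.Y τ j ∪ {x | x = Q.top ∧ j ∈ Q.supp ∧ τ j = true}⟩

theorem split_spec (F : Set Θ) (Q : Sys X Θ) (hQ : Good N F Q)
    (hF : F ⊆ Q.supp) {t : X} (ht : Q.top < t) :
    Good N Q.supp (splitSys Q t) ∧ ∀ τ, (splitSys Q t).cond τ ≤ Q.cond τ := by
  have h : ∀ τ, (splitSys Q t).cond τ =
      addW (Q.cond τ) t ∅ (fun j => {x | x = Q.top ∧ j ∈ Q.supp ∧ τ j = true}) := by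
    intro τ
    ext x
    · rfl
    · rfl
    · change x ∈ Q.supp ↔ x ∈ Q.supp ∪ ∅
      rw [Set.union_empty]
    · rfl
  have h2 : ∀ τ, Legal N ((splitSys Q t).cond τ) ∧ (splitSys Q t).cond τ ≤ Q.cond τ := by
    intro τ
    rw [h]
    refine addW_spec (hQ.1 τ) ht.le ?_ ?_
    · rw [Set.union_empty]
      exact (hQ.1 τ).1.1
    · rintro j x ⟨rfl, hj, -⟩
      exact ⟨le_rfl, ht, Or.inl hj⟩
  refine ⟨⟨fun τ => (h2 τ).1, fun τ τ' j hag => ?_⟩, fun τ => (h2 τ).2⟩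
  have h3 : Q.Y τ j = Q.Y τ' j := hQ.2 τ τ' j fun i hi hiF => hag i hi (hF hiF)
  change Q.Y τ j ∪ {x | x = Q.top ∧ j ∈ Q.supp ∧ τ j = true} =
    Q.Y τ' j ∪ {x | x = Q.top ∧ j ∈ Q.supp ∧ τ' j = true}
  rw [h3]
  congr 1
  ext x
  constructor
  · rintro ⟨h4, h5, h6⟩
    exact ⟨h4, h5, by rw [← hag j le_rfl h5, h6]⟩
  · rintro ⟨h4, h5, h6⟩
    exact ⟨h4, h5, by rw [hag j le_rfl h5, h6]⟩

end Pool.Agent.R583.D
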