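import Mathlib
import Pool.Agent.Helper669.KDefs
set_option autoImplicit false

/-!
# Clubs, stationary sets, ineffability and diamond in the language of forcing
-/

namespace Pool.Agent.R583.DDefs

open Cardinal Pool.Agent.Helper669.Forcing Pool.Agent.Helper669.K

section

variable {P : Type} [Preorder P] {X : Type} [LinearOrder X]

/-- `φ ↔ ψ` -/
def fiff (φ ψ : Set P) : Set P := fand (fimp φ ψ) (fimp ψ φ)

/-- `C` is an unbounded subset of `X`. -/
def FUnbounded (C : X → Set P) : Set P :=
  fall fun b : X => fex fun c : X => fand (fground (b < c)) (meets (C c))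

/-- `C` is a closed subset of `X`: if `d` is not the least element of `X` and the elements of `C`
below `d` are unbounded in `d`, then `d` is in `C`. -/
def FClosed (C : X → Set P) : Set P :=
  fall fun d : X => fimp
    (fand (fground (∃ b, b < d))
      (fall fun b : X => fimp (fground (b < d))
        (fex fun c : X => fand (fground (b < c ∧ c < d)) (meets (C c)))))
    (meets (C d))

/-- `C` is a closed unbounded subset of `X`. -/
def FClub (C : X → Set P) : Set P := fand (FUnbounded C) (FClosed C)

/-- The set of all `a` with `φ a` is stationary in `X`: it meets every closed unbounded set. -/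
def FStationary (φ : X → Set P) : Set P :=
  fall fun C : X → Set P => fimp (FClub C) (fex fun a : X => fand (φ a) (meets (C a)))

/-- The subsets `A` and `B` of `X` agree below `a`: `A ∩ a = B ∩ a`. -/
def FAgree (A B : X → Set P) (a : X) : Set P :=
  fall fun b : X => fimp (fground (b < a)) (fiff (meets (A b)) (meets (B b)))

/-- For every sequence `A` of subsets of `X` there is `B ⊆ X` such that
`{a : B ∩ a = A a ∩ a}` is stationary: `X` is ineffable. -/
def FIneffable (P : Type) [Preorder P] (X : Type) [LinearOrder X] : Set P :=
  fall fun A : X → X → Set P => fex fun B : X → Set P => FStationary fun a => FAgree B (A a) a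

/-- `a` has cofinality `ω`: some function `ℕ → X` takes values below `a` which are unbounded
in `a`. -/
def FCofOmega (a : X) : Set P :=
  fex fun f : ℕ → X → Set P => fand (IsFun f)
    (fand (fall fun n : ℕ => fall fun x : X => fimp (meets (f n x)) (fground (x < a)))
      (fall fun b : X => fimp (fground (b < a))
        (fex fun n : ℕ => fex fun x : X => fand (meets (f n x)) (fground (b < x)))))

/-- The diamond principle on the subset `S` of `X`: there is a sequence `A` of subsets of `X`
such that for all `B ⊆ X` the set of the `a ∈ S` with `B ∩ a = A a ∩ a` is stationary. -/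
def FDiamond (S : X → Set P) : Set P :=
  fex fun A : X → X → Set P => fall fun B : X → Set P =>
    FStationary fun a => fand (meets (S a)) (FAgree B (A a) a)

end

/-- `κ` is a regular uncountable cardinal which is ineffable in every generic extension by a
`κ`-directed closed forcing notion (the ineffability of `κ` is indestructible). -/
def IndestructiblyIneffable (κ : Cardinal.{0}) : Prop :=
  ℵ₀ < κ ∧ κ.IsRegular ∧ ∀ (Q : Type) [Preorder Q], DirClosed κ Q →
    ∀ q : Q, q ∈ FIneffable Q κ.ord.ToType

section

variable {P : Type} [Preorder P] {X : Type} [LinearOrder X]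

theorem down_fiff (φ ψ : Set P) : Down (fiff φ ψ) := down_fand (down_fimp _ _) (down_fimp _ _)

theorem down_FAgree (A B : X → Set P) (a : X) : Down (FAgree A B a) :=
  down_fall fun _ => down_fimp _ _

theorem down_FUnbounded (C : X → Set P) : Down (FUnbounded C) := down_fall fun _ => down_fex _

theorem down_FClosed (C : X → Set P) : Down (FClosed C) := down_fall fun _ => down_fimp _ _

theorem down_FClub (C : X → Set P) : Down (FClub C) :=
  down_fand (down_FUnbounded C) (down_FClosed C)

theorem down_FStationary (φ : X → Set P) : Down (FStationary φ) := down_fall fun _ => down_fimp _ _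

theorem closed_of {C : X → Set P} {q : P} (h : q ∈ FClosed C) {δ : X} (h0 : ∃ b, b < δ)
    (h1 : ∀ b < δ, ∃ c, b < c ∧ c < δ ∧ q ∈ meets (C c)) : ∃ r ≤ q, r ∈ meets (C δ) := by
  refine mem_fimp.1 (h δ) q le_rfl ⟨h0, fun b => mem_fimp.2 fun q' hq' hb => ⟨q', le_rfl, ?_⟩⟩
  obtain ⟨c, hbc, hcδ, hc⟩ := h1 b hb
  exact mem_fex_of_mem c (down_fand (down_fground _) (down_meets _))
    ⟨⟨hbc, hcδ⟩, down_meets _ _ hc _ hq'⟩

theorem unbounded_of {C : X → Set P} {q : P} (h : q ∈ FUnbounded C) (b : X) :
    ∃ r ≤ q, ∃ c, b < c ∧ r ∈ meets (C c) := by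
  obtain ⟨r, hr, c, hc, h'⟩ := mem_fex.1 (h b) q le_rfl
  exact ⟨r, hr, c, hc, h'⟩

end

end Pool.Agent.R583.DDefs
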