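import Mathlib
import Pool.Agent.R583.DBranch
import Pool.Agent.R583.DDefs
set_option autoImplicit false
set_option linter.unusedSectionVars false

/-!
# The generic set is stationary
-/

namespace Pool.Agent.R583.D

open Cardinal Pool.Agent.Helper669.Forcing Pool.Agent.Helper669.K Pool.Agent.R583.DDefs

variable {X Θ : Type} [LinearOrder X] [WellFoundedLT X] [LinearOrder Θ] [WellFoundedLT Θ]
  {N : Θ → X → X → Set (Cond X Θ)}

/-- the name of the generic set -/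
def SName (N : Θ → X → X → Set (Cond X Θ)) : X → Set (PT N) := fun δ => {p | δ ∈ p.1.s}

/-- the name of the coordinate `j` -/
def YName (N : Θ → X → X → Set (Cond X Θ)) (j : Θ) : X → Set (PT N) := fun x => {p | x ∈ p.1.y j}

theorem exists_seq_of {α : Type*} {R : α → α → Prop} (h : ∀ a, ∃ b, R a b) (a : α) :
    ∃ f : ℕ → α, f 0 = a ∧ ∀ n, R (f n) (f (n + 1)) := by
  choose g hg using h
  exact ⟨fun n => Nat.rec a (fun _ x => g x) n, rfl, fun n => hg _⟩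

/-- stages of the construction -/
def Stage (N : Θ → X → X → Set (Cond X Θ)) (q : PT N) : Type :=
  {x : Set Θ × Sys X Θ // Good N x.1 x.2 ∧ x.1 ⊆ x.2.supp ∧ ∀ τ, x.2.cond τ ≤ q.1}

theorem stage_step [Nonempty X] (hX : Bdd X) (hstr : ∀ ν < #X, (2 : Cardinal) ^ ν < #X)
    {C : X → Set (PT N)} {q : PT N} (hC : q ∈ FClub C) (x : Stage N q) :
    ∃ y : Stage N q, y.1.1 = x.1.2.supp ∧ (∀ τ, y.1.2.cond τ ≤ x.1.2.cond τ) ∧
      x.1.2.top < y.1.2.top ∧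
      (∀ τ, ∀ j ∈ x.1.2.supp, (x.1.2.top ∈ y.1.2.Y τ j ↔ τ j = true)) ∧
      ∀ τ, ∃ c, x.1.2.top < c ∧ c < y.1.2.top ∧ (⟨y.1.2.cond τ, y.2.1.1 τ⟩ : PT N) ∈ meets (C c) := by
  obtain ⟨⟨F, Q⟩, hG, hF, hq⟩ := x
  have hinf : ℵ₀ ≤ #X := hX.reg.aleph0_le
  obtain ⟨t, ht⟩ := hX.exists_lt Q.top
  obtain ⟨h1, h2⟩ := split_spec F Q hG hF ht
  let E : Set (PT N) := {r | (∃ c, Q.top < c ∧ c < r.1.top ∧ r ∈ meets (C c)) ∨ ∀ r' ≤ r, ¬ r' ≤ q}
  have hEd : Down E := by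
    rintro r hr r' hr'
    rcases hr with ⟨c, h3, h4, h5⟩ | hr
    · exact Or.inl ⟨c, h3, h4.trans_le hr'.1, down_meets _ _ h5 _ hr'⟩
    · exact Or.inr fun r'' hr'' => hr r'' (hr''.trans hr')
  have hE : ∀ p, ∃ r ≤ p, r ∈ E := by
    intro p
    by_cases hp : ∃ r' ≤ p, r' ≤ q
    · obtain ⟨r', hr', hr'q⟩ := hp
      obtain ⟨r2, hr2, c, hc, hr2c⟩ := unbounded_of (down_FUnbounded C _ hC.1 _ hr'q) Q.top
      obtain ⟨t2, ht2⟩ := hX.exists_lt (max c r2.1.top)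
      obtain ⟨h3, h4⟩ := raise_spec r2.2 (t := t2) ((le_max_right c _).trans ht2.le)
      refine ⟨⟨_, h3⟩, le_trans (show (⟨_, h3⟩ : PT N) ≤ r2 from h4) (hr2.trans hr'),
        Or.inl ⟨c, hc, (le_max_left _ _).trans_lt ht2, down_meets _ _ hr2c _ h4⟩⟩
    · push Not at hp
      exact ⟨p, le_rfl, Or.inr hp⟩
  have hcard : #(Q.supp → Bool) < #X := by
    have : #(Q.supp → Bool) = 2 ^ #Q.supp := by simp
    rw [this]
    exact hstr _ (hG.1 fun _ => false).1.1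
  obtain ⟨Q', hQ', hall⟩ := sys_meet hX hinf hcard E hE hEd (⟨splitSys Q t, h1⟩ : GSys N Q.supp)
  have hle : ∀ τ, Q'.1.cond τ ≤ (splitSys Q t).cond τ := hQ'
  have hle2 : ∀ τ, Q'.1.cond τ ≤ Q.cond τ := fun τ => (hle τ).trans (h2 τ)
  refine ⟨⟨(Q.supp, Q'.1), Q'.2, (hle2 fun _ => false).2.2.1, fun τ => (hle2 τ).trans (hq τ)⟩,
    rfl, hle2, ht.trans_le (hle fun _ => false).1, fun τ j hj => ?_, fun τ => ?_⟩
  · have h3 : Q.top ∈ Q'.1.Y τ j ↔ Q.top ∈ (splitSys Q t).Y τ j :=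
      (hle τ).2.2.2 j hj Q.top ht
    change Q.top ∈ Q'.1.Y τ j ↔ _
    rw [h3]
    constructor
    · rintro (h4 | h4)
      · exact absurd ((hG.1 τ).1.2.2.1 j _ h4) (lt_irrefl _)
      · exact h4.2.2
    · exact fun h4 => Or.inr ⟨rfl, hj, h4⟩
  · rcases hall τ with ⟨c, h3, h4, h5⟩ | h3
    · exact ⟨c, h3, h4, h5⟩
    · exact absurd ((hle2 τ).trans (hq τ)) (h3 _ le_rfl)

theorem stationary [Nonempty X] (hX : Bdd X) (hstr : ∀ ν < #X, (2 : Cardinal) ^ ν < #X)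
    (h0 : ℵ₀ < #X) (p : PT N) :
    p ∈ FStationary fun a => meets (SName N a) := by
  intro C
  refine mem_fimp.2 fun q _ hC => ?_
  obtain ⟨t0, ht0⟩ := hX.exists_lt q.1.top
  -- the first stage
  let Q0 : Sys X Θ := ⟨q.1.top, q.1.s, q.1.supp, fun _ => q.1.y⟩
  have hQ0 : ∀ τ, Q0.cond τ = q.1 := fun τ => rfl
  let x0 : Stage N q := ⟨(∅, Q0), ⟨fun τ => q.2, fun _ _ _ _ => rfl⟩, Set.empty_subset _,
    fun τ => le_rfl⟩
  obtain ⟨f, -, hf⟩ := exists_seq_of (stage_step hX hstr hC) x0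
  choose hf1 hf2 hf3 hf4 hf5 using hf
  have hmono : ∀ m n, m ≤ n → ∀ τ, (f n).1.2.cond τ ≤ (f m).1.2.cond τ := by
    intro m n hmn τ
    induction n, hmn using Nat.le_induction with
    | base => exact le_rfl
    | succ n _ ih => exact (hf2 n τ).trans ih
  let D : (Θ → Bool) → Set (Cond X Θ) := fun τ => Set.range fun n => (f n).1.2.cond τ
  have hDX : ∀ τ, #(D τ) < #X := fun τ =>
    lt_of_le_of_lt (Cardinal.mk_le_aleph0_iff.2 (Set.countable_range _)) h0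
  have hdir : ∀ τ, Dir (D τ) := by
    rintro τ _ ⟨m, rfl⟩ _ ⟨n, rfl⟩
    exact ⟨_, ⟨max m n, rfl⟩, hmono _ _ (le_max_left _ _) τ, hmono _ _ (le_max_right _ _) τ⟩
  have hl : ∀ τ, ∀ c ∈ D τ, Legal N c := by
    rintro τ _ ⟨n, rfl⟩
    exact (f n).2.1.1 τ
  have hlu : ∀ τ, Legal N (uni (D τ)) := fun τ => uni_legal hX (hDX τ) (hdir τ) (hl τ)
  have hule : ∀ τ n, uni (D τ) ≤ (f n).1.2.cond τ := fun τ n =>
    uni_le hX (hDX τ) (hdir τ) (fun c hc => (hl τ c hc).1) ⟨n, rfl⟩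
  have htopim : ∀ τ, Cond.top '' D τ = Set.range fun n => (f n).1.2.top := by
    intro τ
    change Cond.top '' (Set.range fun n => (f n).1.2.cond τ) = _
    rw [← Set.range_comp]
    rfl
  let τ0 : Θ → Bool := fun _ => false
  have htop : ∀ τ, (uni (D τ)).top = (uni (D τ0)).top := by
    intro τ
    have h1 := uni_top hX (hDX τ)
    have h2 := uni_top hX (hDX τ0)
    rw [htopim] at h1 h2
    exact h1.unique h2
  have hlub : IsLUB (Set.range fun n => (f n).1.2.top) (uni (D τ0)).top := by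
    rw [← htopim τ0]
    exact uni_top hX (hDX τ0)
  obtain ⟨t, ht⟩ := hX.exists_lt (uni (D τ0)).top
  have htopn : ∀ n, (f n).1.2.top < (uni (D τ0)).top := fun n =>
    (hf3 n).trans_le (hlub.1 ⟨n + 1, rfl⟩)
  have hcofin : ∀ b < (uni (D τ0)).top, ∃ n, b < (f n).1.2.top := by
    intro b hb
    by_contra hcon
    push Not at hcon
    refine absurd hb (not_lt.2 (hlub.2 ?_))
    rintro _ ⟨n, rfl⟩
    exact hcon n
  let S : Set X := {x | ∃ n, x ∈ (f n).1.2.s}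
  let V : Set Θ := {j | ∃ n, j ∈ (f n).1.2.supp}
  let Y : (Θ → Bool) → Θ → Set X := fun τ j => {x | ∃ n, x ∈ (f n).1.2.Y τ j}
  have huni : ∀ τ, (⟨(uni (D τ0)).top, S, V, Y τ⟩ : Cond X Θ) = uni (D τ) := by
    intro τ
    ext x
    · exact (htop τ).symm
    · constructor
      · rintro ⟨n, hn⟩
        exact ⟨_, ⟨n, rfl⟩, hn⟩
      · rintro ⟨_, ⟨n, rfl⟩, hn⟩
        exact ⟨n, hn⟩
    · constructor
      · rintro ⟨n, hn⟩
        exact ⟨_, ⟨n, rfl⟩, hn⟩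
      · rintro ⟨_, ⟨n, rfl⟩, hn⟩
        exact ⟨n, hn⟩
    · constructor
      · rintro ⟨n, hn⟩
        exact ⟨_, ⟨n, rfl⟩, hn⟩
      · rintro ⟨_, ⟨n, rfl⟩, hn⟩
        exact ⟨n, hn⟩
  have hdiff : ∀ τ, ∀ j ∈ V, ∃ n, j ∈ (f n).1.2.supp ∧ ((f n).1.2.top ∈ Y τ j ↔ τ j = true) := by
    rintro τ j ⟨n, hn⟩
    refine ⟨n, hn, ?_⟩
    have h1 := hule τ (n + 1)
    rw [← huni τ] at h1
    have h2 : (f n).1.2.top ∈ Y τ j ↔ (f n).1.2.top ∈ (f (n + 1)).1.2.Y τ j :=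
      h1.2.2.2 j ((hf2 n τ).2.2.1 hn) _ (hf3 n)
    rw [h2]
    exact hf4 n τ j hn
  let A : Lim N :=
    { δ := (uni (D τ0)).top
      s := S
      V := V
      Y := Y
      t := t
      lt := ht
      legal := fun τ => by
        rw [huni τ]
        exact hlu τ
      coh := by
        intro τ τ' j h
        have h1 : ∀ n, (f n).1.2.Y τ j = (f n).1.2.Y τ' j := fun n =>
          (f n).2.1.2 τ τ' j fun i hi hiF => h i hi ⟨n, (f n).2.2.1 hiF⟩
        ext x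
        constructor
        · rintro ⟨n, hn⟩
          exact ⟨n, by rwa [← h1 n]⟩
        · rintro ⟨n, hn⟩
          exact ⟨n, by rwa [h1 n]⟩
      diff := by
        rintro τ τ' j ⟨n, hn⟩ hne
        refine ⟨(f n).1.2.top, htopn n, fun hiff => hne ?_⟩
        have key : ∀ τ, ((f n).1.2.top ∈ Y τ j ↔ τ j = true) := by
          intro τ
          have h1 := hule τ (n + 1)
          rw [← huni τ] at h1
          have h2 : (f n).1.2.top ∈ Y τ j ↔ (f n).1.2.top ∈ (f (n + 1)).1.2.Y τ j :=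
            h1.2.2.2 j ((hf2 n τ).2.2.1 hn) _ (hf3 n)
          rw [h2]
          exact hf4 n τ j hn
        have h1 := key τ
        have h2 := key τ'
        have h3 : τ j = true ↔ τ' j = true := h1.symm.trans (hiff.trans h2)
        exact Bool.eq_iff_iff.2 h3
      cof := ⟨fun n => (f n).1.2.top, htopn, hcofin⟩ }
  obtain ⟨τ, r, hr, hδ, hδt, hrle⟩ := exists_branch hX A
  have hrn : ∀ n, r ≤ (f n).1.2.cond τ := by
    intro n
    refine hrle.trans ?_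
    have h1 := hule τ n
    rw [← huni τ] at h1
    exact h1
  have hrq : (⟨r, hr⟩ : PT N) ≤ q := (hrn 0).trans ((f 0).2.2.2 τ)
  obtain ⟨r', hr', hr'C⟩ := closed_of (q := (⟨r, hr⟩ : PT N)) (δ := A.δ)
    (down_FClosed C _ hC.2 _ hrq) ⟨_, htopn 0⟩ (by
      intro b hb
      obtain ⟨n, hn⟩ := hcofin b hb
      obtain ⟨c, h1, h2, h3⟩ := hf5 n τ
      exact ⟨c, hn.trans h1, h2.trans (htopn (n + 1)), down_meets _ _ h3 _ (hrn (n + 1))⟩)
  refine ⟨r', hr'.trans hrq, mem_fex_of_mem A.δ (down_fand (down_meets _) (down_meets _))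
    ⟨meets_of_le (s := ⟨r, hr⟩) hδ hr', hr'C⟩⟩

end Pool.Agent.R583.D
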