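import Mathlib
import Pool.Agent.R583.DKill
set_option autoImplicit false
set_option linter.unusedSectionVars false

/-!
# Assembly
-/

namespace Pool.Agent.R583.D

open Cardinal Pool.Agent.Helper669.Forcing Pool.Agent.Helper669.K Pool.Agent.R583.DDefs

theorem bdd_ord {κ : Cardinal.{0}} (hκ : κ.IsRegular) : Bdd κ.ord.ToType := by
  refine ⟨by rw [mk_ord_toType]; exact hκ, fun S hS => ?_⟩
  have hinf := hκ.aleph0_le
  by_contra hcon
  push Not at hcon
  rw [mk_ord_toType] at hS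
  have h1 : (⋃ x : S, Set.Iic x.1) = Set.univ := by
    ext x
    simp only [Set.mem_iUnion, Set.mem_Iic, Set.mem_univ, iff_true]
    obtain ⟨y, hy, hxy⟩ := hcon x
    exact ⟨⟨y, hy⟩, hxy⟩
  have h2 : #(⋃ x : S, Set.Iic x.1) < κ := by
    rw [card_iUnion_lt_iff_forall_of_isRegular hκ hS]
    intro n
    have h3 : #(Set.Iio n.1) < κ := by simpa using mk_Iio_lt n.1
    have h4 : (Set.Iic n.1) = insert n.1 (Set.Iio n.1) := by
      ext x
      simp only [Set.mem_Iic, Set.mem_insert_iff, Set.mem_Iio]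
      exact le_iff_eq_or_lt
    rw [h4]
    exact lt_of_le_of_lt Cardinal.mk_insert_le
      (Cardinal.add_lt_of_lt hinf h3 (lt_of_lt_of_le Cardinal.one_lt_aleph0 hinf))
  rw [h1, mk_univ, mk_ord_toType] at h2
  exact lt_irrefl _ h2

theorem staysRegular_of_dirClosed {κ : Cardinal.{0}} (hκ : κ.IsRegular) {Q : Type} [Preorder Q]
    (hQ : DirClosed κ Q) (q : Q) : q ∈ StaysRegular Q κ := by
  intro ν hν R
  refine mem_fimp.2 fun q _ hR => ?_
  obtain ⟨r, hr, hall⟩ := exists_forall_mem hκ.aleph0_le hQ (N := ν.out)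
    (by rw [Cardinal.mk_out]; exact hν)
    (fun x => {r | (∃ y, r ∈ meets (R x y)) ∨ ∀ r' ≤ r, ¬ r' ≤ q})
    (by
      rintro x r hr r' hr'
      rcases hr with ⟨y, hy⟩ | hr
      · exact Or.inl ⟨y, down_meets _ _ hy _ hr'⟩
      · exact Or.inr fun r'' hr'' => hr r'' (hr''.trans hr'))
    (by
      intro x p
      by_cases hp : ∃ r' ≤ p, r' ≤ q
      · obtain ⟨r', hr', hr'q⟩ := hp
        obtain ⟨r2, hr2, y, hy⟩ := IsFun.total (down_IsFun R _ hR _ hr'q) x
        exact ⟨r2, hr2.trans hr', Or.inl ⟨y, hy⟩⟩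
      · push Not at hp
        exact ⟨p, le_rfl, Or.inr hp⟩) q
  have hall' : ∀ x, ∃ y, r ∈ meets (R x y) := by
    intro x
    rcases hall x with h | h
    · exact h
    · exact absurd hr (h r le_rfl)
  choose y hy using hall'
  obtain ⟨b, hb⟩ := (bdd_ord hκ).bdd (Set.range y) (by
    refine lt_of_le_of_lt Cardinal.mk_range_le ?_
    rw [Cardinal.mk_out, mk_ord_toType]
    exact hν)
  refine ⟨r, hr, mem_fex_of_mem b (down_fall fun _ => down_fall fun _ => down_fimp _ _)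
    fun x z => mem_fimp.2 fun r' hr' hz => ⟨r', le_rfl, ?_⟩⟩
  have : y x = z := IsFun.unique (down_IsFun R _ hR _ (hr'.trans hr)) (down_meets _ _ (hy x) _ hr') hz
  rw [← this]
  exact hb _ ⟨x, rfl⟩

theorem club_Ioi {X : Type} [LinearOrder X] (hX : ∀ x : X, ∃ y, x < y) (b0 : X) (p : Unit) :
    p ∈ FClub (P := Unit) (fun c => {_p | b0 < c}) := by
  refine ⟨fun b => mem_fex.2 fun q _ => ?_, fun d => mem_fimp.2 fun q _ hq => ?_⟩
  · obtain ⟨c, hc⟩ := hX (max b b0)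
    exact ⟨q, le_rfl, c, (le_max_left _ _).trans_lt hc,
      meets_of_mem ((le_max_right _ _).trans_lt hc)⟩
  · refine ⟨q, le_rfl, meets_of_mem ?_⟩
    obtain ⟨b, hb⟩ := hq.1
    obtain ⟨r, _, hr⟩ := mem_fimp.1 (hq.2 b) q le_rfl hb
    obtain ⟨r', _, c, ⟨_, hcd⟩, hc⟩ := mem_fex.1 hr r le_rfl
    obtain ⟨_, _, _, hs, _⟩ := hc r' le_rfl
    exact lt_trans hs hcd

/-- ineffable cardinals are strong limits -/
theorem strongLimit {κ : Cardinal.{0}} (h : IndestructiblyIneffable κ) :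
    ∀ ν < κ, (2 : Cardinal.{0}) ^ ν < κ := by
  classical
  obtain ⟨h0, hκ, hI⟩ := h
  intro ν hν
  by_contra hcon
  have hle : #κ.ord.ToType ≤ #(Set ν.out) := by
    rw [mk_ord_toType, Cardinal.mk_set, Cardinal.mk_out]
    exact not_lt.1 hcon
  obtain ⟨g⟩ : Nonempty (κ.ord.ToType ↪ Set ν.out) := (Cardinal.le_def _ _).1 hle
  have hle2 : #ν.out ≤ #κ.ord.ToType := by
    rw [mk_ord_toType, Cardinal.mk_out]
    exact hν.le
  obtain ⟨e⟩ : Nonempty (ν.out ↪ κ.ord.ToType) := (Cardinal.le_def _ _).1 hle2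
  obtain ⟨b0, hb0⟩ := (bdd_ord hκ).bdd (Set.range e) (by
    refine lt_of_le_of_lt Cardinal.mk_range_le ?_
    rw [Cardinal.mk_out, mk_ord_toType]
    exact hν)
  have hUnit : DirClosed κ Unit := fun D _ _ _ => ⟨(), fun _ _ => le_rfl⟩
  have hgt : ∀ x : κ.ord.ToType, ∃ y, x < y := (bdd_ord hκ).exists_lt
  let A : κ.ord.ToType → κ.ord.ToType → Set Unit := fun a b => {_p | ∃ i ∈ g a, e i = b}
  obtain ⟨_, _, B, hB⟩ := mem_fex.1 (hI Unit hUnit () A) () le_rfl
  have key : ∀ c : κ.ord.ToType, ∃ a, c < a ∧ () ∈ FAgree B (A a) a := by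
    intro c
    obtain ⟨r, _, hr⟩ := mem_fimp.1 (hB fun a => {_p | c < a}) () le_rfl (club_Ioi hgt c _)
    obtain ⟨_, _, a, ha1, ha2⟩ := mem_fex.1 hr r le_rfl
    obtain ⟨_, _, _, hs, _⟩ := ha2 () le_rfl
    exact ⟨a, hs, ha1⟩
  have hval : ∀ a, b0 < a → () ∈ FAgree B (A a) a → ∀ i, i ∈ g a ↔ () ∈ meets (B (e i)) := by
    intro a ha hag i
    have hi : e i < a := (hb0 _ ⟨i, rfl⟩).trans ha
    obtain ⟨_, _, h1, h2⟩ := mem_fimp.1 (hag (e i)) () le_rfl hi
    constructor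
    · intro hia
      obtain ⟨_, _, h3⟩ := mem_fimp.1 h2 () le_rfl (meets_of_mem ⟨i, hia, rfl⟩)
      exact h3
    · intro hB'
      obtain ⟨_, _, h3⟩ := mem_fimp.1 h1 () le_rfl hB'
      obtain ⟨_, _, _, ⟨i', hi', hii⟩, _⟩ := h3 () le_rfl
      rwa [← e.injective hii]
  obtain ⟨a, ha, haB⟩ := key b0
  obtain ⟨a', ha', haB'⟩ := key a
  have : g a = g a' := by
    ext i
    rw [hval a ha haB, hval a' (ha.trans ha') haB']
  exact absurd (g.injective this) (ne_of_lt ha')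

theorem cof_theta {c M : Cardinal.{0}} (hM : M < c.ord.cof) (V : Set c.ord.ToType)
    (hV : #V ≤ M) : ∃ j0, ∀ j ∈ V, j < j0 := by
  by_contra hcon
  push Not at hcon
  have h1 : IsCofinal V := fun j0 => by
    obtain ⟨j, hj, h⟩ := hcon j0
    exact ⟨j, hj, h⟩
  have h2 := Order.cof_le h1
  rw [Ordinal.cof_toType] at h2
  exact absurd (h2.trans hV) (not_le.2 hM)

theorem cofOmega_name {P X : Type} [Preorder P] [LinearOrder X] {a : X} (h : CofOmega a) (p : P) :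
    p ∈ FCofOmega a := by
  obtain ⟨f, hf1, hf2⟩ := h
  refine mem_fex_of_mem (fun n x => {_p | f n = x}) (down_fand (down_IsFun _) (down_fand
    (down_fall fun _ => down_fall fun _ => down_fimp _ _) (down_fall fun _ => down_fimp _ _)))
    ⟨⟨fun n => mem_fex_of_mem (f n) (down_meets _) (meets_of_mem rfl), fun n x x' =>
      mem_fimp.2 fun q _ hq => ⟨q, le_rfl, ?_⟩⟩, fun n x => mem_fimp.2 fun q _ hq =>
      ⟨q, le_rfl, ?_⟩, fun b => mem_fimp.2 fun q _ hb => ⟨q, le_rfl, ?_⟩⟩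
  · obtain ⟨_, _, _, h1, _⟩ := hq.1 q le_rfl
    obtain ⟨_, _, _, h2, _⟩ := hq.2 q le_rfl
    exact h1.symm.trans h2
  · obtain ⟨_, _, _, h1, _⟩ := hq q le_rfl
    change x < a
    rw [← h1]
    exact hf1 n
  · obtain ⟨n, hn⟩ := hf2 b hb
    exact mem_fex_of_mem n (down_fex _) (mem_fex_of_mem (f n)
      (down_fand (down_meets _) (down_fground _)) ⟨meets_of_mem rfl, hn⟩)

theorem main {κ : Cardinal.{0}} (h : IndestructiblyIneffable κ) :
    ∃ (P : Type) (_ : Preorder P), Nonempty P ∧ DirClosed κ P ∧ ∀ p : P,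
      p ∈ StaysRegular P κ ∧ p ∈ FIneffable P κ.ord.ToType ∧
      p ∈ fex fun S : κ.ord.ToType → Set P =>
        fand (fall fun a => fimp (meets (S a)) (FCofOmega a))
          (fand (FStationary fun a => meets (S a)) (fnot (FDiamond S))) := by
  classical
  have hstr := strongLimit h
  obtain ⟨h0, hκ, hI⟩ := h
  have hinf := hκ.aleph0_le
  let X : Type := κ.ord.ToType
  have hXκ : #X = κ := mk_ord_toType κ
  have hX : Bdd X := bdd_ord hκ
  have iX : Infinite X := Cardinal.infinite_iff.2 (by rw [hXκ]; exact hinf)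
  have iX' : Nonempty X := inferInstance
  let M : Type := Set X
  have hMκ : #M = 2 ^ κ := by rw [Cardinal.mk_set, hXκ]
  have hM : #M ^ #X = #M := by
    rw [hMκ, hXκ, ← Cardinal.power_mul, Cardinal.mul_eq_self hinf]
  have hM2 : 2 ≤ #M := by
    rw [hMκ]
    exact ((Cardinal.ofNat_lt_aleph0 (n := 2)).le.trans hinf).trans (Cardinal.cantor _).le
  let c : Cardinal.{0} := 2 ^ ((2 : Cardinal.{0}) ^ κ)
  let Θ : Type := c.ord.ToType
  have hΘc : #Θ = c := mk_ord_toType c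
  have hΘ : #Θ = 2 ^ #M := by rw [hΘc, hMκ]
  have iΘ : Nonempty Θ := by
    rw [← Cardinal.mk_ne_zero_iff, hΘ]
    exact Cardinal.power_ne_zero _ two_ne_zero
  obtain ⟨N, hN⟩ := bookkeeping (X := X) (Θ := Θ) (M := M) hM hM2 hΘ (fun j => by
    have := mk_Iio_lt (α := Θ) j (by simp [Θ])
    exact this)
  have hcf : ∀ V : Set Θ, #V ≤ #M → ∃ j0, ∀ j ∈ V, j < j0 := by
    intro V hV
    rw [hMκ] at hV
    refine cof_theta (c := c) (M := 2 ^ κ) ?_ V hV
    exact Cardinal.lt_cof_ord_power (hinf.trans (Cardinal.cantor κ).le) Cardinal.one_lt_two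
  have hdir : DirClosed κ (PT N) := by
    have := dirClosed_PT (N := N) hX
    rwa [hXκ] at this
  have h0X : ℵ₀ < #X := by rw [hXκ]; exact h0
  refine ⟨PT N, inferInstance, ?_, hdir, fun p => ⟨staysRegular_of_dirClosed hκ hdir p,
    hI (PT N) hdir p, ?_⟩⟩
  · obtain ⟨x0⟩ := iX'
    refine ⟨⟨⟨x0, ∅, ∅, fun _ => ∅⟩, ⟨?_, fun x hx => hx.elim, fun _ x hx => hx.elim,
      fun _ _ => rfl⟩, fun i hi => hi.elim⟩⟩
    rw [Cardinal.mk_eq_zero]
    exact Cardinal.aleph0_pos.trans h0X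
  · refine mem_fex_of_mem (SName N) (down_fand (down_fall fun _ => down_fimp _ _)
      (down_fand (down_FStationary _) (down_fnot _))) ⟨fun a => ?_, ?_, ?_⟩
    · refine mem_fimp.2 fun q _ hq => ?_
      obtain ⟨r, hr, s, hs, -⟩ := hq q le_rfl
      exact ⟨r, hr, cofOmega_name (s.2.1.2.1 a hs).2 r⟩
    · exact stationary hX (by rw [hXκ]; exact hstr) h0X p
    · exact no_diamond (M := M) hX h0X hM hM2 hN hcf p

end Pool.Agent.R583.D
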