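import Mathlib

/-!
# Nonstandard extensions of the positive integers

`fullLang` is the first-order language with a symbol for every finitary function and every finitary
relation on `ℕ+`. A nonstandard extension of `ℕ+` is an elementary extension of `ℕ+` in this
language (this is the transfer principle).
-/

set_option autoImplicit false

namespace Pool.Agent.R583.NS

open FirstOrder FirstOrder.Language Filter

universe u

/-- The language with a symbol for every finitary function and every finitary relation on the
positive integers. -/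
def fullLang : FirstOrder.Language.{0, 0} := ⟨fun n => (Fin n → ℕ+) → ℕ+, fun n => Set (Fin n → ℕ+)⟩

/-- The positive integers with all their functions and relations. -/
instance stdStructure : fullLang.Structure ℕ+ where
  funMap := fun f x => f x
  RelMap := fun R x => x ∈ (show Set _ from R)

/-- the symbol of a unary relation -/
def relSym (A : Set ℕ+) : fullLang.Relations 1 := {v : Fin 1 → ℕ+ | v 0 ∈ A}

/-- the symbol of a unary function -/
def funSym (f : ℕ+ → ℕ+) : fullLang.Functions 1 := fun v : Fin 1 → ℕ+ => f (v 0)

/-- the symbol of multiplication -/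
def mulSym : fullLang.Functions 2 := fun v : Fin 2 → ℕ+ => v 0 * v 1

section

variable {S : Type u} [fullLang.Structure S]

/-- `*A ⊆ *ℕ` -/
def star (S : Type u) [fullLang.Structure S] (A : Set ℕ+) : Set S :=
  {x : S | Structure.RelMap (relSym A) ![x]}

/-- multiplication of `*ℕ` -/
def starMul (x y : S) : S := Structure.funMap mulSym ![x, y]

/-- the extension `*f` of a function `f : ℕ → ℕ` -/
def starFun (f : ℕ+ → ℕ+) (x : S) : S := Structure.funMap (funSym f) ![x]

/-- `x *∣ y`: there is `z` in `*ℕ` with `y = x z`. -/
def StarDvd (x y : S) : Prop := ∃ z : S, y = starMul x z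

/-- The monad `μ(F) = {x ∈ *ℕ : v(x) = F}` of an ultrafilter, the intersection of all `*A` with
`A ∈ F`. -/
def monad (S : Type u) [fullLang.Structure S] (F : Ultrafilter ℕ+) : Set S :=
  {x : S | ∀ A : Set ℕ+, A ∈ F → x ∈ star S A}

variable (e : ℕ+ ↪ₑ[fullLang] S)
include e

theorem transfer (φ : fullLang.Sentence) (h : ℕ+ ⊨ φ) : S ⊨ φ :=
  (e.map_sentence φ).1 h

theorem star_mono {A B : Set ℕ+} (h : A ⊆ B) {x : S} (hx : x ∈ star S A) : x ∈ star S B := by
  have h1 := transfer e (∀' (((relSym A).boundedFormula₁ (&0)) ⟹ ((relSym B).boundedFormula₁ (&0)))) (by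
    simp only [Sentence.Realize, Formula.Realize, BoundedFormula.realize_all,
      BoundedFormula.realize_imp, BoundedFormula.realize_rel₁]
    intro a ha
    exact h ha)
  simp only [Sentence.Realize, Formula.Realize, BoundedFormula.realize_all,
    BoundedFormula.realize_imp, BoundedFormula.realize_rel₁] at h1
  exact h1 x hx

theorem star_compl {A : Set ℕ+} {x : S} : x ∈ star S Aᶜ ↔ x ∉ star S A := by
  have h1 := transfer e (∀' (((relSym Aᶜ).boundedFormula₁ (&0)) ⇔
      ∼ ((relSym A).boundedFormula₁ (&0)))) (by
    simp only [Sentence.Realize, Formula.Realize, BoundedFormula.realize_all,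
      BoundedFormula.realize_iff, BoundedFormula.realize_not, BoundedFormula.realize_rel₁]
    intro a
    exact Iff.rfl)
  simp only [Sentence.Realize, Formula.Realize, BoundedFormula.realize_all,
    BoundedFormula.realize_iff, BoundedFormula.realize_not, BoundedFormula.realize_rel₁] at h1
  exact h1 x

theorem star_fun {f : ℕ+ → ℕ+} {A : Set ℕ+} {x : S} :
    starFun f x ∈ star S A ↔ x ∈ star S (f ⁻¹' A) := by
  have h1 := transfer e (∀' (((relSym A).boundedFormula₁ ((funSym f).apply₁ (&0))) ⇔
      ((relSym (f ⁻¹' A)).boundedFormula₁ (&0)))) (by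
    simp only [Sentence.Realize, Formula.Realize, BoundedFormula.realize_all,
      BoundedFormula.realize_iff, BoundedFormula.realize_rel₁]
    intro a
    exact Iff.rfl)
  simp only [Sentence.Realize, Formula.Realize, BoundedFormula.realize_all,
    BoundedFormula.realize_iff, BoundedFormula.realize_rel₁, Term.realize_functions_apply₁] at h1
  exact h1 x

theorem star_dvd {f g : ℕ+ → ℕ+} {C : Set ℕ+} (h : ∀ n ∈ C, f n ∣ g n) {x : S}
    (hx : x ∈ star S C) : StarDvd (starFun f x) (starFun g x) := by
  classical
  choose! q hq using h
  have h1 := transfer e (∀' (((relSym C).boundedFormula₁ (&0)) ⟹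
      (((funSym g).apply₁ (&0)) =' (mulSym.apply₂ ((funSym f).apply₁ (&0))
        ((funSym q).apply₁ (&0)))))) (by
    simp only [Sentence.Realize, Formula.Realize, BoundedFormula.realize_all,
      BoundedFormula.realize_imp, BoundedFormula.realize_rel₁, BoundedFormula.realize_bdEqual]
    intro a ha
    exact hq a ha)
  simp only [Sentence.Realize, Formula.Realize, BoundedFormula.realize_all,
    BoundedFormula.realize_imp, BoundedFormula.realize_rel₁, BoundedFormula.realize_bdEqual,
    Term.realize_functions_apply₁, Term.realize_functions_apply₂] at h1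
  exact ⟨starFun q x, h1 x hx⟩

end

/-- a nonprincipal ultrafilter on `ℕ+` -/
noncomputable def hyp : Ultrafilter ℕ+ := hyperfilter ℕ+

theorem hyp_le : (hyp : Filter ℕ+) ≤ cofinite := hyperfilter_le_cofinite

theorem eventually_gt (n : ℕ+) : ∀ᶠ m in (hyp : Filter ℕ+), n < m := by
  refine hyp_le ?_
  have h1 : {m : ℕ+ | n < m}ᶜ = Set.Iic n := by
    ext m
    simp
  rw [mem_cofinite, h1]
  exact Set.finite_Iic n

end Pool.Agent.R583.NS
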