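import Mathlib
import Pool.Agent.R583.NSExt

/-!
# Ultrapowers of the positive integers as nonstandard extensions
-/

set_option autoImplicit false

namespace Pool.Agent.R583.NS

open FirstOrder FirstOrder.Language Filter

/-- the ultrapower of `ℕ+` modulo `D` -/
abbrev UPow {I : Type} (D : Ultrafilter I) : Type := (D : Filter I).Product (fun _ => ℕ+)

section

variable {I : Type} (D : Ultrafilter I)

instance : fullLang.Structure (UPow D) :=
  inferInstanceAs (fullLang.Structure ((D : Filter I).Product (fun _ => ℕ+)))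

/-- the class of a function -/
def cls (f : I → ℕ+) : UPow D := ((f : ∀ _ : I, ℕ+) : (D : Filter I).Product (fun _ => ℕ+))

theorem cls_surj (x : UPow D) : ∃ f, cls D f = x := Quotient.exists_rep x

theorem cls_eq {f g : I → ℕ+} : cls D f = cls D g ↔ ∀ᶠ i in (D : Filter I), f i = g i :=
  Quotient.eq''

/-- the diagonal embedding -/
def diag : ℕ+ ↪ₑ[fullLang] UPow D where
  toFun n := cls D fun _ => n
  map_formula' := by
    intro n φ x
    have h1 := Ultraproduct.realize_formula_cast (L := fullLang) (u := D) (M := fun _ : I => ℕ+) φ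
      (fun i _ => x i)
    refine (Iff.trans h1 ?_)
    exact ⟨fun h => (h.exists).choose_spec, fun h => Eventually.of_forall fun _ => h⟩

theorem mem_star {A : Set ℕ+} {f : I → ℕ+} :
    cls D f ∈ star (UPow D) A ↔ ∀ᶠ i in (D : Filter I), f i ∈ A := by
  have h1 := Ultraproduct.realize_formula_cast (L := fullLang) (u := D) (M := fun _ : I => ℕ+)
    ((relSym A).formula₁ (Term.var (0 : Fin 1))) (fun _ => f)
  simp only [Formula.realize_rel₁] at h1
  exact h1

theorem starMul_cls {f g : I → ℕ+} :
    starMul (cls D f) (cls D g) = cls D fun i => f i * g i := by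
  have h1 := Ultraproduct.funMap_cast (L := fullLang) (u := D) (M := fun _ : I => ℕ+) mulSym
    (fun j : Fin 2 => (![f, g] j : ∀ _ : I, ℕ+))
  have h2 : (fun j : Fin 2 => (((![f, g] j : ∀ _ : I, ℕ+)) :
      (D : Filter I).Product (fun _ => ℕ+))) = ![cls D f, cls D g] := by
    funext j
    fin_cases j <;> rfl
  rw [h2] at h1
  exact h1

theorem starDvd_cls {f g : I → ℕ+} :
    StarDvd (cls D f) (cls D g) ↔ ∀ᶠ i in (D : Filter I), f i ∣ g i := by
  constructor
  · rintro ⟨z, hz⟩
    obtain ⟨h, rfl⟩ := cls_surj D z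
    rw [starMul_cls, cls_eq] at hz
    filter_upwards [hz] with i hi
    exact ⟨h i, hi⟩
  · intro h
    classical
    refine ⟨cls D fun i => if hi : f i ∣ g i then hi.choose else 1, ?_⟩
    rw [starMul_cls, cls_eq]
    filter_upwards [h] with i hi
    rw [dif_pos hi]
    exact hi.choose_spec

end

/-- the index set of the enlargement -/
abbrev J : Type := Ultrafilter ℕ+ → ℕ+

/-- an ultrafilter which projects onto all ultrafilters on `ℕ+` -/
noncomputable def EJ : Ultrafilter J :=
  Ultrafilter.of (Filter.pi fun V : Ultrafilter ℕ+ => (V : Filter ℕ+))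

theorem EJ_proj (V : Ultrafilter ℕ+) {A : Set ℕ+} (hA : A ∈ V) :
    ∀ᶠ j in (EJ : Filter J), j V ∈ A := by
  have h1 : (EJ : Filter J) ≤ Filter.pi fun V : Ultrafilter ℕ+ => (V : Filter ℕ+) :=
    Ultrafilter.of_le _
  have h2 : Tendsto (fun j : J => j V) (EJ : Filter J) (V : Filter ℕ+) :=
    (tendsto_eval_pi (fun V : Ultrafilter ℕ+ => (V : Filter ℕ+)) V).mono_left h1
  exact h2 hA

/-- `S` is an enlargement: for every family of subsets of `ℕ` with the finite intersection
property the sets `*A` have a common point. -/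
def IsEnlargement (S : Type) [fullLang.Structure S] : Prop :=
  ∀ 𝒜 : Set (Set ℕ+), (∀ T : Finset (Set ℕ+), (T : Set (Set ℕ+)) ⊆ 𝒜 →
    (⋂ A ∈ T, A).Nonempty) → ∃ x : S, ∀ A ∈ 𝒜, x ∈ star S A

theorem isEnlargement_of_monad {S : Type} [fullLang.Structure S]
    (h : ∀ F : Ultrafilter ℕ+, (monad S F).Nonempty) : IsEnlargement S := by
  intro 𝒜 h𝒜
  have h1 : NeBot (Filter.generate 𝒜) := by
    rw [Filter.generate_neBot_iff]
    intro t ht htf
    have h2 := h𝒜 htf.toFinset (by simpa using ht)
    simpa [Set.sInter_eq_biInter] using h2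
  obtain ⟨x, hx⟩ := h (Ultrafilter.of (Filter.generate 𝒜))
  refine ⟨x, fun A hA => hx A ?_⟩
  exact Ultrafilter.of_le _ (Filter.mem_generate_of_mem hA)

end Pool.Agent.R583.NS
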