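import Mathlib
import Pool.Agent.R583.DDefs
set_option autoImplicit false
set_option linter.unusedSectionVars false

/-!
# Countable approximations to a square sequence
-/

namespace Pool.Agent.R583.O

open Cardinal

section

variable {X : Type} [LinearOrder X]

/-- limit points of the well-ordered set `X` -/
def LimPt (a : X) : Prop := (∃ b, b < a) ∧ ∀ b < a, ∃ c, b < c ∧ c < a

/-- `y` is unbounded in `γ` -/
def Unb (y : Set X) (γ : X) : Prop := ∀ b < γ, ∃ x ∈ y, b < x ∧ x < γ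

/-- `b` is a limit of points of `y` -/
def Acc (y : Set X) (b : X) : Prop := (∃ x, x < b) ∧ Unb y b

/-- `γ` has cofinality `ω` -/
def CofOmega (γ : X) : Prop := ∃ f : ℕ → X, (∀ n, f n < γ) ∧ ∀ b < γ, ∃ n, b < f n

/-- `t` end-extends `s` -/
def EndExt (s t : Set X) : Prop := s ⊆ t ∧ ∀ x ∈ t, x ∉ s → ∀ y ∈ s, y < x

theorem EndExt.refl (s : Set X) : EndExt s s := ⟨subset_rfl, fun _ hx hx' => absurd hx hx'⟩

theorem EndExt.trans {s t r : Set X} (h : EndExt s t) (h' : EndExt t r) : EndExt s r := by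
  refine ⟨h.1.trans h'.1, fun x hx hxs y hy => ?_⟩
  by_cases hxt : x ∈ t
  · exact h.2 x hxt hxs y hy
  · exact h'.2 x hx hxt y (h.1 hy)

theorem EndExt.mem {s t : Set X} (h : EndExt s t) {x y : X} (hx : x ∈ t) (hy : y ∈ s)
    (hxy : x ≤ y) : x ∈ s := by
  by_contra hxs
  exact absurd (h.2 x hx hxs y hy) (not_lt.2 hxy)

/-- countable approximations to a square sequence -/
structure SqOk (u : Set X) (c : X → Set X) : Prop where
  cu : u.Countable
  lim : ∀ a ∈ u, LimPt a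
  cc : ∀ a ∈ u, (c a).Countable
  below : ∀ a ∈ u, ∀ x ∈ c a, x < a
  coh : ∀ a ∈ u, ∀ b < a, Acc (c a) b → b ∈ c a ∧ b ∈ u ∧ ∀ x, x ∈ c b ↔ x ∈ c a ∧ x < b
  full : ∀ a ∈ u, CofOmega a → Unb (c a) a

/-- the sets at points of uncountable cofinality have maximal elements which are large -/
def Cap (u : Set X) (c : X → Set X) : Prop :=
  ∀ a ∈ u, ¬ CofOmega a → ∃ m ∈ c a, (∀ x ∈ c a, x ≤ m) ∧ ∀ b ∈ u, b < a → b ≤ m

theorem CofOmega.limPt {a : X} (h : CofOmega a) : LimPt a := by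
  obtain ⟨f, hf1, hf2⟩ := h
  exact ⟨⟨f 0, hf1 0⟩, fun b hb => by
    obtain ⟨n, hn⟩ := hf2 b hb
    exact ⟨f n, hn, hf1 n⟩⟩

theorem cofOmega_of_unb {y : Set X} (hy : y.Countable) {b : X} (h : Acc y b) : CofOmega b := by
  obtain ⟨⟨x0, hx0⟩, hu⟩ := h
  obtain ⟨x1, hx1, -, hx1b⟩ := hu x0 hx0
  have hne : (y ∩ Set.Iio b).Nonempty := ⟨x1, hx1, hx1b⟩
  obtain ⟨f, hf⟩ := (hy.mono (Set.inter_subset_left (t := Set.Iio b))).exists_eq_range hne
  refine ⟨f, fun n => ?_, fun z hz => ?_⟩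
  · have : f n ∈ y ∩ Set.Iio b := by rw [hf]; exact ⟨n, rfl⟩
    exact this.2
  · obtain ⟨x, hx, hzx, hxb⟩ := hu z hz
    have : x ∈ y ∩ Set.Iio b := ⟨hx, hxb⟩
    rw [hf] at this
    obtain ⟨n, rfl⟩ := this
    exact ⟨n, hzx⟩

theorem exists_bound {a : X} (hl : LimPt a) (hc : ¬ CofOmega a) {S : Set X} (hS : S.Countable)
    (hSa : ∀ x ∈ S, x < a) : ∃ ξ < a, ∀ x ∈ S, x < ξ := by
  rcases S.eq_empty_or_nonempty with rfl | hne
  · obtain ⟨b, hb⟩ := hl.1
    exact ⟨b, hb, fun x hx => hx.elim⟩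
  · obtain ⟨f, rfl⟩ := hS.exists_eq_range hne
    by_contra hcon
    push Not at hcon
    apply hc
    refine ⟨f, fun n => hSa _ ⟨n, rfl⟩, fun b hb => ?_⟩
    obtain ⟨b', hb', hb'a⟩ := hl.2 b hb
    obtain ⟨_, ⟨n, rfl⟩, hn⟩ := hcon b' hb'a
    exact ⟨n, hb'.trans_le hn⟩

theorem acc_congr {y y' : Set X} {b : X} (h : ∀ x < b, (x ∈ y ↔ x ∈ y')) : Acc y b ↔ Acc y' b := by
  constructor
  · rintro ⟨h1, h2⟩
    refine ⟨h1, fun z hz => ?_⟩
    obtain ⟨x, hx, h3, h4⟩ := h2 z hz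
    exact ⟨x, (h x h4).1 hx, h3, h4⟩
  · rintro ⟨h1, h2⟩
    refine ⟨h1, fun z hz => ?_⟩
    obtain ⟨x, hx, h3, h4⟩ := h2 z hz
    exact ⟨x, (h x h4).2 hx, h3, h4⟩

open Classical in
/-- adding top points -/
noncomputable def capC (u : Set X) (c : X → Set X) (ξ : X → X) : X → Set X :=
  fun a => if a ∈ u ∧ ¬ CofOmega a then insert (ξ a) (c a) else c a

theorem capC_pos {u : Set X} {c : X → Set X} {ξ : X → X} {a : X} (h : a ∈ u) (h' : ¬ CofOmega a) :
    capC u c ξ a = insert (ξ a) (c a) := if_pos ⟨h, h'⟩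

theorem capC_neg {u : Set X} {c : X → Set X} {ξ : X → X} {a : X} (h : ¬ (a ∈ u ∧ ¬ CofOmega a)) :
    capC u c ξ a = c a := if_neg h

theorem cap_spec {u : Set X} {c : X → Set X} (h : SqOk u c) {ξ : X → X}
    (hξ : ∀ a ∈ u, ¬ CofOmega a → ξ a < a ∧ (∀ x ∈ c a, x < ξ a) ∧ ∀ b ∈ u, b < a → b ≤ ξ a) :
    SqOk u (capC u c ξ) ∧ Cap u (capC u c ξ) ∧ ∀ a, a ∈ u → EndExt (c a) (capC u c ξ a) := by
  have hacc : ∀ a ∈ u, ∀ b < a, Acc (capC u c ξ a) b → Acc (c a) b := by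
    intro a ha b hb hac
    by_cases hc : CofOmega a
    · rwa [capC_neg fun h => h.2 hc] at hac
    · rw [capC_pos ha hc] at hac
      obtain ⟨h1, h2, h3⟩ := hξ a ha hc
      refine (acc_congr fun x hx => ?_).1 hac
      constructor
      · rintro (rfl | hx')
        · exfalso
          obtain ⟨z, hz, hz1, hz2⟩ := hac.2 _ hx
          rcases hz with rfl | hz
          · exact lt_irrefl _ hz1
          · exact absurd (h2 z hz) (not_lt.2 hz1.le)
        · exact hx'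
      · exact fun hx' => Or.inr hx'
  refine ⟨⟨h.cu, h.lim, fun a ha => ?_, fun a ha x hx => ?_, fun a ha b hb hac => ?_,
    fun a ha hc => ?_⟩, fun a ha hc => ?_, fun a ha => ?_⟩
  · by_cases hc : CofOmega a
    · rw [capC_neg fun h => h.2 hc]
      exact h.cc a ha
    · rw [capC_pos ha hc]
      exact (h.cc a ha).insert _
  · by_cases hc : CofOmega a
    · rw [capC_neg fun h => h.2 hc] at hx
      exact h.below a ha x hx
    · rw [capC_pos ha hc] at hx
      rcases hx with rfl | hx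
      · exact (hξ a ha hc).1
      · exact h.below a ha x hx
  · have h1 := hacc a ha b hb hac
    obtain ⟨h2, h3, h4⟩ := h.coh a ha b hb h1
    have hcb : CofOmega b := cofOmega_of_unb (h.cc a ha) h1
    have h5 : capC u c ξ b = c b := capC_neg fun h => h.2 hcb
    refine ⟨?_, h3, fun x => ?_⟩
    · by_cases hc : CofOmega a
      · rwa [capC_neg fun h => h.2 hc]
      · rw [capC_pos ha hc]
        exact Or.inr h2
    · rw [h5, h4]
      by_cases hc : CofOmega a
      · rw [capC_neg fun h => h.2 hc]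
      · rw [capC_pos ha hc]
        constructor
        · exact fun h => ⟨Or.inr h.1, h.2⟩
        · rintro ⟨rfl | hx, hxb⟩
          · exact absurd ((hξ a ha hc).2.1 b h2) (not_lt.2 hxb.le)
          · exact ⟨hx, hxb⟩
  · rw [capC_neg fun h => h.2 hc]
    exact h.full a ha hc
  · rw [capC_pos ha hc]
    exact ⟨ξ a, Or.inl rfl, fun x hx => hx.elim (fun h => h.le) fun hx => ((hξ a ha hc).2.1 x hx).le,
      (hξ a ha hc).2.2⟩
  · by_cases hc : CofOmega a
    · rw [capC_neg fun h => h.2 hc]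
      exact EndExt.refl _
    · rw [capC_pos ha hc]
      refine ⟨Set.subset_insert _ _, fun x hx hxs y hy => ?_⟩
      rcases hx with rfl | hx
      · exact (hξ a ha hc).2.1 y hy
      · exact absurd hx hxs

/-- capping with bounds -/
theorem exists_cap {u : Set X} {c : X → Set X} (h : SqOk u c) (B : X → X) :
    ∃ c', SqOk u c' ∧ Cap u c' ∧ (∀ a ∈ u, EndExt (c a) (c' a)) ∧
      ∀ a ∈ u, ¬ CofOmega a → B a < a → ∃ x ∈ c' a, B a < x := by
  classical
  have hex : ∀ a, ∃ ξ, a ∈ u → ¬ CofOmega a → ξ < a ∧ (∀ x ∈ c a, x < ξ) ∧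
      (∀ b ∈ u, b < a → b ≤ ξ) ∧ (B a < a → B a < ξ) := by
    intro a
    by_cases ha : a ∈ u
    · by_cases hc : CofOmega a
      · exact ⟨a, fun _ h => absurd hc h⟩
      · have hcount : ((c a ∪ u ∪ {B a}) ∩ Set.Iio a).Countable :=
          (((h.cc a ha).union h.cu).union (Set.countable_singleton _)).mono Set.inter_subset_left
        obtain ⟨ξ, hξ, hξ2⟩ := exists_bound (h.lim a ha) hc hcount fun x hx => hx.2
        exact ⟨ξ, fun _ _ => ⟨hξ, fun x hx => hξ2 x ⟨Or.inl (Or.inl hx), h.below a ha x hx⟩,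
          fun b hb hba => (hξ2 b ⟨Or.inl (Or.inr hb), hba⟩).le,
          fun hB => hξ2 _ ⟨Or.inr rfl, hB⟩⟩⟩
    · exact ⟨a, fun h => absurd h ha⟩
  choose ξ hξ using hex
  obtain ⟨h1, h2, h3⟩ := cap_spec h (ξ := ξ) fun a ha hc =>
    ⟨(hξ a ha hc).1, (hξ a ha hc).2.1, (hξ a ha hc).2.2.1⟩
  refine ⟨_, h1, h2, h3, fun a ha hc hB => ⟨ξ a, ?_, (hξ a ha hc).2.2.2 hB⟩⟩
  rw [capC_pos ha hc]
  exact Or.inl rfl

/-- adding a point with a given set -/
theorem add_spec {u : Set X} {c : X → Set X} (h : SqOk u c) {α : X} (hα : α ∉ u) {Z : Set X}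
    (hl : LimPt α) (hZc : Z.Countable) (hZ : ∀ x ∈ Z, x < α)
    (hcoh : ∀ b < α, Acc Z b → b ∈ Z ∧ b ∈ u ∧ ∀ x, x ∈ c b ↔ x ∈ Z ∧ x < b)
    (hfull : CofOmega α → Unb Z α) :
    ∃ c', SqOk (insert α u) c' ∧ c' α = Z ∧ ∀ a ∈ u, c' a = c a := by
  classical
  have h1 : Function.update c α Z α = Z := Function.update_self _ _ _
  have h2 : ∀ a ∈ u, Function.update c α Z a = c a := fun a ha =>
    Function.update_of_ne (fun h' : a = α => hα (h' ▸ ha)) _ _
  refine ⟨Function.update c α Z, ⟨h.cu.insert _, ?_, ?_, ?_, ?_, ?_⟩, h1, h2⟩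
  · rintro a (rfl | ha)
    · exact hl
    · exact h.lim a ha
  · rintro a (rfl | ha)
    · rwa [h1]
    · rw [h2 a ha]
      exact h.cc a ha
  · rintro a (rfl | ha) x hx
    · rw [h1] at hx
      exact hZ x hx
    · rw [h2 a ha] at hx
      exact h.below a ha x hx
  · rintro a (rfl | ha) b hb hac
    · rw [h1] at hac ⊢
      obtain ⟨h3, h4, h5⟩ := hcoh b hb hac
      exact ⟨h3, Or.inr h4, fun x => by rw [h2 b h4]; exact h5 x⟩
    · rw [h2 a ha] at hac ⊢
      obtain ⟨h3, h4, h5⟩ := h.coh a ha b hb hac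
      exact ⟨h3, Or.inr h4, fun x => by rw [h2 b h4]; exact h5 x⟩
  · rintro a (rfl | ha) hc
    · rw [h1]
      exact hfull hc
    · rw [h2 a ha]
      exact h.full a ha hc

/-- union of approximations which agree on the common part -/
theorem union_spec {u u' : Set X} {c c' : X → Set X} (h : SqOk u c) (h' : SqOk u' c')
    (hag : ∀ a ∈ u, a ∈ u' → c a = c' a) :
    ∃ c'', SqOk (u ∪ u') c'' ∧ (∀ a ∈ u, c'' a = c a) ∧ ∀ a ∈ u', c'' a = c' a := by
  classical
  have h1 : ∀ a ∈ u, (if a ∈ u then c a else c' a) = c a := fun a ha => if_pos ha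
  have h2 : ∀ a ∈ u', (if a ∈ u then c a else c' a) = c' a := by
    intro a ha
    by_cases hau : a ∈ u
    · rw [if_pos hau, hag a hau ha]
    · rw [if_neg hau]
  refine ⟨fun a => if a ∈ u then c a else c' a, ⟨h.cu.union h'.cu, ?_, ?_, ?_, ?_, ?_⟩, h1, h2⟩
  · rintro a (ha | ha)
    · exact h.lim a ha
    · exact h'.lim a ha
  · rintro a (ha | ha)
    · simp only [h1 a ha]
      exact h.cc a ha
    · simp only [h2 a ha]
      exact h'.cc a ha
  · rintro a (ha | ha) x hx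
    · simp only [h1 a ha] at hx
      exact h.below a ha x hx
    · simp only [h2 a ha] at hx
      exact h'.below a ha x hx
  · rintro a (ha | ha) b hb hac
    · simp only [h1 a ha] at hac ⊢
      obtain ⟨h3, h4, h5⟩ := h.coh a ha b hb hac
      exact ⟨h3, Or.inl h4, fun x => by rw [h1 b h4]; exact h5 x⟩
    · simp only [h2 a ha] at hac ⊢
      obtain ⟨h3, h4, h5⟩ := h'.coh a ha b hb hac
      exact ⟨h3, Or.inr h4, fun x => by rw [h2 b h4]; exact h5 x⟩
  · rintro a (ha | ha) hc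
    · simp only [h1 a ha]
      exact h.full a ha hc
    · simp only [h2 a ha]
      exact h'.full a ha hc

end

end Pool.Agent.R583.O
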