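import Mathlib
import Pool.Agent.R583.OCond
set_option autoImplicit false
set_option linter.unusedSectionVars false

/-!
# Limits of countable approximations, and the forcing notion
-/

namespace Pool.Agent.R583.O

open Cardinal Pool.Agent.Helper669.K

/-- raw conditions -/
structure PC (X Λ : Type) where
  /-- the domain -/
  u : Set X
  /-- the approximation of the square sequence -/
  c : X → Set X
  /-- countable partial functions -/
  g : X × Set X → Λ → Option X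

variable {X Λ : Type} [LinearOrder X]

/-- the partial function is countable with bounded values -/
def GOk (g : X × Set X → Λ → Option X) : Prop :=
  {k : (X × Set X) × Λ | g k.1 k.2 ≠ none}.Countable ∧ ∀ j i v, g j i = some v → v ≤ j.1

/-- the conditions -/
def Ok (p : PC X Λ) : Prop := SqOk p.u p.c ∧ Cap p.u p.c ∧ GOk p.g

instance instPreorderPC : Preorder (PC X Λ) where
  le q p := p.u ⊆ q.u ∧ (∀ a ∈ p.u, EndExt (p.c a) (q.c a)) ∧
    ∀ j i v, p.g j i = some v → q.g j i = some v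
  le_refl p := ⟨subset_rfl, fun _ _ => EndExt.refl _, fun _ _ _ h => h⟩
  le_trans r q p h h' := ⟨h'.1.trans h.1, fun a ha => (h'.2.1 a ha).trans (h.2.1 a (h'.1 ha)),
    fun j i v hv => h.2.2 j i v (h'.2.2 j i v hv)⟩

theorem le_def {q p : PC X Λ} : q ≤ p ↔ p.u ⊆ q.u ∧ (∀ a ∈ p.u, EndExt (p.c a) (q.c a)) ∧
    ∀ j i v, p.g j i = some v → q.g j i = some v := Iff.rfl

/-- the forcing notion -/
abbrev PO (X Λ : Type) [LinearOrder X] : Type := {p : PC X Λ // Ok p}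

/-- complete sets do not change -/
theorem c_eq {p q : PO X Λ} (h : q ≤ p) {a : X} (ha : a ∈ p.1.u) (hc : CofOmega a) :
    q.1.c a = p.1.c a := by
  refine Set.Subset.antisymm (fun x hx => ?_) (h.2.1 a ha).1
  obtain ⟨y, hy, hxy, -⟩ := p.2.1.full a ha hc x (q.2.1.below a (h.1 ha) x hx)
  exact (h.2.1 a ha).mem hx hy hxy.le

section lim

variable (D : Set (PO X Λ))

/-- the union at `a` -/
def CU (a : X) : Set X := {x | ∃ p ∈ D, a ∈ p.1.u ∧ x ∈ p.1.c a}

/-- the union of the domains -/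
def UU : Set X := {a | ∃ p ∈ D, a ∈ p.1.u}

/-- the new points -/
def NU : Set X := {b | ∃ a ∈ UU D, b < a ∧ IsLUB (CU D a) b ∧ b ∉ CU D a}

open Classical in
/-- the sets of the limit condition -/
noncomputable def LC (x : X) : Set X :=
  if x ∈ UU D then CU D x ∪ {b | b < x ∧ IsLUB (CU D x) b}
  else {y | ∃ a ∈ UU D, x < a ∧ IsLUB (CU D a) x ∧ x ∉ CU D a ∧ y ∈ CU D a}

open Classical in
/-- the partial function of the limit condition -/
noncomputable def LG (j : X × Set X) (i : Λ) : Option X :=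
  if h : ∃ v, ∃ p ∈ D, p.1.g j i = some v then some h.choose else none

/-- the limit condition -/
noncomputable def limC : PC X Λ := ⟨UU D ∪ NU D, LC D, LG D⟩

variable {D}

theorem cu_mem (hdir : ∀ a ∈ D, ∀ b ∈ D, ∃ c ∈ D, c ≤ a ∧ c ≤ b) {p : PO X Λ} (hp : p ∈ D)
    {a : X} (ha : a ∈ p.1.u) {x y : X} (hx : x ∈ CU D a) (hy : y ∈ p.1.c a) (hxy : x ≤ y) :
    x ∈ p.1.c a := by
  obtain ⟨q, hq, haq, hxq⟩ := hx
  obtain ⟨r, hr, hrp, hrq⟩ := hdir p hp q hq
  exact (hrp.2.1 a ha).mem ((hrq.2.1 a haq).1 hxq) hy hxy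

theorem cu_endExt (hdir : ∀ a ∈ D, ∀ b ∈ D, ∃ c ∈ D, c ≤ a ∧ c ≤ b) {p : PO X Λ} (hp : p ∈ D)
    {a : X} (ha : a ∈ p.1.u) : EndExt (p.1.c a) (CU D a) := by
  refine ⟨fun x hx => ⟨p, hp, ha, hx⟩, fun x hx hxp y hy => ?_⟩
  by_contra hcon
  exact hxp (cu_mem hdir hp ha hx hy (not_lt.1 hcon))

theorem cu_countable (hD : D.Countable) (a : X) : (CU D a).Countable := by
  have h : CU D a ⊆ ⋃ p ∈ D, {x | a ∈ p.1.u ∧ x ∈ p.1.c a} := by
    rintro x ⟨p, hp, h1, h2⟩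
    simp only [Set.mem_iUnion]
    exact ⟨p, hp, h1, h2⟩
  refine (hD.biUnion fun p hp => ?_).mono h
  by_cases ha : a ∈ p.1.u
  · exact (p.2.1.cc a ha).mono fun x hx => hx.2
  · have : {x | a ∈ p.1.u ∧ x ∈ p.1.c a} = ∅ := by
      ext x
      simp [ha]
    rw [this]
    exact Set.countable_empty

theorem uu_countable (hD : D.Countable) : (UU D).Countable := by
  have h : UU D ⊆ ⋃ p ∈ D, p.1.u := by
    rintro x ⟨p, hp, h1⟩
    simp only [Set.mem_iUnion]
    exact ⟨p, hp, h1⟩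
  exact (hD.biUnion fun p _ => p.2.1.cu).mono h

theorem nu_countable (hD : D.Countable) : (NU D).Countable := by
  classical
  have h : ∀ b : NU D, ∃ a : UU D, IsLUB (CU D a.1) b.1 := by
    rintro ⟨b, a, ha, -, hl, -⟩
    exact ⟨⟨a, ha⟩, hl⟩
  choose f hf using h
  have hinj : Function.Injective f := by
    intro b b' hbb
    have h1 := hf b
    rw [hbb] at h1
    exact Subtype.ext (h1.unique (hf b'))
  have := (uu_countable hD).to_subtype
  exact hinj.countable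

/-- for a complete point the union is cofinal -/
theorem cu_full {a : X} (ha : a ∈ UU D) (hc : CofOmega a) : Unb (CU D a) a := by
  obtain ⟨p, hp, hap⟩ := ha
  intro b hb
  obtain ⟨x, hx, h1, h2⟩ := p.2.1.full a hap hc b hb
  exact ⟨x, ⟨p, hp, hap, hx⟩, h1, h2⟩

theorem cu_below {a x : X} (hx : x ∈ CU D a) : x < a := by
  obtain ⟨p, hp, ha, hx⟩ := hx
  exact p.2.1.below a ha x hx

theorem not_cof_of_lub {a b : X} (ha : a ∈ UU D) (hb : b < a) (hl : IsLUB (CU D a) b) :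
    ¬ CofOmega a := by
  intro hc
  obtain ⟨x, hx, h1, -⟩ := cu_full ha hc b hb
  exact absurd (hl.1 hx) (not_le.2 h1)

/-- points of the domain below `a` are at most the supremum -/
theorem le_lub (hdir : ∀ a ∈ D, ∀ b ∈ D, ∃ c ∈ D, c ≤ a ∧ c ≤ b) {a b z : X} (ha : a ∈ UU D)
    (hb : b < a) (hl : IsLUB (CU D a) b) (hz : z ∈ UU D) (hza : z < a) :
    ∃ m ∈ CU D a, z ≤ m ∧ m ≤ b := by
  obtain ⟨p, hp, hap⟩ := ha
  obtain ⟨q, hq, hzq⟩ := hz
  obtain ⟨r, hr, hrp, hrq⟩ := hdir p hp q hq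
  obtain ⟨m, hm, -, hm2⟩ := r.2.2.1 a (hrp.1 hap)
    (not_cof_of_lub ⟨p, hp, hap⟩ hb hl)
  exact ⟨m, ⟨r, hr, hrp.1 hap, hm⟩, hm2 z (hrq.1 hzq) hza, hl.1 ⟨r, hr, hrp.1 hap, hm⟩⟩

theorem nu_not_uu (hdir : ∀ a ∈ D, ∀ b ∈ D, ∃ c ∈ D, c ≤ a ∧ c ≤ b) {a b : X} (ha : a ∈ UU D)
    (hb : b < a) (hl : IsLUB (CU D a) b) (hbC : b ∉ CU D a) : b ∉ UU D := by
  intro hbU
  obtain ⟨m, hm, h1, h2⟩ := le_lub hdir ha hb hl hbU hb
  exact hbC (le_antisymm h1 h2 ▸ hm)

theorem nu_unique (hdir : ∀ a ∈ D, ∀ b ∈ D, ∃ c ∈ D, c ≤ a ∧ c ≤ b) {a a' b : X} (ha : a ∈ UU D)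
    (hb : b < a) (hl : IsLUB (CU D a) b) (ha' : a' ∈ UU D) (hb' : b < a')
    (hl' : IsLUB (CU D a') b) : a = a' := by
  rcases lt_trichotomy a a' with h | h | h
  · obtain ⟨m, -, h1, h2⟩ := le_lub hdir ha' hb' hl' ha h
    exact absurd (h1.trans h2) (not_le.2 hb)
  · exact h
  · obtain ⟨m, -, h1, h2⟩ := le_lub hdir ha hb hl ha' h
    exact absurd (h1.trans h2) (not_le.2 hb')

theorem lc_pos {a : X} (ha : a ∈ UU D) : LC D a = CU D a ∪ {b | b < a ∧ IsLUB (CU D a) b} :=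
  if_pos ha

theorem lc_new (hdir : ∀ a ∈ D, ∀ b ∈ D, ∃ c ∈ D, c ≤ a ∧ c ≤ b) {a b : X} (ha : a ∈ UU D)
    (hb : b < a) (hl : IsLUB (CU D a) b) (hbC : b ∉ CU D a) : LC D b = CU D a := by
  have h1 : LC D b = {y | ∃ a ∈ UU D, b < a ∧ IsLUB (CU D a) b ∧ b ∉ CU D a ∧ y ∈ CU D a} :=
    if_neg (nu_not_uu hdir ha hb hl hbC)
  rw [h1]
  ext y
  constructor
  · rintro ⟨a', ha', hb', hl', -, hy⟩
    rwa [nu_unique hdir ha hb hl ha' hb' hl']
  · exact fun hy => ⟨a, ha, hb, hl, hbC, hy⟩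

/-- limit points of the union below a member of the union -/
theorem cu_acc (hdir : ∀ a ∈ D, ∀ b ∈ D, ∃ c ∈ D, c ≤ a ∧ c ≤ b) {a b y : X}
    (hy : y ∈ CU D a) (hby : b ≤ y) (hac : Acc (CU D a) b) :
    b ∈ CU D a ∧ b ∈ UU D ∧ ∀ x, x ∈ LC D b ↔ x ∈ CU D a ∧ x < b := by
  obtain ⟨p, hp, ha, hyp⟩ := hy
  have hE := cu_endExt hdir hp ha
  have h1 : Acc (p.1.c a) b := by
    refine (acc_congr fun x hx => ?_).1 hac
    exact ⟨fun h => hE.mem h hyp (hx.le.trans hby), fun h => hE.1 h⟩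
  have hba : b < a := lt_of_le_of_lt hby (p.2.1.below a ha y hyp)
  obtain ⟨h2, h3, h4⟩ := p.2.1.coh a ha b hba h1
  have hcb : CofOmega b := cofOmega_of_unb (p.2.1.cc a ha) h1
  have hbU : b ∈ UU D := ⟨p, hp, h3⟩
  refine ⟨hE.1 h2, hbU, fun x => ?_⟩
  rw [lc_pos hbU]
  have h5 : CU D b = p.1.c b := by
    refine Set.Subset.antisymm (fun x hx => ?_) (fun x hx => ⟨p, hp, h3, hx⟩)
    obtain ⟨z, hz, h6, -⟩ := p.2.1.full b h3 hcb x (cu_below hx)
    exact cu_mem hdir hp h3 hx hz h6.le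
  constructor
  · rintro (hx | ⟨hx, hl⟩)
    · rw [h5, h4] at hx
      exact ⟨hE.1 hx.1, hx.2⟩
    · exact absurd hcb (not_cof_of_lub hbU hx hl)
  · rintro ⟨hx, hxb⟩
    left
    rw [h5, h4]
    exact ⟨hE.mem hx hyp (hxb.le.trans hby), hxb⟩

theorem exists_lub [WellFoundedLT X] (hD : D.Countable) {a : X} (ha : a ∈ UU D)
    (hc : ¬ CofOmega a) : ∃ b < a, IsLUB (CU D a) b := by
  have hl : LimPt a := by
    obtain ⟨p, hp, hap⟩ := ha
    exact p.2.1.lim a hap
  obtain ⟨ξ, hξ, hξ2⟩ := exists_bound hl hc (cu_countable hD a) fun x hx => cu_below hx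
  have hne : (upperBounds (CU D a)).Nonempty := ⟨ξ, fun x hx => (hξ2 x hx).le⟩
  refine ⟨(wellFounded_lt (α := X)).min _ hne, ?_, (wellFounded_lt (α := X)).min_mem _ hne,
    fun z hz => not_lt.1 ((wellFounded_lt (α := X)).not_lt_min _ hz)⟩
  refine lt_of_le_of_lt (not_lt.1 ((wellFounded_lt (α := X)).not_lt_min _ ?_)) hξ
  exact fun x hx => (hξ2 x hx).le

theorem lim_sqOk [WellFoundedLT X] (hD : D.Countable)
    (hdir : ∀ a ∈ D, ∀ b ∈ D, ∃ c ∈ D, c ≤ a ∧ c ≤ b) :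
    SqOk (UU D ∪ NU D) (LC D) ∧ Cap (UU D ∪ NU D) (LC D) := by
  -- facts about the two kinds of points
  have hcu_acc : ∀ a ∈ UU D, ∀ b < a, Acc (LC D a) b →
      Acc (CU D a) b ∧ ∃ y ∈ LC D a, b ≤ y ∧ (y ∈ CU D a ∨ IsLUB (CU D a) y) := by
    intro a ha b hb hac
    rw [lc_pos ha] at hac
    have h1 : Acc (CU D a) b := by
      refine ⟨hac.1, fun z hz => ?_⟩
      obtain ⟨x, hx, h1, h2⟩ := hac.2 z hz
      rcases hx with hx | ⟨hx, hl⟩
      · exact ⟨x, hx, h1, h2⟩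
      · obtain ⟨x', hx', h1', h2'⟩ := hac.2 x h2
        rcases hx' with hx' | ⟨hx', hl'⟩
        · exact absurd (hl.1 hx') (not_le.2 h1')
        · exact absurd (hl.unique hl') (ne_of_lt h1')
    refine ⟨h1, ?_⟩
    by_cases hcof : CofOmega a
    · obtain ⟨y, hy, h2, -⟩ := cu_full ha hcof b hb
      exact ⟨y, by rw [lc_pos ha]; exact Or.inl hy, h2.le, Or.inl hy⟩
    · obtain ⟨m, hm, hl⟩ := exists_lub hD ha hcof
      refine ⟨m, by rw [lc_pos ha]; exact Or.inr ⟨hm, hl⟩, ?_, Or.inr hl⟩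
      by_contra hcon
      obtain ⟨x, hx, h2, -⟩ := h1.2 m (not_le.1 hcon)
      exact absurd (hl.1 hx) (not_le.2 h2)
  refine ⟨⟨(uu_countable hD).union (nu_countable hD), ?_, ?_, ?_, ?_, ?_⟩, ?_⟩
  · rintro a (⟨p, hp, ha⟩ | ⟨a', ha', hlt, hl, hn⟩)
    · exact p.2.1.lim a ha
    · refine CofOmega.limPt (cofOmega_of_unb (cu_countable hD a') ⟨?_, ?_⟩)
      · obtain ⟨p, hp, hap⟩ := ha'
        have hac : ¬ CofOmega a' := not_cof_of_lub ⟨p, hp, hap⟩ hlt hl
        obtain ⟨m, hm, -, -⟩ := p.2.2.1 a' hap hac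
        refine ⟨m, lt_of_le_of_ne (hl.1 ⟨p, hp, hap, hm⟩) ?_⟩
        rintro rfl
        exact hn ⟨p, hp, hap, hm⟩
      · intro z hz
        by_contra hcon
        push Not at hcon
        refine absurd hz (not_lt.2 (hl.2 fun x hx => ?_))
        by_contra hzx
        have hxa : x ≤ a := hl.1 hx
        rcases eq_or_lt_of_le hxa with rfl | hlt'
        · exact hn hx
        · exact absurd hlt' (not_lt.2 (hcon x hx (not_le.1 hzx)))
  · rintro a (ha | ⟨a', ha', hlt, hl, hn⟩)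
    · rw [lc_pos ha]
      refine (cu_countable hD a).union (Set.Subsingleton.countable ?_)
      rintro x ⟨-, hx⟩ y ⟨-, hy⟩
      exact hx.unique hy
    · rw [lc_new hdir ha' hlt hl hn]
      exact cu_countable hD a'
  · rintro a (ha | ⟨a', ha', hlt, hl, hn⟩) x hx
    · rw [lc_pos ha] at hx
      rcases hx with hx | hx
      · exact cu_below hx
      · exact hx.1
    · rw [lc_new hdir ha' hlt hl hn] at hx
      refine lt_of_le_of_ne (hl.1 hx) ?_
      rintro rfl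
      exact hn hx
  · rintro a (ha | ⟨a', ha', hlt, hl, hn⟩) b hb hac
    · obtain ⟨h1, y, hy, hby, hy2⟩ := hcu_acc a ha b hb hac
      by_cases hex : ∃ z ∈ CU D a, b ≤ z
      · obtain ⟨z, hz, hbz⟩ := hex
        obtain ⟨h2, h3, h4⟩ := cu_acc hdir hz hbz h1
        refine ⟨by rw [lc_pos ha]; exact Or.inl h2, Or.inl h3, fun x => ?_⟩
        rw [h4, lc_pos ha]
        constructor
        · exact fun h => ⟨Or.inl h.1, h.2⟩
        · rintro ⟨hx | ⟨hx, hl⟩, hxb⟩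
          · exact ⟨hx, hxb⟩
          · exact absurd (hbz.trans (hl.1 hz)) (not_le.2 hxb)
      · push Not at hex
        have hyl : IsLUB (CU D a) y := by
          rcases hy2 with hy2 | hy2
          · exact absurd hby (not_le.2 (hex y hy2))
          · exact hy2
        have hyb : y = b := le_antisymm (hyl.2 fun z hz => (hex z hz).le) hby
        subst hyb
        have hn : y ∉ CU D a := fun h => absurd (hex y h) (lt_irrefl _)
        refine ⟨by rw [lc_pos ha]; exact Or.inr ⟨hb, hyl⟩, Or.inr ⟨a, ha, hb, hyl, hn⟩,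
          fun x => ?_⟩
        rw [lc_new hdir ha hb hyl hn, lc_pos ha]
        constructor
        · exact fun h => ⟨Or.inl h, hex x h⟩
        · rintro ⟨hx | ⟨hx, hl⟩, hxb⟩
          · exact hx
          · exact absurd (hl.unique hyl) (ne_of_lt hxb)
    · rw [lc_new hdir ha' hlt hl hn] at hac ⊢
      obtain ⟨z, hz, hbz⟩ : ∃ z ∈ CU D a', b ≤ z := by
        by_contra hcon
        push Not at hcon
        exact absurd hb (not_lt.2 (hl.2 fun z hz => (hcon z hz).le))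
      obtain ⟨h2, h3, h4⟩ := cu_acc hdir hz hbz hac
      exact ⟨h2, Or.inl h3, h4⟩
  · rintro a (ha | ⟨a', ha', hlt, hl, hn⟩) hc
    · rw [lc_pos ha]
      intro z hz
      obtain ⟨x, hx, h1, h2⟩ := cu_full ha hc z hz
      exact ⟨x, Or.inl hx, h1, h2⟩
    · rw [lc_new hdir ha' hlt hl hn]
      intro z hz
      by_contra hcon
      push Not at hcon
      refine absurd hz (not_lt.2 (hl.2 fun x hx => ?_))
      by_contra hzx
      have hxa : x ≤ a := hl.1 hx
      rcases eq_or_lt_of_le hxa with rfl | hlt'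
      · exact hn hx
      · exact absurd hlt' (not_lt.2 (hcon x hx (not_le.1 hzx)))
  · rintro a (ha | ⟨a', ha', hlt, hl, hn⟩) hc
    · obtain ⟨m, hm, hml⟩ := exists_lub hD ha hc
      refine ⟨m, by rw [lc_pos ha]; exact Or.inr ⟨hm, hml⟩, ?_, ?_⟩
      · intro x hx
        rw [lc_pos ha] at hx
        rcases hx with hx | ⟨-, hx⟩
        · exact hml.1 hx
        · exact (hx.unique hml).le
      · rintro b (hb | ⟨a'', ha'', hlt'', hl'', hn''⟩) hba
        · obtain ⟨y, -, h1, h2⟩ := le_lub hdir ha hm hml hb hba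
          exact h1.trans h2
        · rcases lt_trichotomy a'' a with h | h | h
          · obtain ⟨y, -, h1, h2⟩ := le_lub hdir ha hm hml ha'' h
            exact (hlt''.le.trans h1).trans h2
          · subst h
            exact (hl''.unique hml).le
          · obtain ⟨y, -, h1, h2⟩ := le_lub hdir ha'' hlt'' hl'' ha h
            exact absurd hba (not_lt.2 (h1.trans h2))
    · exfalso
      apply hc
      refine cofOmega_of_unb (cu_countable hD a') ⟨?_, ?_⟩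
      · obtain ⟨p, hp, hap⟩ := ha'
        have hac : ¬ CofOmega a' := not_cof_of_lub ⟨p, hp, hap⟩ hlt hl
        obtain ⟨m, hm, -, -⟩ := p.2.2.1 a' hap hac
        refine ⟨m, lt_of_le_of_ne (hl.1 ⟨p, hp, hap, hm⟩) ?_⟩
        rintro rfl
        exact hn ⟨p, hp, hap, hm⟩
      · intro z hz
        by_contra hcon
        push Not at hcon
        refine absurd hz (not_lt.2 (hl.2 fun x hx => ?_))
        by_contra hzx
        have hxa : x ≤ a := hl.1 hx
        rcases eq_or_lt_of_le hxa with rfl | hlt'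
        · exact hn hx
        · exact absurd hlt' (not_lt.2 (hcon x hx (not_le.1 hzx)))

theorem lim_spec [WellFoundedLT X] (hD : D.Countable)
    (hdir : ∀ a ∈ D, ∀ b ∈ D, ∃ c ∈ D, c ≤ a ∧ c ≤ b) :
    Ok (limC D) ∧ (∀ p ∈ D, limC D ≤ p.1) ∧
      ∀ b ∈ (limC D).u, ∃ p ∈ D, ∃ a ∈ p.1.u, b ≤ a := by
  classical
  obtain ⟨h1, h2⟩ := lim_sqOk hD hdir
  have hg : ∀ j i v, ∀ p ∈ D, p.1.g j i = some v → LG D j i = some v := by
    intro j i v p hp hv
    have h : ∃ v, ∃ p ∈ D, p.1.g j i = some v := ⟨v, p, hp, hv⟩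
    have h3 : LG D j i = some h.choose := dif_pos h
    rw [h3]
    obtain ⟨q, hq, hqv⟩ := h.choose_spec
    obtain ⟨r, hr, hrp, hrq⟩ := hdir p hp q hq
    have h4 := hrp.2.2 j i v hv
    have h5 := hrq.2.2 j i _ hqv
    rw [h4] at h5
    exact h5.symm
  have hg2 : ∀ j i v, LG D j i = some v → ∃ p ∈ D, p.1.g j i = some v := by
    intro j i v hv
    by_cases h : ∃ v, ∃ p ∈ D, p.1.g j i = some v
    · have h3 : LG D j i = some h.choose := dif_pos h
      rw [h3] at hv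
      obtain ⟨q, hq, hqv⟩ := h.choose_spec
      exact ⟨q, hq, hqv.trans hv⟩
    · have h3 : LG D j i = none := dif_neg h
      rw [h3] at hv
      exact absurd hv (by simp)
  refine ⟨⟨h1, h2, ?_, ?_⟩, fun p hp => ⟨fun a ha => Or.inl ⟨p, hp, ha⟩, fun a ha => ?_,
    fun j i v hv => hg j i v p hp hv⟩, ?_⟩
  · have h3 : {k : (X × Set X) × Λ | (limC D).g k.1 k.2 ≠ none} ⊆
        ⋃ p ∈ D, {k : (X × Set X) × Λ | p.1.g k.1 k.2 ≠ none} := by
      intro k hk
      obtain ⟨v, hv⟩ := Option.ne_none_iff_exists'.1 hk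
      obtain ⟨p, hp, hpv⟩ := hg2 k.1 k.2 v hv
      simp only [Set.mem_iUnion]
      exact ⟨p, hp, by rw [Set.mem_ofPred_eq, hpv]; simp⟩
    exact (hD.biUnion fun p _ => p.2.2.2.1).mono h3
  · intro j i v hv
    obtain ⟨p, hp, hpv⟩ := hg2 j i v hv
    exact p.2.2.2.2 j i v hpv
  · have haU : a ∈ UU D := ⟨p, hp, ha⟩
    have hE := cu_endExt hdir hp ha
    have h4 : (limC D).c a = CU D a ∪ {b | b < a ∧ IsLUB (CU D a) b} := lc_pos haU
    rw [h4]
    refine hE.trans ⟨Set.subset_union_left, fun x hx hxn y hy => ?_⟩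
    rcases hx with hx | ⟨-, hl⟩
    · exact absurd hx hxn
    · refine lt_of_le_of_ne (hl.1 hy) ?_
      rintro rfl
      exact hxn hy
  · rintro b (⟨p, hp, hb⟩ | ⟨a, ⟨p, hp, ha⟩, hb, -, -⟩)
    · exact ⟨p, hp, b, hb, le_rfl⟩
    · exact ⟨p, hp, a, ha, hb.le⟩

end lim

theorem dirClosed_PO [WellFoundedLT X] : DirClosed ℵ₁ (PO X Λ) := by
  intro D hD _ hdir
  have hDc : D.Countable := by
    rw [← Cardinal.le_aleph0_iff_set_countable]
    have : #D < Order.succ ℵ₀ := by rwa [Cardinal.succ_aleph0]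
    exact Order.lt_succ_iff.1 this
  obtain ⟨h1, h2, -⟩ := lim_spec hDc hdir
  exact ⟨⟨limC D, h1⟩, fun p hp => h2 p hp⟩

end Pool.Agent.R583.O
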