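import Mathlib
import Pool.Agent.R583.OLim
import Pool.Agent.Helper539.LadClos
set_option autoImplicit false
set_option linter.unusedSectionVars false

/-!
# The chain condition
-/

namespace Pool.Agent.R583.O

open Cardinal Pool.Agent.Helper669.K Pool.Agent.Helper539.LadClos

variable {X Λ : Type} [LinearOrder X]

/-- amalgamation -/
theorem compat {p q : PO X Λ} (h1 : ∀ a ∈ p.1.u, a ∈ q.1.u → p.1.c a = q.1.c a)
    (h2 : ∀ j i, p.1.g j i ≠ none → q.1.g j i ≠ none → p.1.g j i = q.1.g j i) :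
    ∃ r, r ≤ p ∧ r ≤ q := by
  classical
  obtain ⟨c0, k1, k2, k3⟩ := union_spec p.2.1 q.2.1 h1
  obtain ⟨c1, k4, k5, k6, -⟩ := exists_cap k1 id
  let g : X × Set X → Λ → Option X := fun j i => if p.1.g j i ≠ none then p.1.g j i else q.1.g j i
  have hg1 : ∀ j i v, p.1.g j i = some v → g j i = some v := by
    intro j i v hv
    have : p.1.g j i ≠ none := by rw [hv]; simp
    simp only [g, if_pos this, hv]
  have hg2 : ∀ j i v, q.1.g j i = some v → g j i = some v := by
    intro j i v hv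
    by_cases hp : p.1.g j i ≠ none
    · have : q.1.g j i ≠ none := by rw [hv]; simp
      simp only [g, if_pos hp]
      rw [h2 j i hp this, hv]
    · simp only [g, if_neg hp, hv]
  refine ⟨⟨⟨p.1.u ∪ q.1.u, c1, g⟩, k4, k5, ?_, ?_⟩, ⟨Set.subset_union_left, ?_, hg1⟩,
    ⟨Set.subset_union_right, ?_, hg2⟩⟩
  · refine (p.2.2.2.1.union q.2.2.2.1).mono ?_
    intro k hk
    by_cases hp : p.1.g k.1 k.2 ≠ none
    · exact Or.inl hp
    · right
      have h3 : g k.1 k.2 = q.1.g k.1 k.2 := if_neg hp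
      have h4 : g k.1 k.2 ≠ none := hk
      rw [h3] at h4
      exact h4
  · intro j i v hv
    by_cases hp : p.1.g j i ≠ none
    · have h3 : g j i = p.1.g j i := if_pos hp
      exact p.2.2.2.2 j i v (h3.symm.trans hv)
    · have h3 : g j i = q.1.g j i := if_neg hp
      exact q.2.2.2.2 j i v (h3.symm.trans hv)
  · intro a ha
    have := k6 a (Or.inl ha)
    rwa [k2 a ha] at this
  · intro a ha
    have := k6 a (Or.inr ha)
    rwa [k3 a ha] at this

/-- support points -/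
abbrev TH (X Λ : Type) : Type := X ⊕ ((X × Set X) × Λ)

/-- the support -/
def supp (p : PC X Λ) : Set (TH X Λ) :=
  {θ | (∃ a ∈ p.u, θ = Sum.inl a) ∨ ∃ k : (X × Set X) × Λ, p.g k.1 k.2 ≠ none ∧ θ = Sum.inr k}

theorem supp_countable (p : PO X Λ) : (supp p.1).Countable := by
  have : supp p.1 = Sum.inl '' p.1.u ∪ Sum.inr '' {k : (X × Set X) × Λ | p.1.g k.1 k.2 ≠ none} := by
    ext θ
    constructor
    · rintro (⟨a, ha, rfl⟩ | ⟨k, hk, rfl⟩)
      · exact Or.inl ⟨a, ha, rfl⟩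
      · exact Or.inr ⟨k, hk, rfl⟩
    · rintro (⟨a, ha, rfl⟩ | ⟨k, hk, rfl⟩)
      · exact Or.inl ⟨a, ha, rfl⟩
      · exact Or.inr ⟨k, hk, rfl⟩
  rw [this]
  exact (p.2.1.cu.image _).union (p.2.2.2.1.image _)

/-- local data -/
abbrev KK (M : Type) : Type := Option (ℕ → Option M) × Option M

/-- the countable set `S` has code `t` with respect to `e` -/
def Codes {M : Type} (a : X) (e : Set.Iic a ↪ M) (S : Set X) (t : ℕ → Option M) : Prop :=
  ∀ m, (∃ n, t n = some m) ↔ ∃ x, ∃ h : x ≤ a, x ∈ S ∧ e ⟨x, h⟩ = m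

theorem exists_code {M : Type} (a : X) (e : Set.Iic a ↪ M) {S : Set X} (hS : S.Countable) :
    ∃ t, Codes a e S t := by
  classical
  rcases S.eq_empty_or_nonempty with rfl | hne
  · exact ⟨fun _ => none, fun m => ⟨fun ⟨n, hn⟩ => by simp at hn, fun ⟨x, _, hx, _⟩ => hx.elim⟩⟩
  · obtain ⟨f, rfl⟩ := hS.exists_eq_range hne
    refine ⟨fun n => if h : f n ≤ a then some (e ⟨f n, h⟩) else none, fun m => ?_⟩
    constructor
    · rintro ⟨n, hn⟩
      dsimp only at hn
      by_cases h : f n ≤ a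
      · rw [dif_pos h] at hn
        exact ⟨f n, h, ⟨n, rfl⟩, Option.some.inj hn⟩
      · rw [dif_neg h] at hn
        simp at hn
    · rintro ⟨_, h, ⟨n, rfl⟩, hm⟩
      refine ⟨n, ?_⟩
      dsimp only
      rw [dif_pos h, hm]

theorem codes_inj {M : Type} {a : X} {e : Set.Iic a ↪ M} {S S' : Set X} {t : ℕ → Option M}
    (h : Codes a e S t) (h' : Codes a e S' t) (hS : ∀ x ∈ S, x ≤ a) (hS' : ∀ x ∈ S', x ≤ a) :
    S = S' := by
  have key : ∀ T T' : Set X, Codes a e T t → Codes a e T' t → (∀ x ∈ T, x ≤ a) → T ⊆ T' := by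
    intro T T' h1 h2 h3 x hx
    obtain ⟨x', h4, h5, h6⟩ := (h2 (e ⟨x, h3 x hx⟩)).1 ((h1 _).2 ⟨x, h3 x hx, hx, rfl⟩)
    have h7 := e.injective h6
    have h8 : x' = x := congrArg Subtype.val h7
    rwa [← h8]
  exact Set.Subset.antisymm (key S S' h h' hS) (key S' S h' h hS')

open Classical in
/-- local data of a condition at a support point -/
noncomputable def loc {M : Type} (e : ∀ a : X, Set.Iic a ↪ M) (p : PC X Λ) : TH X Λ → KK M
  | Sum.inl a => (if h : ∃ t, Codes a (e a) (p.c a) t then some h.choose else none, none)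
  | Sum.inr k => (none, match p.g k.1 k.2 with
      | none => none
      | some v => if h : v ≤ k.1.1 then some (e k.1.1 ⟨v, h⟩) else none)

theorem loc_inl {M : Type} (e : ∀ a : X, Set.Iic a ↪ M) {p q : PO X Λ} {a : X} (ha : a ∈ p.1.u)
    (ha' : a ∈ q.1.u) (h : loc e p.1 (Sum.inl a) = loc e q.1 (Sum.inl a)) :
    p.1.c a = q.1.c a := by
  have h1 : ∃ t, Codes a (e a) (p.1.c a) t := exists_code a (e a) (p.2.1.cc a ha)
  have h2 : ∃ t, Codes a (e a) (q.1.c a) t := exists_code a (e a) (q.2.1.cc a ha')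
  have h3 := congrArg Prod.fst h
  simp only [loc, dif_pos h1, dif_pos h2, Option.some.injEq] at h3
  have h4 := h1.choose_spec
  have h5 := h2.choose_spec
  rw [← h3] at h5
  exact codes_inj h4 h5 (fun x hx => (p.2.1.below a ha x hx).le)
    fun x hx => (q.2.1.below a ha' x hx).le

theorem loc_inr {M : Type} (e : ∀ a : X, Set.Iic a ↪ M) {p q : PO X Λ} {j : X × Set X} {i : Λ}
    (ha : p.1.g j i ≠ none) (ha' : q.1.g j i ≠ none)
    (h : loc e p.1 (Sum.inr (j, i)) = loc e q.1 (Sum.inr (j, i))) :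
    p.1.g j i = q.1.g j i := by
  obtain ⟨v, hv⟩ := Option.ne_none_iff_exists'.1 ha
  obtain ⟨w, hw⟩ := Option.ne_none_iff_exists'.1 ha'
  have h3 := congrArg Prod.snd h
  have hv' := p.2.2.2.2 j i v hv
  have hw' := q.2.2.2.2 j i w hw
  simp only [loc, hv, hw, dif_pos hv', dif_pos hw', Option.some.injEq] at h3
  have h4 := (e j.1).injective h3
  have h5 : v = w := congrArg Subtype.val h4
  rw [hv, hw, h5]

theorem compat_of_loc {M : Type} (e : ∀ a : X, Set.Iic a ↪ M) {p q : PO X Λ}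
    (h : ∀ θ ∈ supp p.1, θ ∈ supp q.1 → loc e p.1 θ = loc e q.1 θ) : ∃ r, r ≤ p ∧ r ≤ q := by
  refine compat (fun a ha ha' => ?_) (fun j i ha ha' => ?_)
  · exact loc_inl e ha ha' (h _ (Or.inl ⟨a, ha, rfl⟩) (Or.inl ⟨a, ha', rfl⟩))
  · exact loc_inr e ha ha' (h _ (Or.inr ⟨(j, i), ha, rfl⟩) (Or.inr ⟨(j, i), ha', rfl⟩))

open Classical in
/-- enumeration of a countable set -/
noncomputable def enu {Θ : Type} (θ0 : Θ) (S : Set Θ) : ℕ → Θ :=
  if h : ∃ f : ℕ → Θ, S = Set.range f then h.choose else fun _ => θ0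

theorem enu_spec {Θ : Type} (θ0 : Θ) {S : Set Θ} (hS : S.Countable) :
    ∀ θ ∈ S, ∃ n, enu θ0 S n = θ := by
  intro θ hθ
  have h : ∃ f : ℕ → Θ, S = Set.range f := hS.exists_eq_range ⟨θ, hθ⟩
  have h1 : enu θ0 S = h.choose := dif_pos h
  rw [h1]
  have h2 : θ ∈ Set.range h.choose := by rw [← h.choose_spec]; exact hθ
  exact h2

theorem enu_mem {Θ : Type} (θ0 : Θ) (S : Set Θ) (n : ℕ) : enu θ0 S n ∈ S ∨ enu θ0 S n = θ0 := by
  classical
  by_cases h : ∃ f : ℕ → Θ, S = Set.range f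
  · left
    have h1 : enu θ0 S = h.choose := dif_pos h
    rw [h1]
    have h2 := h.choose_spec
    have h3 : h.choose n ∈ Set.range h.choose := ⟨n, rfl⟩
    rw [← h2] at h3
    exact h3
  · right
    have h1 : enu θ0 S = fun _ => θ0 := dif_neg h
    rw [h1]

/-- the relation searched for -/
def PP {M ι : Type} (e : ∀ a : X, Set.Iic a ↪ M) (f : ι → PO X Λ) (d : ℕ → Option (KK M))
    (c : ℕ → TH X Λ) (i : ι) : Prop :=
  ∀ n k, d n = some k → loc e (f i).1 (c n) = k

open Classical in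
/-- the operations -/
noncomputable def FF {M ι : Type} (e : ∀ a : X, Set.Iic a ↪ M) (f : ι → PO X Λ) (θ0 : TH X Λ)
    (d : ℕ → Option (KK M)) (c : ℕ → TH X Λ) : ℕ → TH X Λ :=
  if h : ∃ i, PP e f d c i then enu θ0 (supp (f h.choose).1) else fun _ => θ0

theorem card_KK {M : Type} (hM : #M ^ ℵ₀ = #M) (hM2 : 2 ≤ #M) :
    ℵ₀ ≤ #M ∧ #(ℕ → Option (KK M)) ≤ #M := by
  have hinf : ℵ₀ ≤ #M := by
    calc ℵ₀ ≤ 2 ^ ℵ₀ := (Cardinal.cantor _).le
      _ ≤ #M ^ ℵ₀ := Cardinal.power_le_power_right hM2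
      _ = #M := hM
  have h1 : #(Option M) ≤ #M := by
    rw [Cardinal.mk_option]
    exact Cardinal.add_le_of_le hinf le_rfl (Cardinal.one_le_aleph0.trans hinf)
  have h2 : #(ℕ → Option M) ≤ #M := by
    have : #(ℕ → Option M) = #(Option M) ^ ℵ₀ := by simp
    rw [this]
    calc #(Option M) ^ ℵ₀ ≤ #M ^ ℵ₀ := Cardinal.power_le_power_right h1
      _ = #M := hM
  have h3 : #(Option (ℕ → Option M)) ≤ #M := by
    rw [Cardinal.mk_option]
    exact Cardinal.add_le_of_le hinf h2 (Cardinal.one_le_aleph0.trans hinf)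
  have h4 : #(KK M) ≤ #M := by
    rw [Cardinal.mk_prod]
    simp only [Cardinal.lift_id]
    exact Cardinal.mul_le_of_le hinf h3 h1
  have h5 : #(Option (KK M)) ≤ #M := by
    rw [Cardinal.mk_option]
    exact Cardinal.add_le_of_le hinf h4 (Cardinal.one_le_aleph0.trans hinf)
  refine ⟨hinf, ?_⟩
  have : #(ℕ → Option (KK M)) = #(Option (KK M)) ^ ℵ₀ := by simp
  rw [this]
  calc #(Option (KK M)) ^ ℵ₀ ≤ #M ^ ℵ₀ := Cardinal.power_le_power_right h5
    _ = #M := hM

/-- the chain condition -/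
theorem cc {M : Type} (e : ∀ a : X, Set.Iic a ↪ M) (hM : #M ^ ℵ₀ = #M) (hM2 : 2 ≤ #M)
    [Nonempty X] (ι : Type) (f : ι → PO X Λ) (hι : #M < #ι) :
    ∃ i j, i ≠ j ∧ ∃ r, r ≤ f i ∧ r ≤ f j := by
  classical
  by_contra hcon
  push Not at hcon
  have hcon' : ∀ i j, (∃ r, r ≤ f i ∧ r ≤ f j) → i = j := by
    rintro i j ⟨r, h1, h2⟩
    by_contra hne
    exact hcon i j hne r h1 h2
  obtain ⟨hinf, hK⟩ := card_KK hM hM2
  let θ0 : TH X Λ := Sum.inl (Classical.arbitrary X)
  obtain ⟨V, hV0, hVM, hVF⟩ := closure_small (Λ := ℕ) (M := M) (D := ℕ → Option (KK M))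
    hK (by rw [Cardinal.mk_nat]; exact hM) hM2 θ0 (FF e f θ0)
  -- all supports are in `V`
  have hsup : ∀ i, supp (f i).1 ⊆ V := by
    intro i
    let S : Set (TH X Λ) := supp (f i).1 ∩ V
    have hSc : S.Countable := (supp_countable (f i)).mono Set.inter_subset_left
    let c : ℕ → TH X Λ := enu θ0 S
    have hcV : ∀ n, c n ∈ V := by
      intro n
      rcases enu_mem θ0 S n with h | h
      · exact h.2
      · change enu θ0 S n ∈ V
        rw [h]
        exact hV0
    let d : ℕ → Option (KK M) := fun n => some (loc e (f i).1 (c n))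
    have hP : PP e f d c i := by
      intro n k hk
      exact Option.some.inj hk
    have hex : ∃ i', PP e f d c i' := ⟨i, hP⟩
    have hF : FF e f θ0 d c = enu θ0 (supp (f hex.choose).1) := dif_pos hex
    have hVF' := hVF d c hcV
    rw [hF] at hVF'
    have hsp := hex.choose_spec
    generalize hex.choose = i' at hVF' hsp
    have hsub : supp (f i').1 ⊆ V := by
      intro θ hθ
      obtain ⟨n, hn⟩ := enu_spec θ0 (supp_countable (f i')) θ hθ
      rw [← hn]
      exact hVF' n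
    have hcomp := compat_of_loc e (p := f i) (q := f i') (by
      intro θ h1 h2
      obtain ⟨n, hn⟩ := enu_spec θ0 hSc θ ⟨h1, hsub h2⟩
      have h3 := hsp n _ rfl
      have h4 : c n = θ := hn
      rw [h4] at h3
      exact h3.symm)
    rw [hcon' i i' hcomp]
    exact hsub
  -- injection
  let cc : ι → ℕ → V := fun i n => ⟨enu θ0 (supp (f i).1) n, by
    rcases enu_mem θ0 (supp (f i).1) n with h | h
    · exact hsup i h
    · rw [h]
      exact hV0⟩
  let dd : ι → ℕ → Option (KK M) := fun i n => some (loc e (f i).1 (cc i n).1)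
  have hinj : Function.Injective fun i => (cc i, dd i) := by
    intro i i' hii
    have h1 : cc i = cc i' := congrArg Prod.fst hii
    have h2 : dd i = dd i' := congrArg Prod.snd hii
    apply hcon'
    refine compat_of_loc e fun θ hθ hθ' => ?_
    obtain ⟨n, hn⟩ := enu_spec θ0 (supp_countable (f i)) θ hθ
    have h3 : (cc i n).1 = θ := hn
    have h4 : (cc i' n).1 = θ := by rw [← h1]; exact h3
    have h5 := congrFun h2 n
    simp only [dd, Option.some.injEq] at h5
    rw [h3, h4] at h5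
    exact h5
  have hle := Cardinal.mk_le_of_injective hinj
  have h1 : #(ℕ → V) ≤ #M := by
    have : #(ℕ → V) = #V ^ ℵ₀ := by simp
    rw [this]
    calc #V ^ ℵ₀ ≤ #M ^ ℵ₀ := Cardinal.power_le_power_right hVM
      _ = #M := hM
  rw [Cardinal.mk_prod] at hle
  simp only [Cardinal.lift_id] at hle
  exact absurd (hle.trans (Cardinal.mul_le_of_le hinf h1 hK)) (not_le.2 hι)

end Pool.Agent.R583.O
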