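import Mathlib
import Pool.Agent.R583.DDefs
set_option autoImplicit false

/-!
# The Ostaszewski square in the language of forcing

`X` is a well-ordered set of order type `λ⁺` and `Λ` is one of order type `λ`.
-/

namespace Pool.Agent.R583.ODefs

open Cardinal Pool.Agent.Helper669.Forcing Pool.Agent.Helper669.K Pool.Agent.R583.DDefs

/-- `a` is a limit point of the well-ordered set `X` (it is not the least element, and not the
successor of an element). -/
def Lim {X : Type} [LinearOrder X] (a : X) : Prop := (∃ b, b < a) ∧ ∀ b < a, ∃ c, b < c ∧ c < a

section

variable {P : Type} [Preorder P] {X Λ : Type} [LinearOrder X] [LinearOrder Λ]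

/-- `b` is not the least element and the points of `C` below `b` are unbounded in `b`. -/
def FAcc (C : X → Set P) (b : X) : Set P :=
  fand (fground (∃ x, x < b)) (fall fun x : X => fimp (fground (x < b))
    (fex fun z : X => fand (fground (x < z ∧ z < b)) (meets (C z))))

/-- `C` is a closed unbounded subset of `a`. -/
def FClubIn (C : X → Set P) (a : X) : Set P :=
  fand (fall fun x : X => fimp (meets (C x)) (fground (x < a)))
    (fand (FAcc C a)
      (fall fun b : X => fimp (fand (fground (b < a)) (FAcc C b)) (meets (C b))))

/-- The order type of `C` is at most `Λ`: some function from `C` to `Λ` is strictly increasing. -/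
def FOtpLe (Λ : Type) [LinearOrder Λ] (C : X → Set P) : Set P :=
  fex fun f : X → Λ → Set P =>
    fand (fall fun x : X => fimp (meets (C x)) (fex fun i : Λ => meets (f x i)))
      (fall fun x : X => fall fun y : X => fall fun i : Λ => fall fun j : Λ =>
        fimp (fand (fand (meets (C x)) (meets (C y))) (fand (meets (f x i)) (meets (f y j))))
          (fground ((x < y → i < j) ∧ (x = y → i = j))))

/-- `C` is a square sequence: for limit `a` the set `C a` is closed unbounded in `a` of order type
at most `Λ`, and if `b ∈ C a` is a limit of points of `C a` then `C b = C a ∩ b`. -/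
def FSquare (Λ : Type) [LinearOrder Λ] (C : X → X → Set P) : Set P :=
  fall fun a : X => fall fun _ : Lim a =>
    fand (FClubIn (C a) a)
      (fand (FOtpLe Λ (C a))
        (fall fun b : X => fimp (fand (meets (C a b)) (FAcc (C a) b))
          (fall fun x : X => fiff (meets (C b x)) (fand (meets (C a x)) (fground (x < b))))))

/-- `e` is the increasing enumeration of `C`, which has order type `θ`: it is an increasing
function defined exactly on the `i < θ`, with range `C`. -/
def FEnum (θ : Λ) (e : Λ → X → Set P) (C : X → Set P) : Set P :=
  fand (fall fun i : Λ => fall fun _ : i < θ => fex fun x : X => meets (e i x))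
    (fand (fall fun i : Λ => fall fun x : X => fimp (meets (e i x)) (fground (i < θ)))
      (fand (fall fun i : Λ => fall fun j : Λ => fall fun x : X => fall fun y : X =>
          fimp (fand (meets (e i x)) (meets (e j y)))
            (fground ((i < j → x < y) ∧ (i = j → x = y))))
        (fall fun x : X => fiff (meets (C x)) (fex fun i : Λ => meets (e i x)))))

/-- The guessing property of `C`: for every sequence `A` indexed by `Λ` of unbounded subsets of
`X`, every limit `θ` in `Λ` and every closed unbounded `D ⊆ X` there is a limit `a` such that
`C a` has order type `θ`, the `(i + 1)`-st element of `C a` is in `A i`, and some point of `D` is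
between the `i`-th and the `(i + 1)`-st element of `C a`, for all `i` (with `i + 1 < θ`). -/
def FGuess (Λ : Type) [LinearOrder Λ] (C : X → X → Set P) : Set P :=
  fall fun A : Λ → X → Set P => fimp (fall fun i : Λ => FUnbounded (A i))
    (fall fun θ : Λ => fall fun _ : Lim θ => fall fun D : X → Set P => fimp (FClub D)
      (fex fun a : X => fand (fground (Lim a)) (fex fun e : Λ → X → Set P =>
        fand (FEnum θ e (C a))
          (fall fun i : Λ => fall fun j : Λ => fall fun _ : i ⋖ j => fall fun x : X =>
            fall fun y : X => fimp (fand (meets (e i x)) (meets (e j y)))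
              (fand (meets (A i y))
                (fex fun b : X => fand (fground (x < b ∧ b < y)) (meets (D b))))))))

/-- The Ostaszewski square for `Λ` and `X`. -/
def FOstaszewski (P : Type) [Preorder P] (Λ X : Type) [LinearOrder Λ] [LinearOrder X] : Set P :=
  fex fun C : X → X → Set P => fand (FSquare Λ C) (FGuess Λ C)

/-- `B` is the image of `A` under some function. -/
def FImage (P : Type) [Preorder P] (A B : Type) : Set P :=
  fex fun R : A → B → Set P => fand (IsFun R) (IsOnto R)

/-- There is a family of subsets of `Λ` indexed by `X` which contains all the subsets of `Λ`: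
`2 ^ |Λ| ≤ |X|`. -/
def FPowLe (P : Type) [Preorder P] (Λ X : Type) : Set P :=
  fex fun Z : X → Λ → Set P => fall fun A : Λ → Set P => fex fun x : X => fall fun a : Λ =>
    fiff (meets (A a)) (meets (Z x a))

end

end Pool.Agent.R583.ODefs
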