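import Mathlib
import Pool.Agent.R583.OLim
import Pool.Agent.R583.ODefs
set_option autoImplicit false
set_option linter.unusedSectionVars false

/-!
# Density arguments and the square sequence
-/

namespace Pool.Agent.R583.O

open Cardinal Pool.Agent.Helper669.Forcing Pool.Agent.Helper669.K Pool.Agent.R583.DDefs
  Pool.Agent.R583.ODefs

variable {X Λ : Type} [LinearOrder X]

theorem exists_ladder {a : X} (h : CofOmega a) :
    ∃ Z : Set X, Z.Countable ∧ (∀ x ∈ Z, x < a) ∧ Unb Z a ∧ ∀ b < a, ¬ Acc Z b := by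
  obtain ⟨f, hf1, hf2⟩ := h
  have hstep : ∀ x : {x : X // x < a}, ∀ n : ℕ, ∃ y : {x : X // x < a}, x.1 < y.1 ∧ f n < y.1 := by
    intro x n
    obtain ⟨m, hm⟩ := hf2 (max x.1 (f n)) (max_lt x.2 (hf1 n))
    exact ⟨⟨f m, hf1 m⟩, (le_max_left _ _).trans_lt hm, (le_max_right _ _).trans_lt hm⟩
  choose g hg using hstep
  let h : ℕ → {x : X // x < a} := fun n => Nat.rec ⟨f 0, hf1 0⟩ (fun n x => g x n) n
  have hh : ∀ n, (h n).1 < (h (n + 1)).1 ∧ f n < (h (n + 1)).1 := fun n => hg (h n) n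
  have hmono : StrictMono fun n => (h n).1 := strictMono_nat_of_lt_succ fun n => (hh n).1
  refine ⟨Set.range fun n => (h n).1, Set.countable_range _, ?_, ?_, ?_⟩
  · rintro _ ⟨n, rfl⟩
    exact (h n).2
  · intro b hb
    obtain ⟨n, hn⟩ := hf2 b hb
    exact ⟨_, ⟨n + 1, rfl⟩, hn.trans (hh n).2, (h (n + 1)).2⟩
  · rintro b hb ⟨⟨x0, hx0⟩, hu⟩
    have hex : ∃ n, b ≤ (h n).1 := by
      obtain ⟨n, hn⟩ := hf2 b hb
      exact ⟨n + 1, (hn.trans (hh n).2).le⟩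
    classical
    have h1 := Nat.find_spec hex
    have h2 : ∀ m, m < Nat.find hex → (h m).1 < b := fun m hm => not_le.1 (Nat.find_min hex hm)
    rcases hn : Nat.find hex with _ | m
    · rw [hn] at h1
      obtain ⟨_, ⟨k, rfl⟩, -, hk⟩ := hu x0 hx0
      exact absurd (h1.trans (hmono.monotone (Nat.zero_le k))) (not_le.2 hk)
    · rw [hn] at h1
      obtain ⟨_, ⟨k, rfl⟩, hk1, hk2⟩ := hu (h m).1 (h2 m (by omega))
      have h3 : m < k := hmono.lt_iff_lt.1 hk1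
      exact absurd (h1.trans (hmono.monotone h3)) (not_le.2 hk2)

/-- adding a point -/
theorem exists_add (p : PO X Λ) {α : X} (hα : α ∉ p.1.u) {Z : Set X}
    (hl : LimPt α) (hZc : Z.Countable) (hZ : ∀ x ∈ Z, x < α)
    (hcoh : ∀ b < α, Acc Z b → b ∈ Z ∧ b ∈ p.1.u ∧ ∀ x, x ∈ p.1.c b ↔ x ∈ Z ∧ x < b)
    (hfull : CofOmega α → Unb Z α) :
    ∃ q ≤ p, α ∈ q.1.u ∧ (CofOmega α → q.1.c α = Z) := by
  obtain ⟨c', h1, h2, h3⟩ := add_spec p.2.1 hα hl hZc hZ hcoh hfull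
  obtain ⟨c'', h4, h5, h6, -⟩ := exists_cap h1 id
  refine ⟨⟨⟨insert α p.1.u, c'', p.1.g⟩, h4, h5, p.2.2.2⟩, ⟨Set.subset_insert _ _, fun a ha => ?_,
    fun _ _ _ h => h⟩, Or.inl rfl, fun hc => ?_⟩
  · have := h6 a (Or.inr ha)
    rwa [h3 a ha] at this
  · have h7 := h6 α (Or.inl rfl)
    rw [h2] at h7
    refine Set.Subset.antisymm (fun x hx => ?_) h7.1
    obtain ⟨y, hy, hxy, -⟩ := hfull hc x (h4.below α (Or.inl rfl) x hx)
    exact h7.mem hx hy hxy.le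

theorem exists_in (p : PO X Λ) {a : X} (ha : LimPt a) : ∃ q ≤ p, a ∈ q.1.u := by
  by_cases hau : a ∈ p.1.u
  · exact ⟨p, le_rfl, hau⟩
  by_cases hc : CofOmega a
  · obtain ⟨Z, h1, h2, h3, h4⟩ := exists_ladder hc
    obtain ⟨q, hq, hq2, -⟩ := exists_add p hau ha h1 h2 (fun b hb hac => absurd hac (h4 b hb))
      fun _ => h3
    exact ⟨q, hq, hq2⟩
  · obtain ⟨q, hq, hq2, -⟩ := exists_add p hau ha (Z := ∅) Set.countable_empty
      (fun x hx => hx.elim) (fun b _ hac => by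
        obtain ⟨⟨x, hx⟩, hu⟩ := hac
        obtain ⟨y, hy, -⟩ := hu x hx
        exact hy.elim) fun h => absurd h hc
    exact ⟨q, hq, hq2⟩

theorem exists_above (p : PO X Λ) {a b : X} (ha : LimPt a) (hb : b < a) :
    ∃ q ≤ p, a ∈ q.1.u ∧ ∃ x ∈ q.1.c a, b < x := by
  obtain ⟨q, hq, haq⟩ := exists_in p ha
  by_cases hc : CofOmega a
  · obtain ⟨x, hx, h1, -⟩ := q.2.1.full a haq hc b hb
    exact ⟨q, hq, haq, x, hx, h1⟩
  · obtain ⟨c', h1, h2, h3, h4⟩ := exists_cap q.2.1 fun _ => b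
    obtain ⟨x, hx, hbx⟩ := h4 a haq hc hb
    exact ⟨⟨⟨q.1.u, c', q.1.g⟩, h1, h2, q.2.2.2⟩, le_trans (⟨subset_rfl, h3, fun _ _ _ h => h⟩ :
      (⟨⟨q.1.u, c', q.1.g⟩, h1, h2, q.2.2.2⟩ : PO X Λ) ≤ q) hq, haq, x, hx, hbx⟩

/-- the name of the square sequence -/
def CName (X Λ : Type) [LinearOrder X] (a x : X) : Set (PO X Λ) := {p | a ∈ p.1.u ∧ x ∈ p.1.c a}

theorem down_CName (a x : X) : Down (CName X Λ a x) :=
  fun _ hp _ hq => ⟨hq.1 hp.1, (hq.2.1 a hp.1).1 hp.2⟩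

theorem exists_CName {p : PO X Λ} {a x : X} (h : p ∈ meets (CName X Λ a x)) :
    ∃ q ≤ p, a ∈ q.1.u ∧ x ∈ q.1.c a := exists_of_meets (down_CName a x) h

/-- membership is decided below the points already there -/
theorem dec_CName {p r : PO X Λ} (hr : r ≤ p) {a x y : X} (ha : a ∈ p.1.u) (hy : y ∈ p.1.c a)
    (hxy : x ≤ y) (h : r ∈ meets (CName X Λ a x)) : x ∈ p.1.c a := by
  obtain ⟨q, hq, -, hx⟩ := exists_CName h
  exact ((hq.trans hr).2.1 a ha).mem hx hy hxy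

theorem dec_full {p r : PO X Λ} (hr : r ≤ p) {a x : X} (ha : a ∈ p.1.u) (hc : CofOmega a)
    (h : r ∈ meets (CName X Λ a x)) : x ∈ p.1.c a := by
  obtain ⟨q, hq, -, hx⟩ := exists_CName h
  rwa [c_eq (hq.trans hr) ha hc] at hx

theorem acc_of_FAcc {p r : PO X Λ} (hr : r ≤ p) {a b y : X} (ha : a ∈ p.1.u) (hy : y ∈ p.1.c a)
    (hby : b ≤ y) (h : r ∈ FAcc (CName X Λ a) b) : Acc (p.1.c a) b := by
  refine ⟨h.1, fun x hx => ?_⟩
  obtain ⟨r1, hr1, h1⟩ := mem_fimp.1 (h.2 x) r le_rfl hx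
  obtain ⟨r2, hr2, z, ⟨hxz, hzb⟩, hz⟩ := mem_fex.1 h1 r1 le_rfl
  exact ⟨z, dec_CName (hr2.trans (hr1.trans hr)) ha hy (hzb.le.trans hby) hz, hxz, hzb⟩

theorem lim_iff (a : X) : Lim a ↔ LimPt a := Iff.rfl

theorem square [LinearOrder Λ] {R : Set X → Λ}
    (hR : ∀ t : Set X, t.Countable → ∀ x ∈ t, R (t ∩ Set.Iio x) < R t) (p : PO X Λ) :
    p ∈ FSquare Λ (CName X Λ) := by
  intro a ha
  refine ⟨⟨fun x => mem_fimp.2 fun q _ hq => ⟨q, le_rfl, ?_⟩, ⟨ha.1, fun x => mem_fimp.2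
    fun q _ hx => ⟨q, le_rfl, mem_fex.2 fun q' _ => ?_⟩⟩, fun b => mem_fimp.2 fun q _ hq => ?_⟩,
    ?_, fun b => mem_fimp.2 fun q _ hq => ?_⟩
  · obtain ⟨r, -, h1, h2⟩ := exists_CName hq
    exact r.2.1.below a h1 x h2
  · obtain ⟨r, hr, har, z, hz, hxz⟩ := exists_above q' ha hx
    exact ⟨r, hr, z, ⟨hxz, r.2.1.below a har z hz⟩, meets_of_mem ⟨har, hz⟩⟩
  · obtain ⟨hb, hac⟩ := hq
    obtain ⟨r, hr, har, y, hy, hby⟩ := exists_above q ha hb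
    have hacc := acc_of_FAcc le_rfl har hy hby.le
      ((down_fand (down_fground _) (down_fall fun _ => down_fimp _ _)) _ hac _ hr)
    exact ⟨r, hr, meets_of_mem ⟨har, (r.2.1.coh a har b hb hacc).1⟩⟩
  · refine mem_fex_of_mem (fun x i => {p : PO X Λ | a ∈ p.1.u ∧ x ∈ p.1.c a ∧
      R (p.1.c a ∩ Set.Iio x) = i}) (down_fand (down_fall fun _ => down_fimp _ _)
        (down_fall fun _ => down_fall fun _ => down_fall fun _ => down_fall fun _ =>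
          down_fimp _ _)) ⟨fun x => mem_fimp.2 fun q _ hq => ?_,
        fun x y i j => mem_fimp.2 fun q _ hq => ?_⟩
    · obtain ⟨r, hr, h1, h2⟩ := exists_CName hq
      exact ⟨r, hr, mem_fex_of_mem _ (down_meets _) (meets_of_mem ⟨h1, h2, rfl⟩)⟩
    · obtain ⟨⟨-, -⟩, hx, hy⟩ := hq
      obtain ⟨r1, hr1, s1, ⟨ha1, hx1, rfl⟩, hrs1⟩ := hx q le_rfl
      obtain ⟨r2, hr2, s2, ⟨ha2, hy2, rfl⟩, hrs2⟩ := hy r1 hr1
      have hE1 := (hr2.trans hrs1).2.1 a ha1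
      have hE2 := hrs2.2.1 a ha2
      have har : a ∈ r2.1.u := hrs2.1 ha2
      have e1 : s1.1.c a ∩ Set.Iio x = r2.1.c a ∩ Set.Iio x := by
        ext z
        exact ⟨fun h => ⟨hE1.1 h.1, h.2⟩, fun h => ⟨hE1.mem h.1 hx1 (le_of_lt h.2), h.2⟩⟩
      have e2 : s2.1.c a ∩ Set.Iio y = r2.1.c a ∩ Set.Iio y := by
        ext z
        exact ⟨fun h => ⟨hE2.1 h.1, h.2⟩, fun h => ⟨hE2.mem h.1 hy2 (le_of_lt h.2), h.2⟩⟩
      refine ⟨r2, hr2.trans hr1, fun hxy => ?_, fun hxy => ?_⟩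
      · rw [e1, e2]
        have h3 := hR (r2.1.c a ∩ Set.Iio y) ((r2.2.1.cc a har).mono Set.inter_subset_left) x
          ⟨hE1.1 hx1, hxy⟩
        have h4 : r2.1.c a ∩ Set.Iio y ∩ Set.Iio x = r2.1.c a ∩ Set.Iio x := by
          ext z
          exact ⟨fun h => ⟨h.1.1, h.2⟩, fun h => ⟨⟨h.1, lt_trans h.2 hxy⟩, h.2⟩⟩
        rwa [h4] at h3
      · subst hxy
        rw [e1, e2]
  · obtain ⟨hb, hac⟩ := hq
    obtain ⟨r, hr, har, hbr⟩ := exists_CName hb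
    have hba : b < a := r.2.1.below a har b hbr
    have hacc := acc_of_FAcc le_rfl har hbr le_rfl
      ((down_fand (down_fground _) (down_fall fun _ => down_fimp _ _)) _ hac _ hr)
    obtain ⟨-, h2, h3⟩ := r.2.1.coh a har b hba hacc
    have hcb : CofOmega b := cofOmega_of_unb (r.2.1.cc a har) hacc
    refine ⟨r, hr, fun x => ⟨mem_fimp.2 fun r1 hr1 hx => ⟨r1, le_rfl, ?_⟩,
      mem_fimp.2 fun r1 hr1 hx => ⟨r1, le_rfl, ?_⟩⟩⟩
    · have h4 := (h3 x).1 (dec_full hr1 h2 hcb hx)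
      exact ⟨meets_of_le (s := r) (⟨har, h4.1⟩ : r ∈ CName X Λ a x) hr1, h4.2⟩
    · have h4 : x ∈ r.1.c a := dec_CName hr1 har hbr (le_of_lt hx.2) hx.1
      exact meets_of_le (s := r) (⟨h2, (h3 x).2 ⟨h4, hx.2⟩⟩ : r ∈ CName X Λ b x) hr1

end Pool.Agent.R583.O
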