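import Mathlib
import Pool.Agent.R583.ODen
set_option autoImplicit false
set_option linter.unusedSectionVars false

/-!
# The guessing property
-/

namespace Pool.Agent.R583.O

open Cardinal Pool.Agent.Helper669.Forcing Pool.Agent.Helper669.K Pool.Agent.R583.DDefs
  Pool.Agent.R583.ODefs

variable {X Λ : Type} [LinearOrder X] [WellFoundedLT X] [LinearOrder Λ] [WellFoundedLT Λ]

/-- states of the construction -/
structure GS (p0 : PO X Λ) (A : Λ → X → Set (PO X Λ)) (D : X → Set (PO X Λ)) (θ : Λ) where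
  /-- the part of the index set done -/
  W : Set Λ
  /-- the points -/
  x : Λ → X
  /-- the condition -/
  p : PO X Λ
  sub : ∀ i ∈ W, i < θ
  low : ∀ i ∈ W, ∀ k < i, k ∈ W
  mono : ∀ i ∈ W, ∀ k ∈ W, k < i → x k < x i
  le : p ≤ p0
  limc : ∀ i ∈ W, Lim i → IsLUB (x '' Set.Iio i) (x i) ∧ x i ∈ p.1.u ∧ p.1.c (x i) = x '' Set.Iio i
  suc : ∀ k ∈ W, ∀ i ∈ W, k ⋖ i → p ∈ meets (A k (x i)) ∧
    ∃ d, x k < d ∧ d < x i ∧ p ∈ meets (D d)
  bd : W.Nonempty → (¬ ∃ m ∈ W, ∀ i ∈ W, i ≤ m) → ∀ y ∈ p.1.u, ∃ i ∈ W, y < x i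

variable {p0 : PO X Λ} {A : Λ → X → Set (PO X Λ)} {D : X → Set (PO X Λ)} {θ : Λ}

instance instPreorderGS : Preorder (GS p0 A D θ) where
  le a b := a = b ∨ (a.W ⊂ b.W ∧ (∀ i ∈ a.W, a.x i = b.x i) ∧ b.p ≤ a.p ∧
    ∀ i ∈ b.W, i ∉ a.W → ∀ y ∈ a.p.1.u, y < b.x i)
  le_refl a := Or.inl rfl
  le_trans a b c h h' := by
    rcases h with rfl | h
    · exact h'
    · rcases h' with rfl | h'
      · exact Or.inr h
      · refine Or.inr ⟨h.1.trans h'.1, fun i hi => (h.2.1 i hi).trans (h'.2.1 i (h.1.1 hi)),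
          h'.2.2.1.trans h.2.2.1, fun i hi hia y hy => ?_⟩
        by_cases hib : i ∈ b.W
        · rw [← h'.2.1 i hib]
          exact h.2.2.2 i hib hia y hy
        · exact h'.2.2.2 i hi hib y (h.2.2.1.1 hy)

theorem gs_weak {a b : GS p0 A D θ} (h : a ≤ b) :
    a.W ⊆ b.W ∧ (∀ i ∈ a.W, a.x i = b.x i) ∧ b.p ≤ a.p := by
  rcases h with rfl | h
  · exact ⟨subset_rfl, fun _ _ => rfl, le_rfl⟩
  · exact ⟨h.1.1, h.2.1, h.2.2.1⟩

/-- at limit states the supremum is a new point -/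
theorem lim_point (hl : ∀ S : Set X, S.Countable → ∃ b, ∀ x ∈ S, x < b)
    (W : Set Λ) (x : Λ → X) (p : PO X Λ) (hWc : W.Countable)
    (low : ∀ i ∈ W, ∀ k < i, k ∈ W)
    (mono : ∀ i ∈ W, ∀ k ∈ W, k < i → x k < x i)
    (limc : ∀ i ∈ W, Lim i → IsLUB (x '' Set.Iio i) (x i) ∧ x i ∈ p.1.u ∧
      p.1.c (x i) = x '' Set.Iio i)
    (bd : ∀ y ∈ p.1.u, ∃ i ∈ W, y < x i)
    (hne : W.Nonempty) (hmax : ¬ ∃ m ∈ W, ∀ i ∈ W, i ≤ m) :
    ∃ α, IsLUB (x '' W) α ∧ CofOmega α ∧ (∀ y ∈ p.1.u, y < α) ∧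
      ∃ q ≤ p, α ∈ q.1.u ∧ q.1.c α = x '' W := by
  classical
  push Not at hmax
  obtain ⟨b, hb⟩ := hl (x '' W) (hWc.image _)
  have hneU : (upperBounds (x '' W)).Nonempty := ⟨b, fun y hy => (hb y hy).le⟩
  let α := (wellFounded_lt (α := X)).min _ hneU
  have hlub : IsLUB (x '' W) α := ⟨(wellFounded_lt (α := X)).min_mem _ hneU,
    fun z hz => not_lt.1 ((wellFounded_lt (α := X)).not_lt_min _ hz)⟩
  have hlt : ∀ i ∈ W, x i < α := by
    intro i hi
    obtain ⟨k, hk, hik⟩ := hmax i hi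
    exact (mono k hk i hi hik).trans_le (hlub.1 ⟨k, hk, rfl⟩)
  have hcofin : ∀ z < α, ∃ i ∈ W, z < x i := by
    intro z hz
    by_contra hcon
    push Not at hcon
    refine absurd hz (not_lt.2 (hlub.2 ?_))
    rintro _ ⟨i, hi, rfl⟩
    exact hcon i hi
  have hu : ∀ y ∈ p.1.u, y < α := by
    intro y hy
    obtain ⟨i, hi, hyi⟩ := bd y hy
    exact hyi.trans (hlt i hi)
  obtain ⟨i0, hi0⟩ := hne
  have hunb : Unb (x '' W) α := by
    intro z hz
    obtain ⟨i, hi, hzi⟩ := hcofin z hz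
    exact ⟨x i, ⟨i, hi, rfl⟩, hzi, hlt i hi⟩
  have hcof : CofOmega α := cofOmega_of_unb (hWc.image x) ⟨⟨x i0, hlt i0 hi0⟩, hunb⟩
  refine ⟨α, hlub, hcof, hu, ?_⟩
  obtain ⟨q, hq, hαq, hqc⟩ := exists_add p (α := α) (fun h => lt_irrefl _ (hu α h)) (Z := x '' W)
    hcof.limPt (hWc.image x) (by
      rintro _ ⟨i, hi, rfl⟩
      exact hlt i hi) (by
      rintro b hb ⟨⟨x0, hx0⟩, hub⟩
      have hK : {k | k ∈ W ∧ b ≤ x k}.Nonempty := by
        obtain ⟨i, hi, hbi⟩ := hcofin b hb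
        exact ⟨i, hi, hbi.le⟩
      let k := (wellFounded_lt (α := Λ)).min _ hK
      have hk : k ∈ W ∧ b ≤ x k := (wellFounded_lt (α := Λ)).min_mem _ hK
      have hkl : ∀ l < k, x l < b := by
        intro l hl'
        by_contra hcon
        exact (wellFounded_lt (α := Λ)).not_lt_min _
          (⟨low k hk.1 l hl', not_lt.1 hcon⟩ : l ∈ {k | k ∈ W ∧ b ≤ x k}) hl'
      have hlk : ∀ l ∈ W, x l < b → l < k := by
        intro l hl' hlb
        by_contra hcon
        rcases eq_or_lt_of_le (not_lt.1 hcon) with h | h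
        · rw [← h] at hlb
          exact absurd hk.2 (not_le.2 hlb)
        · exact absurd (hk.2.trans (mono l hl' k hk.1 h).le) (not_le.2 hlb)
      have hLk : Lim k := by
        constructor
        · obtain ⟨_, ⟨l, hl', rfl⟩, -, hlb⟩ := hub x0 hx0
          exact ⟨l, hlk l hl' hlb⟩
        · intro l hl'
          obtain ⟨_, ⟨l', hl'', rfl⟩, h1, h2⟩ := hub (x l) (hkl l hl')
          refine ⟨l', ?_, hlk l' hl'' h2⟩
          by_contra hcon
          rcases eq_or_lt_of_le (not_lt.1 hcon) with h | h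
          · rw [h] at h1
            exact lt_irrefl _ h1
          · exact lt_asymm h1 (mono l (low k hk.1 l hl') l' hl'' h)
      obtain ⟨h1, h2, h3⟩ := limc k hk.1 hLk
      have hbk : b = x k := by
        refine le_antisymm hk.2 (h1.2 ?_)
        rintro _ ⟨l, hl', rfl⟩
        exact (hkl l hl').le
      rw [hbk]
      refine ⟨⟨k, hk.1, rfl⟩, h2, fun z => ?_⟩
      rw [h3]
      constructor
      · rintro ⟨l, hl', rfl⟩
        exact ⟨⟨l, low k hk.1 l hl', rfl⟩, mono k hk.1 l (low k hk.1 l hl') hl'⟩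
      · rintro ⟨⟨l, hl', rfl⟩, h4⟩
        refine ⟨l, hlk l hl' ?_, rfl⟩
        rw [hbk]
        exact h4) fun _ => hunb
  exact ⟨q, hq, hαq, hqc hcof⟩

theorem gs_chain (hθ : (Set.Iio θ).Countable) (c : Set (GS p0 A D θ)) (hc : IsChain (· ≤ ·) c)
    (hne : c.Nonempty) : BddAbove c := by
  classical
  by_cases hmax : ∃ b ∈ c, ∀ a ∈ c, a ≤ b
  · obtain ⟨b, -, hb⟩ := hmax
    exact ⟨b, hb⟩
  push Not at hmax
  have hbig : ∀ b ∈ c, ∃ a ∈ c, b.W ⊂ a.W ∧ (∀ i ∈ b.W, b.x i = a.x i) ∧ a.p ≤ b.p ∧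
      ∀ i ∈ a.W, i ∉ b.W → ∀ y ∈ b.p.1.u, y < a.x i := by
    intro b hb
    obtain ⟨a, ha, hab⟩ := hmax b hb
    rcases hc.total ha hb with h1 | h1
    · exact absurd h1 hab
    · rcases h1 with h1 | h1
      · exact absurd (le_of_eq h1.symm) hab
      · exact ⟨a, ha, h1⟩
  -- `c` is countable
  have hmin : ∀ a : c, (Set.Iio θ \ a.1.W).Nonempty := by
    intro a
    obtain ⟨b, -, hb, -⟩ := hbig a.1 a.2
    obtain ⟨i, hi, hia⟩ := Set.exists_of_ssubset hb
    exact ⟨i, b.sub i hi, hia⟩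
  let m : c → Set.Iio θ := fun a => ⟨(wellFounded_lt (α := Λ)).min _ (hmin a),
    ((wellFounded_lt (α := Λ)).min_mem _ (hmin a)).1⟩
  have hm1 : ∀ a : c, (m a).1 ∉ a.1.W := fun a =>
    ((wellFounded_lt (α := Λ)).min_mem _ (hmin a)).2
  have hm2 : ∀ a : c, ∀ i < (m a).1, i ∈ a.1.W := by
    intro a i hlt
    by_contra hia
    exact (wellFounded_lt (α := Λ)).not_lt_min _
      (⟨lt_trans hlt (m a).2, hia⟩ : i ∈ Set.Iio θ \ a.1.W) hlt
  have hWeq : ∀ a : c, a.1.W = Set.Iio (m a).1 := by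
    intro a
    ext i
    constructor
    · intro hi
      by_contra hcon
      rcases eq_or_lt_of_le (not_lt.1 hcon) with h | h
      · exact hm1 a (h ▸ hi)
      · exact hm1 a (a.1.low i hi _ h)
    · exact fun h => hm2 a i h
  have hinj : Function.Injective m := by
    intro a b hab
    have hW : a.1.W = b.1.W := by rw [hWeq a, hWeq b, hab]
    apply Subtype.ext
    rcases hc.total a.2 b.2 with h | h
    · rcases h with h | h
      · exact h
      · exact absurd hW h.1.ne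
    · rcases h with h | h
      · exact h.symm
      · exact absurd hW.symm h.1.ne
  have hcc : c.Countable := by
    have := hθ.to_subtype
    exact hinj.countable
  -- the limit
  let E : Set (PO X Λ) := (fun a : GS p0 A D θ => a.p) '' c
  have hEc : E.Countable := hcc.image _
  have hdir : ∀ a ∈ E, ∀ b ∈ E, ∃ c ∈ E, c ≤ a ∧ c ≤ b := by
    rintro _ ⟨a, ha, rfl⟩ _ ⟨b, hb, rfl⟩
    rcases hc.total ha hb with h | h
    · exact ⟨_, ⟨b, hb, rfl⟩, (gs_weak h).2.2, le_rfl⟩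
    · exact ⟨_, ⟨a, ha, rfl⟩, le_rfl, (gs_weak h).2.2⟩
  obtain ⟨hok, hle, hub⟩ := lim_spec hEc hdir
  let q : PO X Λ := ⟨limC E, hok⟩
  have hqle : ∀ a ∈ c, q ≤ a.p := fun a ha => hle a.p ⟨a, ha, rfl⟩
  let W : Set Λ := {i | ∃ a ∈ c, i ∈ a.W}
  let x : Λ → X := fun i => if h : ∃ a ∈ c, i ∈ a.W then h.choose.x i else hne.choose.x i
  have hx : ∀ a ∈ c, ∀ i ∈ a.W, a.x i = x i := by
    intro a ha i hi
    have h : ∃ a ∈ c, i ∈ a.W := ⟨a, ha, hi⟩
    have h1 : x i = h.choose.x i := dif_pos h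
    rw [h1]
    rcases hc.total ha h.choose_spec.1 with h2 | h2
    · exact (gs_weak h2).2.1 i hi
    · exact ((gs_weak h2).2.1 i h.choose_spec.2).symm
  have himg : ∀ a ∈ c, ∀ i ∈ a.W, a.x '' Set.Iio i = x '' Set.Iio i := by
    intro a ha i hi
    exact Set.image_congr fun k hk => hx a ha k (a.low i hi k hk)
  have hxy : ∀ y ∈ q.1.u, ∃ i ∈ W, y < x i := by
    intro y hy
    obtain ⟨_, ⟨a, ha, rfl⟩, z, hz, hyz⟩ := hub y hy
    obtain ⟨b, hb, hab, -, -, h4⟩ := hbig a ha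
    obtain ⟨i, hi, hia⟩ := Set.exists_of_ssubset hab
    refine ⟨i, ⟨b, hb, hi⟩, ?_⟩
    rw [← hx b hb i hi]
    exact lt_of_le_of_lt hyz (h4 i hi hia z hz)
  obtain ⟨a0, ha0⟩ := hne
  refine ⟨⟨W, x, q, ?_, ?_, ?_, (hqle a0 ha0).trans a0.le, ?_, ?_, fun _ _ => hxy⟩,
    fun a ha => ?_⟩
  · rintro i ⟨a, ha, hi⟩
    exact a.sub i hi
  · rintro i ⟨a, ha, hi⟩ k hk
    exact ⟨a, ha, a.low i hi k hk⟩
  · rintro i ⟨a, ha, hi⟩ k - hki
    have hk := a.low i hi k hki
    rw [← hx a ha i hi, ← hx a ha k hk]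
    exact a.mono i hi k hk hki
  · rintro i ⟨a, ha, hi⟩ hlim
    obtain ⟨h1, h2, h3⟩ := a.limc i hi hlim
    rw [himg a ha i hi] at h1 h3
    rw [hx a ha i hi] at h1 h2 h3
    refine ⟨h1, (hqle a ha).1 h2, ?_⟩
    have hcof : CofOmega (x i) := by
      have hcount : (x '' Set.Iio i).Countable := by
        refine (hθ.mono fun k hk => lt_trans hk (a.sub i hi)).image _
      have hlt : ∀ k < i, x k < x i := by
        intro k hk
        rw [← hx a ha i hi, ← hx a ha k (a.low i hi k hk)]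
        exact a.mono i hi k (a.low i hi k hk) hk
      refine cofOmega_of_unb hcount ⟨?_, fun z hz => ?_⟩
      · obtain ⟨k, hk⟩ := hlim.1
        exact ⟨x k, hlt k hk⟩
      · by_contra hcon
        push Not at hcon
        refine absurd hz (not_lt.2 (h1.2 ?_))
        rintro _ ⟨k, hk, rfl⟩
        by_contra hzk
        exact absurd (hcon (x k) ⟨k, hk, rfl⟩ (not_le.1 hzk)) (not_le.2 (hlt k hk))
    rw [c_eq (hqle a ha) h2 hcof]
    exact h3
  · rintro k ⟨a', ha', hk'⟩ i ⟨a, ha, hi⟩ hki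
    have hk := a.low i hi k hki.lt
    obtain ⟨h1, d, h2, h3, h4⟩ := a.suc k hk i hi hki
    rw [hx a ha i hi] at h1 h3
    rw [hx a ha k hk] at h2
    exact ⟨down_meets _ _ h1 _ (hqle a ha), d, h2, h3, down_meets _ _ h4 _ (hqle a ha)⟩
  · obtain ⟨b, hb, hab, -⟩ := hbig a ha
    refine Or.inr ⟨lt_of_lt_of_le hab fun i hi => ⟨b, hb, hi⟩, fun i hi => hx a ha i hi,
      hqle a ha, ?_⟩
    rintro i ⟨b', hb', hi⟩ hia y hy
    rcases hc.total ha hb' with h | h
    · rcases h with h | h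
      · subst h
        exact absurd hi hia
      · change y < x i
        rw [← hx b' hb' i hi]
        exact h.2.2.2 i hi hia y hy
    · exact absurd ((gs_weak h).1 hi) hia

theorem gs_step (hθ : (Set.Iio θ).Countable) (hθl : Lim θ)
    (hl : ∀ S : Set X, S.Countable → ∃ b, ∀ x ∈ S, x < b)
    (hA : ∀ i, p0 ∈ FUnbounded (A i)) (hD : p0 ∈ FUnbounded D)
    (a : GS p0 A D θ) (h : a.W ≠ Set.Iio θ) : ∃ b : GS p0 A D θ, a ≤ b ∧ a.W ⊂ b.W := by
  classical
  have hne : (Set.Iio θ \ a.W).Nonempty := by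
    by_contra h'
    rw [Set.not_nonempty_iff_eq_empty, Set.sdiff_eq_empty] at h'
    exact h (Set.Subset.antisymm (fun i hi => a.sub i hi) h')
  let i : Λ := (wellFounded_lt (α := Λ)).min _ hne
  have hi : i ∈ Set.Iio θ \ a.W := (wellFounded_lt (α := Λ)).min_mem _ hne
  have hi2 : ∀ k < i, k ∈ a.W := by
    intro k hlt
    by_contra hia
    exact (wellFounded_lt (α := Λ)).not_lt_min _
      (⟨lt_trans hlt hi.1, hia⟩ : k ∈ Set.Iio θ \ a.W) hlt
  have hWi : ∀ k ∈ a.W, k < i := by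
    intro k hk
    by_contra hcon
    rcases eq_or_lt_of_le (not_lt.1 hcon) with h | h
    · exact hi.2 (h ▸ hk)
    · exact hi.2 (a.low k hk i h)
  -- general construction
  have main : ∀ (q : PO X Λ) (z : X), q ≤ a.p → (∀ y ∈ a.p.1.u, y < z) → (∀ k ∈ a.W, a.x k < z) →
      (Lim i → IsLUB (a.x '' Set.Iio i) z ∧ z ∈ q.1.u ∧ q.1.c z = a.x '' Set.Iio i) →
      (∀ k ∈ a.W, k ⋖ i → q ∈ meets (A k z) ∧ ∃ d, a.x k < d ∧ d < z ∧ q ∈ meets (D d)) →
      ∃ b : GS p0 A D θ, a ≤ b ∧ a.W ⊂ b.W := by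
    intro q z hq hyz hkz hlim hsuc
    have e1 : ∀ k ∈ a.W, Function.update a.x i z k = a.x k := fun k hk =>
      Function.update_of_ne (ne_of_lt (hWi k hk)) _ _
    have e2 : Function.update a.x i z i = z := Function.update_self _ _ _
    have e3 : ∀ k, k ∈ a.W ∨ k = i → Function.update a.x i z '' Set.Iio k = a.x '' Set.Iio k := by
      intro k hk
      refine Set.image_congr fun l hl' => e1 l ?_
      rcases hk with hk | rfl
      · exact a.low k hk l hl'
      · exact hi2 l hl'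
    refine ⟨⟨insert i a.W, Function.update a.x i z, q, ?_, ?_, ?_, hq.trans a.le, ?_, ?_, ?_⟩,
      Or.inr ⟨Set.ssubset_insert hi.2, fun k hk => (e1 k hk).symm, hq, ?_⟩,
      Set.ssubset_insert hi.2⟩
    · rintro k (rfl | hk)
      · exact hi.1
      · exact a.sub k hk
    · rintro k (rfl | hk) l hlk
      · exact Or.inr (hi2 l hlk)
      · exact Or.inr (a.low k hk l hlk)
    · rintro k (rfl | hk) l (rfl | hl') hlk
      · exact absurd hlk (lt_irrefl _)
      · rw [e2, e1 l hl']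
        exact hkz l hl'
      · exact absurd (hlk.trans (hWi k hk)) (lt_irrefl _)
      · rw [e1 k hk, e1 l hl']
        exact a.mono k hk l hl' hlk
    · rintro k (rfl | hk) hlk
      · rw [e3 _ (Or.inr rfl), e2]
        exact hlim hlk
      · rw [e3 k (Or.inl hk), e1 k hk]
        obtain ⟨h1, h2, h3⟩ := a.limc k hk hlk
        refine ⟨h1, hq.1 h2, ?_⟩
        have hcount : (a.x '' Set.Iio k).Countable :=
          (hθ.mono fun l hl' => lt_trans hl' (a.sub k hk)).image _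
        have hlt : ∀ l < k, a.x l < a.x k := fun l hl' => a.mono k hk l (a.low k hk l hl') hl'
        have hcof : CofOmega (a.x k) := by
          refine cofOmega_of_unb hcount ⟨?_, fun w hw => ?_⟩
          · obtain ⟨l, hl'⟩ := hlk.1
            exact ⟨a.x l, hlt l hl'⟩
          · by_contra hcon
            push Not at hcon
            refine absurd hw (not_lt.2 (h1.2 ?_))
            rintro _ ⟨l, hl', rfl⟩
            by_contra hzk
            exact absurd (hcon (a.x l) ⟨l, hl', rfl⟩ (not_le.1 hzk)) (not_le.2 (hlt l hl'))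
        rw [c_eq hq h2 hcof]
        exact h3
    · rintro k (rfl | hk) l (rfl | hl') hkl
      · exact absurd hkl.lt (lt_irrefl _)
      · exact absurd (hkl.lt.trans (hWi l hl')) (lt_irrefl _)
      · rw [e2, e1 k hk]
        exact hsuc k hk hkl
      · rw [e1 k hk, e1 l hl']
        obtain ⟨h1, d, h2, h3, h4⟩ := a.suc k hk l hl' hkl
        exact ⟨down_meets _ _ h1 _ hq, d, h2, h3, down_meets _ _ h4 _ hq⟩
    · intro _ hno
      exfalso
      apply hno
      refine ⟨i, Or.inl rfl, ?_⟩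
      rintro k (rfl | hk)
      · exact le_rfl
      · exact (hWi k hk).le
    · rintro k (rfl | hk) hka y hy
      · change y < Function.update a.x _ z _
        rw [e2]
        exact hyz y hy
      · exact absurd hk hka
  by_cases hWne : a.W.Nonempty
  · by_cases hmax : ∃ m ∈ a.W, ∀ k ∈ a.W, k ≤ m
    · obtain ⟨m, hm, hmm⟩ := hmax
      have hmi : m ⋖ i := ⟨hWi m hm, fun k hmk hki => absurd (hmm k (hi2 k hki)) (not_le.2 hmk)⟩
      obtain ⟨b, hb⟩ := hl (a.p.1.u ∪ a.x '' Set.Iio i) (a.p.2.1.cu.union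
        ((hθ.mono fun l hl' => lt_trans hl' hi.1).image _))
      obtain ⟨p1, hp1, d, hbd, hd⟩ := unbounded_of (down_FUnbounded D _ hD _ a.le) b
      obtain ⟨p2, hp2, z, hdz, hz⟩ := unbounded_of
        (down_FUnbounded (A m) _ (hA m) _ (hp1.trans a.le)) d
      have hbz : b < z := hbd.trans hdz
      refine main p2 z (hp2.trans hp1) (fun y hy => (hb y (Or.inl hy)).trans hbz)
        (fun k hk => (hb _ (Or.inr ⟨k, hWi k hk, rfl⟩)).trans hbz) ?_ ?_
      · intro hlim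
        exfalso
        obtain ⟨k, h1, h2⟩ := hlim.2 m hmi.lt
        exact hmi.2 h1 h2
      · intro k hk hki
        have hkm : k = m := by
          rcases lt_trichotomy k m with h | h | h
          · exact absurd hmi.lt (hki.2 h)
          · exact h
          · exact absurd (hmm k hk) (not_le.2 h)
        subst hkm
        exact ⟨hz, d, (hb _ (Or.inr ⟨k, hWi k hk, rfl⟩)).trans hbd, hdz,
          down_meets _ _ hd _ hp2⟩
    · obtain ⟨α, h1, h2, h3, q, hq, h4, h5⟩ := lim_point hl a.W a.x a.p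
        (hθ.mono fun k hk => a.sub k hk) a.low a.mono a.limc (a.bd hWne hmax) hWne hmax
      have hWeq : a.W = Set.Iio i := by
        ext k
        exact ⟨fun hk => hWi k hk, fun hk => hi2 k hk⟩
      push Not at hmax
      refine main q α hq h3 (fun k hk => ?_) (fun _ => ?_) (fun k hk hki => ?_)
      · obtain ⟨l, hl', hkl⟩ := hmax k hk
        exact (a.mono l hl' k hk hkl).trans_le (h1.1 ⟨l, hl', rfl⟩)
      · rw [← hWeq]
        exact ⟨h1, h4, h5⟩
      · exfalso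
        obtain ⟨l, hl', hkl⟩ := hmax k hk
        exact hki.2 hkl (hWi l hl')
  · rw [Set.not_nonempty_iff_eq_empty] at hWne
    obtain ⟨b, hb⟩ := hl a.p.1.u a.p.2.1.cu
    refine main a.p b le_rfl hb (fun k hk => ?_) (fun hlim => ?_) (fun k hk => ?_)
    · rw [hWne] at hk
      exact hk.elim
    · exfalso
      obtain ⟨k, hk⟩ := hlim.1
      have := hi2 k hk
      rw [hWne] at this
      exact this
    · rw [hWne] at hk
      exact hk.elim

theorem guess (hΛ : ∀ i : Λ, (Set.Iio i).Countable)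
    (hl : ∀ S : Set X, S.Countable → ∃ b, ∀ x ∈ S, x < b) (p : PO X Λ) :
    p ∈ FGuess Λ (CName X Λ) := by
  classical
  intro A
  refine mem_fimp.2 fun q _ hA => ⟨q, le_rfl, fun θ hθ D => mem_fimp.2 fun p0 hp0 hD => ?_⟩
  have hA' : ∀ i, p0 ∈ FUnbounded (A i) := fun i => down_FUnbounded _ _ (hA i) _ hp0
  obtain ⟨x0, -⟩ := hl ∅ Set.countable_empty
  have hne : Nonempty (GS p0 A D θ) := ⟨⟨∅, fun _ => x0, p0, fun i hi => hi.elim,
    fun i hi => hi.elim, fun i hi => hi.elim, le_rfl, fun i hi => hi.elim,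
    fun i hi => hi.elim, fun h => absurd h Set.not_nonempty_empty⟩⟩
  obtain ⟨m, hm⟩ := zorn_le_nonempty (α := GS p0 A D θ) fun c hc hne => gs_chain (hΛ θ) c hc hne
  have hW : m.W = Set.Iio θ := by
    by_contra h
    obtain ⟨b, h1, h2⟩ := gs_step (hΛ θ) hθ hl hA' hD.1 m h
    exact absurd ((gs_weak (hm h1)).1) h2.2
  have hWne : m.W.Nonempty := by
    rw [hW]
    exact hθ.1
  have hmax : ¬ ∃ k ∈ m.W, ∀ i ∈ m.W, i ≤ k := by
    rintro ⟨k, hk, hmk⟩
    obtain ⟨l, hl1, hl2⟩ := hθ.2 k (m.sub k hk)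
    have : l ∈ m.W := by
      rw [hW]
      exact hl2
    exact absurd (hmk l this) (not_le.2 hl1)
  obtain ⟨α, h1, h2, h3, r, hr, h4, h5⟩ := lim_point hl m.W m.x m.p
    ((hΛ θ).mono fun k hk => m.sub k hk) m.low m.mono m.limc (m.bd hWne hmax) hWne hmax
  rw [hW] at h1 h5
  have hIio : ∀ {i}, i < θ → i ∈ m.W := fun h => by
    rw [hW]
    exact h
  have hval : ∀ (r' : PO X Λ) (i : Λ) (x : X),
      r' ∈ meets {_p : PO X Λ | i < θ ∧ x = m.x i} → i < θ ∧ x = m.x i := by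
    intro r' i x h
    obtain ⟨_, _, _, hs, _⟩ := h r' le_rfl
    exact hs
  refine ⟨r, hr.trans m.le, mem_fex_of_mem α (down_fand (down_fground _) (down_fex _))
    ⟨h2.limPt, ?_⟩⟩
  refine mem_fex_of_mem (fun i x => {_p : PO X Λ | i < θ ∧ x = m.x i}) ?_ ⟨?_, ?_⟩
  · exact down_fand (down_fand (down_fall fun _ => down_fall fun _ => down_fex _)
      (down_fand (down_fall fun _ => down_fall fun _ => down_fimp _ _)
        (down_fand (down_fall fun _ => down_fall fun _ => down_fall fun _ => down_fall fun _ =>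
          down_fimp _ _) (down_fall fun _ => down_fiff _ _))))
      (down_fall fun _ => down_fall fun _ => down_fall fun _ => down_fall fun _ =>
        down_fall fun _ => down_fimp _ _)
  · refine ⟨fun i hi => mem_fex_of_mem (m.x i) (down_meets _) (meets_of_mem ⟨hi, rfl⟩),
      fun i x => mem_fimp.2 fun q' _ hq' => ⟨q', le_rfl, (hval q' i x hq').1⟩,
      fun i j x y => mem_fimp.2 fun q' _ hq' => ⟨q', le_rfl, ?_⟩, fun x => ⟨?_, ?_⟩⟩
    · obtain ⟨hi, rfl⟩ := hval q' i x hq'.1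
      obtain ⟨hj, rfl⟩ := hval q' j y hq'.2
      exact ⟨fun hij => m.mono j (hIio hj) i (hIio hi) hij, fun hij => by rw [hij]⟩
    · refine mem_fimp.2 fun q' hq' hx => ⟨q', le_rfl, ?_⟩
      have hx' := dec_full hq' h4 h2 hx
      rw [h5] at hx'
      obtain ⟨i, hi, rfl⟩ := hx'
      exact mem_fex_of_mem i (down_meets _) (meets_of_mem ⟨hi, rfl⟩)
    · refine mem_fimp.2 fun q' hq' hx => ?_
      obtain ⟨r', hr', i, hi⟩ := mem_fex.1 hx q' le_rfl
      obtain ⟨hiθ, rfl⟩ := hval r' i x hi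
      refine ⟨r', hr', meets_of_le (s := r) (⟨h4, ?_⟩ : r ∈ CName X Λ α (m.x i)) (hr'.trans hq')⟩
      rw [h5]
      exact ⟨i, hiθ, rfl⟩
  · intro i j hij x y
    refine mem_fimp.2 fun q' hq' hxy => ⟨q', le_rfl, ?_⟩
    obtain ⟨hi, rfl⟩ := hval q' i x hxy.1
    obtain ⟨hj, rfl⟩ := hval q' j y hxy.2
    obtain ⟨k1, d, k2, k3, k4⟩ := m.suc i (hIio hi) j (hIio hj) hij
    have hqm : q' ≤ m.p := hq'.trans hr
    exact ⟨down_meets _ _ k1 _ hqm, mem_fex_of_mem d (down_fand (down_fground _) (down_meets _))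
      ⟨⟨k2, k3⟩, down_meets _ _ k4 _ hqm⟩⟩

end Pool.Agent.R583.O
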