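import Mathlib
import Pool.Agent.R583.OGuess
import Pool.Agent.R583.OCC
import Pool.Agent.R583.DFinal
set_option autoImplicit false
set_option linter.unusedSectionVars false

/-!
# Cardinal arithmetic in the extension
-/

namespace Pool.Agent.R583.O

open Cardinal Pool.Agent.Helper669.Forcing Pool.Agent.Helper669.K Pool.Agent.R583.DDefs
  Pool.Agent.R583.ODefs Pool.Agent.R583.D

variable {X Λ : Type} [LinearOrder X]

open Classical in
/-- changing one value -/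
noncomputable def setG (p : PC X Λ) (j : X × Set X) (i : Λ) (v : X) : PC X Λ :=
  ⟨p.u, p.c, fun j' i' => if j' = j ∧ i' = i then some v else p.g j' i'⟩

theorem setG_self (p : PC X Λ) (j : X × Set X) (i : Λ) (v : X) :
    (setG p j i v).g j i = some v := if_pos ⟨rfl, rfl⟩

theorem setG_of_ne (p : PC X Λ) {j j' : X × Set X} {i i' : Λ} (v : X) (h : ¬ (j' = j ∧ i' = i)) :
    (setG p j i v).g j' i' = p.g j' i' := if_neg h

theorem setG_ok (p : PO X Λ) (j : X × Set X) (i : Λ) (v : X) (hv : v ≤ j.1) :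
    Ok (setG p.1 j i v) := by
  refine ⟨p.2.1, p.2.2.1, ?_, ?_⟩
  · refine (p.2.2.2.1.insert (j, i)).mono ?_
    rintro ⟨j', i'⟩ h
    by_cases h' : j' = j ∧ i' = i
    · left
      rw [h'.1, h'.2]
    · right
      have h2 : (setG p.1 j i v).g j' i' ≠ none := h
      rw [setG_of_ne p.1 v h'] at h2
      exact h2
  · intro j' i' w hw
    by_cases h' : j' = j ∧ i' = i
    · obtain ⟨rfl, rfl⟩ := h'
      rw [setG_self] at hw
      rw [← Option.some.inj hw]
      exact hv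
    · rw [setG_of_ne p.1 v h'] at hw
      exact p.2.2.2.2 j' i' w hw

theorem setG_le (p q : PO X Λ) (hpq : p ≤ q) (j : X × Set X) (i : Λ) (v : X) (hv : v ≤ j.1)
    (hq : q.1.g j i = none) : (⟨setG p.1 j i v, setG_ok p j i v hv⟩ : PO X Λ) ≤ q := by
  refine ⟨hpq.1, hpq.2.1, fun j' i' w hw => ?_⟩
  by_cases h' : j' = j ∧ i' = i
  · obtain ⟨rfl, rfl⟩ := h'
    rw [hq] at hw
    exact absurd hw (by simp)
  · change (setG p.1 j i v).g j' i' = some w
    rw [setG_of_ne p.1 v h']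
    exact hpq.2.2 j' i' w hw

theorem exists_fresh (hΛ : ¬ (Set.univ : Set Λ).Countable) (p : PO X Λ) (j : X × Set X) :
    ∃ i, p.1.g j i = none := by
  by_contra hcon
  push Not at hcon
  apply hΛ
  have h : (Set.univ : Set Λ) ⊆ Prod.snd '' {k : (X × Set X) × Λ | p.1.g k.1 k.2 ≠ none} :=
    fun i _ => ⟨(j, i), hcon i, rfl⟩
  exact (p.2.2.2.1.image _).mono h

/-- the initial segments of `X` are collapsed -/
theorem collapse (hΛ : ¬ (Set.univ : Set Λ).Countable) (x : X) (p : PO X Λ) :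
    p ∈ FImage (PO X Λ) Λ (Set.Iic x) := by
  refine mem_fex_of_mem (fun i y => {p : PO X Λ | p.1.g (x, ∅) i = some y.1})
    (down_fand (down_IsFun _) (down_IsOnto _))
    ⟨⟨fun i => mem_fex.2 fun q _ => ?_, fun i y y' => mem_fimp.2 fun q _ hq => ⟨q, le_rfl, ?_⟩⟩,
      fun y => mem_fex.2 fun q _ => ?_⟩
  · rcases hv : q.1.g (x, ∅) i with _ | v
    · exact ⟨⟨setG q.1 (x, ∅) i x, setG_ok q _ i x le_rfl⟩, setG_le q q le_rfl _ i x le_rfl hv,
        ⟨x, le_rfl⟩, meets_of_mem (setG_self _ _ _ _)⟩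
    · exact ⟨q, le_rfl, ⟨v, q.2.2.2.2 _ i v hv⟩, meets_of_mem hv⟩
  · obtain ⟨r1, hr1, s1, hs1, h1⟩ := hq.1 q le_rfl
    obtain ⟨r2, hr2, s2, hs2, h2⟩ := hq.2 r1 hr1
    have h3 := (hr2.trans h1).2.2 _ i _ hs1
    have h4 := h2.2.2 _ i _ hs2
    rw [h3] at h4
    exact Subtype.ext (Option.some.inj h4)
  · obtain ⟨i, hi⟩ := exists_fresh hΛ q (x, ∅)
    exact ⟨⟨setG q.1 (x, ∅) i y.1, setG_ok q _ i y.1 y.2⟩, setG_le q q le_rfl (x, ∅) i y.1 y.2 hi,
      i, meets_of_mem (setG_self _ _ _ _)⟩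

theorem no_pow {M : Type} (e : ∀ a : X, Set.Iic a ↪ M) (hM : #M ^ ℵ₀ = #M) (hM2 : 2 ≤ #M)
    (hMX : #M ≤ #X) (hΛX : #Λ ≤ #X) (hΛ : ¬ (Set.univ : Set Λ).Countable) {x0 x1 : X}
    (hx : x0 < x1) (p : PO X Λ) : p ∈ fnot (FPowLe (PO X Λ) Λ X) := by
  classical
  have iX : Nonempty X := ⟨x0⟩
  intro q _ hF
  obtain ⟨r, -, Z, hZ⟩ := mem_fex.1 hF q le_rfl
  have hinf := (card_KK hM hM2).1
  have hW := fun xa : X × Λ => Pool.Agent.Helper539.LadAnti.exists_maximal_antichain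
    {u : PO X Λ | u ∈ meets (Z xa.1 xa.2) ∨ u ∈ fnot (meets (Z xa.1 xa.2))}
  choose W hW1 hW2 hW3 using hW
  have hWM : ∀ xa, #(W xa) ≤ #M := by
    intro xa
    by_contra hcon
    obtain ⟨i, j, hij, r, h1, h2⟩ := cc e hM hM2 (W xa) (fun w => w.1) (not_le.1 hcon)
    exact hij (Subtype.ext (hW2 xa i.1 i.2 j.1 j.2 ⟨r, h1, h2⟩))
  have hemb : ∀ xa, Nonempty (W xa ↪ M) := fun xa => (Cardinal.le_def _ _).1 (hWM xa)
  let V : Set (X × Set X) := {k | ∃ xa : X × Λ, ∃ w ∈ W xa, ∃ i, w.1.g k i ≠ none}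
  have hS : ∀ w : PO X Λ, ∃ f : X × Set X → ℕ, Set.InjOn f {k | ∃ i, w.1.g k i ≠ none} := by
    intro w
    have : {k | ∃ i, w.1.g k i ≠ none}.Countable := by
      refine (w.2.2.2.1.image Prod.fst).mono ?_
      rintro k ⟨i, hi⟩
      exact ⟨(k, i), hi, rfl⟩
    exact Set.countable_iff_exists_injOn.1 this
  choose fw hfw using hS
  have hVc : #V ≤ #X := by
    have h1 : ∀ v : V, ∃ xa : X × Λ, ∃ w : W xa, ∃ i, w.1.1.g v.1 i ≠ none := by
      rintro ⟨k, xa, w, hw, hi⟩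
      exact ⟨xa, ⟨w, hw⟩, hi⟩
    choose xa w hw using h1
    have hinj : Function.Injective fun v : V => (xa v, (hemb (xa v)).some (w v), fw (w v).1 v.1) := by
      intro v v' h
      simp only [Prod.mk.injEq] at h
      obtain ⟨h1, h2, h3⟩ := h
      have key : ∀ (a b : X × Λ) (hab : a = b) (s : W a) (s' : W b),
          (hemb a).some s = (hemb b).some s' → s.1 = s'.1 := by
        intro a b hab s s' hss
        subst hab
        rw [(hemb a).some.injective hss]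
      have h4 := key _ _ h1 _ _ h2
      rw [← h4] at h3
      refine Subtype.ext (hfw _ (hw v) ?_ h3)
      have h5 := hw v'
      rw [← h4] at h5
      exact h5
    have hle := Cardinal.mk_le_of_injective hinj
    simp only [Cardinal.mk_prod, Cardinal.lift_id, Cardinal.mk_nat] at hle
    have hXinf : ℵ₀ ≤ #X := hinf.trans hMX
    refine hle.trans ?_
    exact Cardinal.mul_le_of_le hXinf (Cardinal.mul_le_of_le hXinf le_rfl hΛX)
      (Cardinal.mul_le_of_le hXinf hMX hXinf)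
  obtain ⟨A, hA⟩ : ∃ A : Set X, (x1, A) ∉ V := by
    by_contra hcon
    push Not at hcon
    have hinj : Function.Injective fun A : Set X => (⟨(x1, A), hcon A⟩ : V) := by
      intro A A' h
      exact congrArg Prod.snd (congrArg Subtype.val h)
    have h1 := (Cardinal.mk_le_of_injective hinj).trans hVc
    rw [Cardinal.mk_set] at h1
    exact absurd h1 (not_le.2 (Cardinal.cantor _))
  obtain ⟨r1, hr1, x, hr1x⟩ := mem_fex.1
    (hZ fun a => {p : PO X Λ | p.1.g (x1, A) a = some x0}) r le_rfl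
  obtain ⟨a, ha⟩ := exists_fresh hΛ r1 (x1, A)
  obtain ⟨u0, hu0, hu0D⟩ : ∃ u ≤ r1, u ∈ meets (Z x a) ∨ u ∈ fnot (meets (Z x a)) := by
    by_cases h : ∃ u ≤ r1, u ∈ meets (Z x a)
    · obtain ⟨u, hu, h⟩ := h
      exact ⟨u, hu, Or.inl h⟩
    · push Not at h
      exact ⟨r1, le_rfl, Or.inr h⟩
  obtain ⟨w, hw, u, huu0, huw⟩ := hW3 (x, a) u0 hu0D
  have hwg : w.1.g (x1, A) a = none := by
    by_contra hne
    exact hA ⟨(x, a), w, hw, a, hne⟩
  have hur1 : u ≤ r1 := huu0.trans hu0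
  rcases hW1 (x, a) hw with hwZ | hwZ
  · let v : PO X Λ := ⟨setG u.1 (x1, A) a x1, setG_ok u _ a x1 le_rfl⟩
    have hv1 : v ≤ r1 := setG_le u r1 hur1 _ a x1 le_rfl ha
    have hv2 : v ≤ w := setG_le u w huw _ a x1 le_rfl hwg
    obtain ⟨v1, hv1', hv1B⟩ := mem_fimp.1 (hr1x a).2 v hv1 (down_meets _ _ hwZ _ hv2)
    obtain ⟨v2, hv2', s, hs, hvs⟩ := hv1B v1 le_rfl
    have h1 := hvs.2.2 _ a _ hs
    have h2 := (hv2'.trans hv1').2.2 _ a _ (setG_self u.1 (x1, A) a x1)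
    rw [h1] at h2
    exact absurd (Option.some.inj h2) (ne_of_lt hx)
  · let v : PO X Λ := ⟨setG u.1 (x1, A) a x0, setG_ok u _ a x0 hx.le⟩
    have hv1 : v ≤ r1 := setG_le u r1 hur1 _ a x0 hx.le ha
    have hv2 : v ≤ w := setG_le u w huw _ a x0 hx.le hwg
    obtain ⟨v1, hv1', hv1B⟩ := mem_fimp.1 (hr1x a).1 v hv1 (meets_of_mem (setG_self _ _ _ _))
    exact hwZ v1 (hv1'.trans hv2) hv1B

theorem mk_Iio_ord {κ : Cardinal.{0}} (a : κ.ord.ToType) : #(Set.Iio a) < κ := by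
  simpa using mk_Iio_lt a

/-- order types of countable sets -/
theorem exists_rank {X : Type} [LinearOrder X] [WellFoundedLT X] :
    ∃ R : Set X → (ℵ₁ : Cardinal.{0}).ord.ToType,
      ∀ t : Set X, t.Countable → ∀ x ∈ t, R (t ∩ Set.Iio x) < R t := by
  classical
  have hty : ∀ t : Set X, t.Countable →
      Ordinal.type (fun a b : t => a < b) < (ℵ₁ : Cardinal.{0}).ord := by
    intro t ht
    rw [Cardinal.lt_ord, Ordinal.card_type]
    exact lt_of_le_of_lt (Cardinal.le_aleph0_iff_set_countable.2 ht) Cardinal.aleph0_lt_aleph_one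
  have h0 : (0 : Ordinal) < (ℵ₁ : Cardinal.{0}).ord := by
    rw [Cardinal.lt_ord, Ordinal.card_zero]
    exact Cardinal.aleph0_pos.trans Cardinal.aleph0_lt_aleph_one
  refine ⟨fun t => if h : t.Countable then
      Ordinal.ToType.mk (⟨Ordinal.type (fun a b : t => a < b), hty t h⟩ :
        Set.Iio (ℵ₁ : Cardinal.{0}).ord)
    else Ordinal.ToType.mk (⟨0, h0⟩ : Set.Iio (ℵ₁ : Cardinal.{0}).ord), fun t ht x hx => ?_⟩
  have ht' : (t ∩ Set.Iio x).Countable := ht.mono Set.inter_subset_left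
  dsimp only
  rw [dif_pos ht, dif_pos ht', OrderIso.lt_iff_lt]
  change Ordinal.type (fun a b : (t ∩ Set.Iio x : Set X) => a < b) <
    Ordinal.type (fun a b : t => a < b)
  rw [Ordinal.type_lt_iff]
  refine ⟨⟨⟨⟨fun y => ⟨y.1, y.2.1⟩, fun y y' h => Subtype.ext (congrArg (fun z : t => z.1) h)⟩,
    fun {a b} => Iff.rfl⟩, ⟨x, hx⟩, fun y => ?_⟩⟩
  constructor
  · rintro ⟨z, rfl⟩
    exact z.2.2
  · intro h
    exact ⟨⟨y.1, y.2, h⟩, rfl⟩

theorem main : ∃ μ : Cardinal.{0}, ℵ₁ < μ ∧ ∃ (P : Type) (_ : Preorder P), Nonempty P ∧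
    ∀ p : P, p ∈ StaysRegular P ℵ₁ ∧ p ∈ StaysRegular P μ ∧
      p ∈ (fall fun x : μ.ord.ToType => FImage P (ℵ₁ : Cardinal.{0}).ord.ToType (Set.Iic x)) ∧
      p ∈ fnot (FPowLe P (ℵ₁ : Cardinal.{0}).ord.ToType μ.ord.ToType) ∧
      p ∈ FOstaszewski P (ℵ₁ : Cardinal.{0}).ord.ToType μ.ord.ToType := by
  classical
  let c : Cardinal.{0} := 2 ^ ℵ₀
  let μ : Cardinal.{0} := Order.succ c
  have hc : ℵ₀ ≤ c := (Cardinal.cantor ℵ₀).le
  have hμ : μ.IsRegular := Cardinal.isRegular_succ hc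
  have h1c : ℵ₁ ≤ c := by
    rw [← Cardinal.succ_aleph0]
    exact Order.succ_le_of_lt (Cardinal.cantor ℵ₀)
  have h1μ : ℵ₁ < μ := lt_of_le_of_lt h1c (Order.lt_succ c)
  let X : Type := μ.ord.ToType
  let Λ : Type := (ℵ₁ : Cardinal.{0}).ord.ToType
  have hXμ : #X = μ := mk_ord_toType μ
  have hΛ1 : #Λ = ℵ₁ := mk_ord_toType ℵ₁
  let M : Type := Set ℕ
  have hMc : #M = c := by rw [Cardinal.mk_set, Cardinal.mk_nat]
  have hM : #M ^ ℵ₀ = #M := by
    rw [hMc, ← Cardinal.power_mul, Cardinal.aleph0_mul_aleph0]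
  have hM2 : 2 ≤ #M := by
    rw [hMc]
    exact (Cardinal.ofNat_lt_aleph0 (n := 2)).le.trans hc
  have hXne : Nonempty X := by
    rw [← Cardinal.mk_ne_zero_iff, hXμ]
    exact hμ.pos.ne'
  have he : ∀ a : X, Nonempty (Set.Iic a ↪ M) := by
    intro a
    rw [← Cardinal.le_def, hMc]
    have h3 : #(Set.Iio a) < μ := mk_Iio_ord a
    have h4 : (Set.Iic a) = insert a (Set.Iio a) := by
      ext x
      simp only [Set.mem_Iic, Set.mem_insert_iff, Set.mem_Iio]
      exact le_iff_eq_or_lt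
    rw [h4]
    refine Cardinal.mk_insert_le.trans ?_
    exact Cardinal.add_le_of_le hc (Order.lt_succ_iff.1 h3) (Cardinal.one_le_aleph0.trans hc)
  let e : ∀ a : X, Set.Iic a ↪ M := fun a => (he a).some
  have hb : Bdd X := bdd_ord hμ
  have hl : ∀ S : Set X, S.Countable → ∃ b, ∀ x ∈ S, x < b := by
    intro S hS
    apply hb.bdd
    rw [hXμ]
    exact lt_of_le_of_lt (Cardinal.le_aleph0_iff_set_countable.2 hS)
      (Cardinal.aleph0_lt_aleph_one.trans h1μ)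
  have hΛc : ∀ i : Λ, (Set.Iio i).Countable := by
    intro i
    rw [← Cardinal.le_aleph0_iff_set_countable]
    have h3 : #(Set.Iio i) < ℵ₁ := mk_Iio_ord i
    refine Order.lt_succ_iff.1 (lt_of_lt_of_le h3 ?_)
    rw [Cardinal.succ_aleph0]
  have hΛu : ¬ (Set.univ : Set Λ).Countable := by
    rw [← Cardinal.le_aleph0_iff_set_countable, Cardinal.mk_univ, hΛ1]
    exact not_le.2 Cardinal.aleph0_lt_aleph_one
  obtain ⟨R, hR⟩ := exists_rank (X := X)
  obtain ⟨x0⟩ := hXne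
  obtain ⟨x1, hx⟩ := hb.exists_lt x0
  refine ⟨μ, h1μ, PO X Λ, inferInstance, ?_, fun p => ⟨?_, ?_, ?_, ?_, ?_⟩⟩
  · exact ⟨⟨⟨∅, fun _ => ∅, fun _ _ => none⟩, ⟨Set.countable_empty, fun a ha => ha.elim,
      fun a ha => ha.elim, fun a ha => ha.elim, fun a ha => ha.elim, fun a ha => ha.elim⟩,
      fun a ha => ha.elim, by simp, fun _ _ _ h => by simp at h⟩⟩
  · exact staysRegular_of_dirClosed Cardinal.isRegular_aleph_one dirClosed_PO p
  · refine staysRegular_succ hc (fun ι f hι => ?_) p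
    have iX : Nonempty X := ⟨x0⟩
    exact cc e hM hM2 ι f (by rw [hMc]; exact hι)
  · exact fun x => collapse hΛu x p
  · refine no_pow e hM hM2 ?_ ?_ hΛu hx p
    · rw [hMc, hXμ]
      exact (Order.lt_succ c).le
    · rw [hΛ1, hXμ]
      exact h1μ.le
  · exact mem_fex_of_mem (CName X Λ) (down_fand
      (down_fall fun _ => down_fall fun _ => down_fand (down_fand
        (down_fall fun _ => down_fimp _ _) (down_fand (down_fand (down_fground _)
          (down_fall fun _ => down_fimp _ _)) (down_fall fun _ => down_fimp _ _)))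
        (down_fand (down_fex _) (down_fall fun _ => down_fimp _ _)))
      (down_fall fun _ => down_fimp _ _)) ⟨square hR p, guess hΛc hl p⟩

end Pool.Agent.R583.O
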