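import Mathlib
import Pool.Agent.Helper669.Forcing
set_option autoImplicit false

/-!
# Conditions for generic sets `S` and `T` without `T`-concentrated club guessing on `S`
-/

namespace Pool.Agent.R583.T

open Cardinal

/-- raw conditions: initial segments (below `top`) of a set `s` and of the sets `y j`, `j ∈ supp` -/
@[ext]
structure Cond (X Θ : Type) where
  /-- the decided part consists of the points below `top` -/
  top : X
  /-- the generic set of points -/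
  s : Set X
  /-- the second generic set -/
  t : Set X
  /-- the support -/
  supp : Set Θ
  /-- the coordinates -/
  y : Θ → Set X

section

variable {X Θ : Type} [LinearOrder X]

instance instPreorderCond : Preorder (Cond X Θ) where
  le q p := p.top ≤ q.top ∧ (∀ x < p.top, (x ∈ q.s ↔ x ∈ p.s) ∧ (x ∈ q.t ↔ x ∈ p.t)) ∧
    p.supp ⊆ q.supp ∧ ∀ j ∈ p.supp, ∀ x < p.top, (x ∈ q.y j ↔ x ∈ p.y j)
  le_refl p := ⟨le_rfl, fun _ _ => ⟨Iff.rfl, Iff.rfl⟩, subset_rfl, fun _ _ _ _ => Iff.rfl⟩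
  le_trans r q p h h' := ⟨h'.1.trans h.1,
    fun x hx => ⟨(h.2.1 x (hx.trans_le h'.1)).1.trans (h'.2.1 x hx).1,
      (h.2.1 x (hx.trans_le h'.1)).2.trans (h'.2.1 x hx).2⟩,
    h'.2.2.1.trans h.2.2.1, fun j hj x hx =>
      (h.2.2.2 j (h'.2.2.1 hj) x (hx.trans_le h'.1)).trans (h'.2.2.2 j hj x hx)⟩

theorem le_def {q p : Cond X Θ} : q ≤ p ↔ p.top ≤ q.top ∧
    (∀ x < p.top, (x ∈ q.s ↔ x ∈ p.s) ∧ (x ∈ q.t ↔ x ∈ p.t)) ∧
    p.supp ⊆ q.supp ∧ ∀ j ∈ p.supp, ∀ x < p.top, (x ∈ q.y j ↔ x ∈ p.y j) := Iff.rfl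

/-- restriction of a condition to a set of coordinates -/
def restr (p : Cond X Θ) (U : Set Θ) : Cond X Θ :=
  ⟨p.top, p.s, p.t, p.supp ∩ U, fun j => {x | x ∈ p.y j ∧ j ∈ U}⟩

/-- `γ` has cofinality `ω` -/
def CofOmega (γ : X) : Prop := ∃ f : ℕ → X, (∀ n, f n < γ) ∧ ∀ b < γ, ∃ n, b < f n

/-- `y` is unbounded in `γ` -/
def Unb (y : Set X) (γ : X) : Prop := ∀ b < γ, ∃ x ∈ y, b < x ∧ x < γ

/-- well-formed conditions -/
def WF (p : Cond X Θ) : Prop :=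
  #p.supp < #X ∧ ((∀ x ∈ p.s, x < p.top ∧ CofOmega x) ∧ ∀ x ∈ p.t, x < p.top) ∧
    (∀ j, ∀ x ∈ p.y j, x < p.top) ∧ ∀ j ∉ p.supp, p.y j = ∅

/-- `q` forces (over the set `L` of conditions) that the set named by `Nδ` is cofinal in `δ` and
that its elements below `δ` are limit points of `y` and elements of `t` -/
def ForcesSub (L : Set (Cond X Θ)) (Nδ : X → Set (Cond X Θ)) (q : Cond X Θ) (y t : Set X)
    (δ : X) : Prop :=
  (∀ β < δ, ∀ r ∈ L, r ≤ q → ∃ u ∈ L, u ≤ r ∧ ∃ c, β < c ∧ c < δ ∧ ∃ b ∈ Nδ c, u ≤ b) ∧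
    ∀ c < δ, ¬ (Unb y c ∧ c ∈ t) → ∀ r ∈ L, r ≤ q → ∀ b ∈ Nδ c, ¬ r ≤ b

/-- the requirement at `δ` -/
def Req (L : Set (Cond X Θ)) (Nδ : X → Set (Cond X Θ)) (r : Cond X Θ) (y t : Set X) (δ : X) :
    Prop := ∀ q ∈ L, q ≤ r → ¬ ForcesSub L Nδ q y t δ

variable [LinearOrder Θ]

/-- the requirement on the coordinate `j` -/
def ReqAt (L : Set (Cond X Θ)) (N : Θ → X → X → Set (Cond X Θ)) (j : Θ) (p : Cond X Θ) : Prop :=
  ∀ δ ∈ p.s, Unb (p.y j) δ → Req L (N j δ) (restr p (Set.Iio j)) (p.y j) p.t δ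

variable [WellFoundedLT Θ]

/-- the legal conditions with support below `j`, by recursion on `j` -/
noncomputable def Lg (N : Θ → X → X → Set (Cond X Θ)) : Θ → Set (Cond X Θ) :=
  WellFounded.fix (wellFounded_lt (α := Θ)) fun j ih =>
    {p | WF p ∧ p.supp ⊆ Set.Iio j ∧ ∀ i, ∀ h : i < j, i ∈ p.supp → ReqAt (ih i h) N i p}

/-- the legal conditions -/
def Legal (N : Θ → X → X → Set (Cond X Θ)) (p : Cond X Θ) : Prop :=
  WF p ∧ ∀ i ∈ p.supp, ReqAt (Lg N i) N i p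

end

/-! ### Basic facts -/

section

variable {X Θ : Type} [LinearOrder X]

theorem restr_le (p : Cond X Θ) (U : Set Θ) : p ≤ restr p U := by
  refine ⟨le_rfl, fun _ _ => ⟨Iff.rfl, Iff.rfl⟩, Set.inter_subset_left, fun j hj x _ => ?_⟩
  exact ⟨fun h => ⟨h, hj.2⟩, fun h => h.1⟩

theorem restr_mono {p q : Cond X Θ} (h : q ≤ p) (U : Set Θ) : restr q U ≤ restr p U := by
  refine ⟨h.1, h.2.1, Set.inter_subset_inter_left _ h.2.2.1, fun j hj x hx => ?_⟩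
  exact and_congr_left fun _ => h.2.2.2 j hj.1 x hx

theorem restr_restr (p : Cond X Θ) (U V : Set Θ) : restr (restr p U) V = restr p (U ∩ V) := by
  ext x
  · rfl
  · rfl
  · rfl
  · simp only [restr, Set.mem_inter_iff]
    tauto
  · simp only [restr, Set.mem_inter_iff, Set.mem_ofPred_eq]
    tauto

theorem wf_restr {p : Cond X Θ} (h : WF p) (U : Set Θ) : WF (restr p U) := by
  refine ⟨lt_of_le_of_lt (Cardinal.mk_le_mk_of_subset Set.inter_subset_left) h.1, h.2.1,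
    fun j x hx => h.2.2.1 j x hx.1, fun j hj => ?_⟩
  ext x
  simp only [restr, Set.mem_ofPred_eq, Set.mem_empty_iff_false, iff_false, not_and]
  intro hx hU
  apply hj
  refine ⟨?_, hU⟩
  by_contra hj'
  rw [h.2.2.2 j hj'] at hx
  exact hx

theorem unb_congr {y y' : Set X} {γ : X} (h : ∀ x < γ, (x ∈ y' ↔ x ∈ y)) (hu : Unb y' γ) :
    Unb y γ := by
  intro b hb
  obtain ⟨x, hx, h1, h2⟩ := hu b hb
  exact ⟨x, (h x h2).1 hx, h1, h2⟩

theorem not_unb_empty {γ : X} (hc : CofOmega γ) {y : Set X} (hy : ∀ x < γ, x ∉ y) :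
    ¬ Unb y γ := by
  intro hu
  obtain ⟨f, hf, -⟩ := hc
  obtain ⟨x, hx, -, hxγ⟩ := hu (f 0) (hf 0)
  exact hy x hxγ hx

theorem ForcesSub.congr {L : Set (Cond X Θ)} {Nδ : X → Set (Cond X Θ)} {q : Cond X Θ}
    {y y' t t' : Set X} {δ : X} (h : ForcesSub L Nδ q y t δ) (hy : ∀ x < δ, (x ∈ y' ↔ x ∈ y))
    (ht : ∀ x < δ, (x ∈ t' ↔ x ∈ t)) : ForcesSub L Nδ q y' t' δ := by
  refine ⟨h.1, fun c hc hn => h.2 c hc fun hcon => hn ⟨?_, (ht c hc).2 hcon.2⟩⟩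
  exact unb_congr (fun x hx => (hy x (hx.trans hc)).symm) hcon.1

theorem Req.mono {L : Set (Cond X Θ)} {Nδ : X → Set (Cond X Θ)} {r r' : Cond X Θ}
    {y y' t t' : Set X} {δ : X} (h : Req L Nδ r y t δ) (hr : r' ≤ r)
    (hy : ∀ x < δ, (x ∈ y' ↔ x ∈ y)) (ht : ∀ x < δ, (x ∈ t' ↔ x ∈ t)) : Req L Nδ r' y' t' δ :=
  fun q hq hqr h' => h q hq (hqr.trans hr)
    (h'.congr (fun x hx => (hy x hx).symm) fun x hx => (ht x hx).symm)

variable [LinearOrder Θ] [WellFoundedLT Θ] {N : Θ → X → X → Set (Cond X Θ)}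

theorem lg_eq (j : Θ) : Lg N j = {p | WF p ∧ p.supp ⊆ Set.Iio j ∧
    ∀ i, i < j → i ∈ p.supp → ReqAt (Lg N i) N i p} := by
  unfold Lg
  rw [WellFounded.fix_eq]

theorem mem_lg {j : Θ} {p : Cond X Θ} : p ∈ Lg N j ↔ Legal N p ∧ p.supp ⊆ Set.Iio j := by
  rw [lg_eq]
  constructor
  · rintro ⟨h1, h2, h3⟩
    exact ⟨⟨h1, fun i hi => h3 i (h2 hi) hi⟩, h2⟩
  · rintro ⟨⟨h1, h3⟩, h2⟩
    exact ⟨h1, h2, fun i _ hi => h3 i hi⟩

/-- general criterion for legality at a coordinate inherited from a weaker condition -/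
theorem reqAt_of {L : Set (Cond X Θ)} {i : Θ} {p r : Cond X Θ} (h : ReqAt L N i p) (hr : r ≤ p)
    (h1 : ∀ γ ∈ r.s, Unb (r.y i) γ → γ ∈ p.s ∧ ∀ x < γ, (x ∈ r.y i ↔ x ∈ p.y i) ∧
      (x ∈ r.t ↔ x ∈ p.t)) :
    ReqAt L N i r := by
  intro γ hγ hu
  obtain ⟨h3, h4⟩ := h1 γ hγ hu
  exact Req.mono (h γ h3 (unb_congr (fun x hx => (h4 x hx).1) hu)) (restr_mono hr _)
    (fun x hx => (h4 x hx).1) fun x hx => (h4 x hx).2

theorem legal_restr {p : Cond X Θ} (hp : Legal N p) {U : Set Θ} (hU : IsLowerSet U) :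
    Legal N (restr p U) := by
  refine ⟨wf_restr hp.1 U, fun i hi γ hγ hu => ?_⟩
  have hiU : i ∈ U := hi.2
  have hy : (restr p U).y i = p.y i := by
    ext x
    exact ⟨fun h => h.1, fun h => ⟨h, hiU⟩⟩
  have hr : restr (restr p U) (Set.Iio i) = restr p (Set.Iio i) := by
    rw [restr_restr]
    congr 1
    exact Set.inter_eq_right.2 fun j hj => hU (le_of_lt hj) hiU
  rw [hy] at hu ⊢
  rw [hr]
  exact hp.2 i hi.1 γ hγ hu

theorem restr_mem_lg {p : Cond X Θ} (hp : Legal N p) (j : Θ) : restr p (Set.Iio j) ∈ Lg N j :=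
  mem_lg.2 ⟨legal_restr hp (isLowerSet_Iio j), Set.inter_subset_right⟩

/-- raising the top -/
def raise (p : Cond X Θ) (t : X) : Cond X Θ := ⟨t, p.s, p.t, p.supp, p.y⟩

theorem raise_spec {p : Cond X Θ} (hp : Legal N p) {t : X} (ht : p.top ≤ t) :
    Legal N (raise p t) ∧ raise p t ≤ p := by
  have hle : raise p t ≤ p :=
    ⟨ht, fun _ _ => ⟨Iff.rfl, Iff.rfl⟩, subset_rfl, fun _ _ _ _ => Iff.rfl⟩
  refine ⟨⟨⟨hp.1.1, ⟨fun x hx => ⟨(hp.1.2.1.1 x hx).1.trans_le ht, (hp.1.2.1.1 x hx).2⟩,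
    fun x hx => (hp.1.2.1.2 x hx).trans_le ht⟩,
    fun j x hx => (hp.1.2.2.1 j x hx).trans_le ht, hp.1.2.2.2⟩, fun i hi => ?_⟩, hle⟩
  exact reqAt_of (hp.2 i hi) hle fun γ hγ _ => ⟨hγ, fun _ _ => ⟨Iff.rfl, Iff.rfl⟩⟩

/-- raising the top, adding coordinates, and points above the top to the coordinates and to `t` -/
def addW (p : Cond X Θ) (tp : X) (V : Set Θ) (W : Θ → Set X) (Z : Set X) : Cond X Θ :=
  ⟨tp, p.s, p.t ∪ Z, p.supp ∪ V, fun j => p.y j ∪ W j⟩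

theorem addW_spec {p : Cond X Θ} (hp : Legal N p) {tp : X} (ht : p.top ≤ tp) {V : Set Θ}
    (hV : #(p.supp ∪ V : Set Θ) < #X)
    {W : Θ → Set X} (hW : ∀ j, ∀ x ∈ W j, p.top ≤ x ∧ x < tp ∧ j ∈ p.supp ∪ V)
    {Z : Set X} (hZ : ∀ x ∈ Z, p.top ≤ x ∧ x < tp) :
    Legal N (addW p tp V W Z) ∧ addW p tp V W Z ≤ p := by
  have hmem : ∀ i, ∀ x < p.top, x ∈ (addW p tp V W Z).y i ↔ x ∈ p.y i := by
    intro i x hx
    constructor
    · rintro (h | h)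
      · exact h
      · exact absurd hx (not_lt.2 (hW i x h).1)
    · exact fun h => Or.inl h
  have hmt : ∀ x < p.top, x ∈ (addW p tp V W Z).t ↔ x ∈ p.t := by
    intro x hx
    constructor
    · rintro (h | h)
      · exact h
      · exact absurd hx (not_lt.2 (hZ x h).1)
    · exact fun h => Or.inl h
  have hle : addW p tp V W Z ≤ p :=
    ⟨ht, fun x hx => ⟨Iff.rfl, hmt x hx⟩, Set.subset_union_left, fun j _ x hx => hmem j x hx⟩
  refine ⟨⟨⟨hV, ⟨fun x hx => ⟨(hp.1.2.1.1 x hx).1.trans_le ht, (hp.1.2.1.1 x hx).2⟩, ?_⟩, ?_, ?_⟩,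
    fun i hi => ?_⟩, hle⟩
  · rintro x (hx | hx)
    · exact (hp.1.2.1.2 x hx).trans_le ht
    · exact (hZ x hx).2
  · rintro j x (hx | hx)
    · exact (hp.1.2.2.1 j x hx).trans_le ht
    · exact (hW j x hx).2.1
  · intro j hj
    ext x
    simp only [addW, Set.mem_union, Set.mem_empty_iff_false, iff_false, not_or]
    refine ⟨fun hx => ?_, fun hx => hj (hW j x hx).2.2⟩
    rw [hp.1.2.2.2 j fun h => hj (Or.inl h)] at hx
    exact hx
  · by_cases hip : i ∈ p.supp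
    · exact reqAt_of (hp.2 i hip) hle fun γ hγ _ =>
        ⟨hγ, fun x hx => ⟨hmem i x (hx.trans (hp.1.2.1.1 γ hγ).1),
          hmt x (hx.trans (hp.1.2.1.1 γ hγ).1)⟩⟩
    · intro γ hγ hu
      exfalso
      refine not_unb_empty (hp.1.2.1.1 γ hγ).2 (fun x hx hx' => ?_) hu
      rw [hmem i x (hx.trans (hp.1.2.1.1 γ hγ).1), hp.1.2.2.2 i hip] at hx'
      exact hx'

open Classical in
/-- amalgamation: `r` on `U`, `p` outside -/
noncomputable def am (U : Set Θ) (r p : Cond X Θ) : Cond X Θ :=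
  ⟨r.top, r.s, r.t, r.supp ∪ p.supp, fun j => if j ∈ U then r.y j else p.y j⟩

omit [LinearOrder Θ] [WellFoundedLT Θ] in
theorem am_pos (U : Set Θ) (r p : Cond X Θ) {j : Θ} (h : j ∈ U) : (am U r p).y j = r.y j := by
  simp [am, h]

omit [LinearOrder Θ] [WellFoundedLT Θ] in
theorem am_neg (U : Set Θ) (r p : Cond X Θ) {j : Θ} (h : j ∉ U) : (am U r p).y j = p.y j := by
  simp [am, h]

theorem am_spec {U : Set Θ} (hU : IsLowerSet U) {r p : Cond X Θ} (hr : Legal N r)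
    (hp : Legal N p) {t : X} (ht : p.top < t) (htr : t ≤ r.top)
    (hs : ∀ x < t, (x ∈ r.s ↔ x ∈ p.s) ∧ (x ∈ r.t ↔ x ∈ p.t)) (hinf : ℵ₀ ≤ #X)
    (hsU : ∀ j ∈ U, j ∈ p.supp → j ∈ r.supp ∧ ∀ x < p.top, (x ∈ r.y j ↔ x ∈ p.y j)) :
    Legal N (am U r p) ∧ am U r p ≤ p ∧ restr (am U r p) U ≤ restr r U := by
  have hle : am U r p ≤ p := by
    refine ⟨(ht.le.trans htr), fun x hx => hs x (hx.trans ht), Set.subset_union_right,
      fun j hj x hx => ?_⟩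
    by_cases hjU : j ∈ U
    · rw [am_pos U r p hjU]
      exact (hsU j hjU hj).2 x hx
    · rw [am_neg U r p hjU]
  refine ⟨⟨⟨?_, hr.1.2.1, ?_, ?_⟩, fun i hi => ?_⟩, hle, ?_⟩
  · exact lt_of_le_of_lt (Cardinal.mk_union_le _ _) (Cardinal.add_lt_of_lt hinf hr.1.1 hp.1.1)
  · intro j x hx
    by_cases hjU : j ∈ U
    · rw [am_pos U r p hjU] at hx
      exact hr.1.2.2.1 j x hx
    · rw [am_neg U r p hjU] at hx
      exact (hp.1.2.2.1 j x hx).trans (ht.trans_le htr)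
  · intro j hj
    by_cases hjU : j ∈ U
    · rw [am_pos U r p hjU]
      exact hr.1.2.2.2 j fun h => hj (Or.inl h)
    · rw [am_neg U r p hjU]
      exact hp.1.2.2.2 j fun h => hj (Or.inr h)
  · by_cases hiU : i ∈ U
    · have hir : i ∈ r.supp := by
        rcases hi with h | h
        · exact h
        · exact (hsU i hiU h).1
      intro γ hγ hu
      rw [am_pos U r p hiU] at hu ⊢
      have h1 : restr (am U r p) (Set.Iio i) ≤ restr r (Set.Iio i) := by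
        refine ⟨le_rfl, fun _ _ => ⟨Iff.rfl, Iff.rfl⟩, fun j hj => ⟨Or.inl hj.1, hj.2⟩,
          fun j hj x _ => ?_⟩
        have hjU : j ∈ U := hU (le_of_lt hj.2) hiU
        change (x ∈ (am U r p).y j ∧ j ∈ Set.Iio i) ↔ (x ∈ r.y j ∧ j ∈ Set.Iio i)
        rw [am_pos U r p hjU]
      exact Req.mono (hr.2 i hir γ hγ hu) h1 (fun _ _ => Iff.rfl) fun _ _ => Iff.rfl
    · by_cases hip : i ∈ p.supp
      · refine reqAt_of (hp.2 i hip) hle fun γ hγ hu => ?_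
        rw [am_neg U r p hiU] at hu
        have hγt : γ ≤ p.top := by
          by_contra hcon
          obtain ⟨x, hx, hx1, -⟩ := hu p.top (not_le.1 hcon)
          exact absurd (hp.1.2.2.1 i x hx) (not_lt.2 hx1.le)
        refine ⟨(hs γ (hγt.trans_lt ht)).1.1 hγ, fun x hx => ⟨by rw [am_neg U r p hiU], ?_⟩⟩
        exact (hs x (hx.trans (hγt.trans_lt ht))).2
      · intro γ hγ hu
        exfalso
        rw [am_neg U r p hiU, hp.1.2.2.2 i hip] at hu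
        exact not_unb_empty (hr.1.2.1.1 γ hγ).2 (fun x _ => Set.notMem_empty x) hu
  · refine ⟨le_rfl, fun _ _ => ⟨Iff.rfl, Iff.rfl⟩, fun j hj => ⟨Or.inl hj.1, hj.2⟩,
      fun j hj x _ => ?_⟩
    change (x ∈ (am U r p).y j ∧ j ∈ U) ↔ (x ∈ r.y j ∧ j ∈ U)
    rw [am_pos U r p hj.2]

end

end Pool.Agent.R583.T
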