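import Mathlib
import Pool.Agent.R583.TCond
import Pool.Agent.R583.DUni
set_option autoImplicit false
set_option linter.unusedSectionVars false

/-!
# Lower bounds of directed sets of conditions
-/

namespace Pool.Agent.R583.T

open Cardinal
open Pool.Agent.R583.D (Bdd Dir exists_isLUB)

variable {X Θ : Type} [LinearOrder X]

/-- the canonical lower bound of a directed set -/
noncomputable def uni [Nonempty X] (D : Set (Cond X Θ)) : Cond X Θ :=
  ⟨Classical.epsilon fun b => IsLUB (Cond.top '' D) b,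
    {x | ∃ c ∈ D, x ∈ c.s}, {x | ∃ c ∈ D, x ∈ c.t}, {j | ∃ c ∈ D, j ∈ c.supp},
    fun j => {x | ∃ c ∈ D, x ∈ c.y j}⟩

theorem uni_top [WellFoundedLT X] [Nonempty X] (hX : Bdd X) {D : Set (Cond X Θ)}
    (hD : #D < #X) : IsLUB (Cond.top '' D) (uni D).top :=
  Classical.epsilon_spec (p := fun b => IsLUB (Cond.top '' D) b)
    (exists_isLUB hX (lt_of_le_of_lt Cardinal.mk_image_le hD))

theorem uni_le [WellFoundedLT X] [Nonempty X] (hX : Bdd X) {D : Set (Cond X Θ)}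
    (hD : #D < #X) (hdir : Dir D) (hw : ∀ c ∈ D, WF c) {c : Cond X Θ} (hc : c ∈ D) :
    uni D ≤ c := by
  refine ⟨(uni_top hX hD).1 ⟨c, hc, rfl⟩, fun x hx => ⟨?_, ?_⟩, fun j hj => ⟨c, hc, hj⟩,
    fun j hj x hx => ?_⟩
  · constructor
    · rintro ⟨d, hd, hxd⟩
      obtain ⟨e, he, hec, hed⟩ := hdir c hc d hd
      have h1 : x ∈ e.s := (hed.2.1 x ((hw d hd).2.1.1 x hxd).1).1.2 hxd
      exact (hec.2.1 x hx).1.1 h1
    · exact fun h => ⟨c, hc, h⟩
  · constructor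
    · rintro ⟨d, hd, hxd⟩
      obtain ⟨e, he, hec, hed⟩ := hdir c hc d hd
      have h1 : x ∈ e.t := (hed.2.1 x ((hw d hd).2.1.2 x hxd)).2.2 hxd
      exact (hec.2.1 x hx).2.1 h1
    · exact fun h => ⟨c, hc, h⟩
  · constructor
    · rintro ⟨d, hd, hxd⟩
      obtain ⟨e, he, hec, hed⟩ := hdir c hc d hd
      have hjd : j ∈ d.supp := by
        by_contra hjd
        rw [(hw d hd).2.2.2 j hjd] at hxd
        exact hxd
      have h1 : x ∈ e.y j := (hed.2.2.2 j hjd x ((hw d hd).2.2.1 j x hxd)).2 hxd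
      exact (hec.2.2.2 j hj x hx).1 h1
    · exact fun h => ⟨c, hc, h⟩

theorem lt_uni_top [WellFoundedLT X] [Nonempty X] (hX : Bdd X) {D : Set (Cond X Θ)}
    (hD : #D < #X) {x : X} (h : x < (uni D).top) : ∃ c ∈ D, x < c.top := by
  by_contra hcon
  push Not at hcon
  refine absurd h (not_lt.2 ((uni_top hX hD).2 ?_))
  rintro _ ⟨c, hc, rfl⟩
  exact hcon c hc

variable [LinearOrder Θ] [WellFoundedLT Θ] {N : Θ → X → X → Set (Cond X Θ)}

theorem uni_legal [WellFoundedLT X] [Nonempty X] (hX : Bdd X) {D : Set (Cond X Θ)}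
    (hD : #D < #X) (hdir : Dir D) (hl : ∀ c ∈ D, Legal N c) : Legal N (uni D) := by
  have hw : ∀ c ∈ D, WF c := fun c hc => (hl c hc).1
  refine ⟨⟨?_, ⟨?_, ?_⟩, ?_, ?_⟩, ?_⟩
  · have h1 : (uni D).supp = ⋃ c : D, c.1.supp := by
      ext j
      simp only [uni, Set.mem_iUnion, Subtype.exists, exists_prop]
      rfl
    rw [h1]
    exact Cardinal.card_iUnion_lt_iff_forall_of_isRegular hX.reg hD |>.2 fun c => (hw c.1 c.2).1
  · rintro x ⟨c, hc, hx⟩
    exact ⟨((hw c hc).2.1.1 x hx).1.trans_le ((uni_top hX hD).1 ⟨c, hc, rfl⟩),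
      ((hw c hc).2.1.1 x hx).2⟩
  · rintro x ⟨c, hc, hx⟩
    exact ((hw c hc).2.1.2 x hx).trans_le ((uni_top hX hD).1 ⟨c, hc, rfl⟩)
  · rintro j x ⟨c, hc, hx⟩
    exact ((hw c hc).2.2.1 j x hx).trans_le ((uni_top hX hD).1 ⟨c, hc, rfl⟩)
  · intro j hj
    ext x
    simp only [Set.mem_empty_iff_false, iff_false]
    rintro ⟨c, hc, hx⟩
    rw [(hw c hc).2.2.2 j fun h => hj ⟨c, hc, h⟩] at hx
    exact hx
  · rintro i ⟨c, hc, hi⟩ γ ⟨d, hd, hγ⟩ hu
    obtain ⟨e, he, hec, hed⟩ := hdir c hc d hd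
    have hie : i ∈ e.supp := hec.2.2.1 hi
    have hγe : γ ∈ e.s := (hed.2.1 γ ((hw d hd).2.1.1 γ hγ).1).1.2 hγ
    have hγt : γ < e.top := ((hw e he).2.1.1 γ hγe).1
    have hle := uni_le hX hD hdir hw he
    have hy : ∀ x < γ, (x ∈ (uni D).y i ↔ x ∈ e.y i) := fun x hx =>
      hle.2.2.2 i hie x (hx.trans hγt)
    exact Req.mono ((hl e he).2 i hie γ hγe (unb_congr hy hu)) (restr_mono hle _) hy
      fun x hx => (hle.2.1 x (hx.trans hγt)).2

end Pool.Agent.R583.T
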