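import Mathlib
import Pool.Agent.R583.DDefs
set_option autoImplicit false

/-!
# Reflection of stationary sets, concentrated club guessing and supercompactness in the language
of forcing
-/

namespace Pool.Agent.R583.TDefs

open Cardinal Pool.Agent.Helper669.Forcing Pool.Agent.Helper669.K Pool.Agent.R583.DDefs

section

variable {P : Type} [Preorder P] {X : Type} [LinearOrder X]

/-- `b` has uncountable cofinality: `b` is not the least element of `X` and the values of every
function `ℕ → X` with values below `b` are below some `a < b`. -/
def FUncCof (b : X) : Set P :=
  fand (fground (∃ a, a < b))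
    (fall fun f : ℕ → X → Set P => fimp
      (fand (IsFun f) (fall fun n : ℕ => fall fun x : X => fimp (meets (f n x)) (fground (x < b))))
      (fex fun a : X => fand (fground (a < b))
        (fall fun n : ℕ => fall fun x : X => fimp (meets (f n x)) (fground (x < a)))))

/-- The set of the elements of `C` below `b` is a closed unbounded subset of `b`. -/
def FClubIn (C : X → Set P) (b : X) : Set P :=
  fand
    (fall fun a : X => fimp (fground (a < b))
      (fex fun c : X => fand (fground (a < c ∧ c < b)) (meets (C c))))
    (fall fun d : X => fimp
      (fand (fground ((∃ a, a < d) ∧ d < b))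
        (fall fun a : X => fimp (fground (a < d))
          (fex fun c : X => fand (fground (a < c ∧ c < d)) (meets (C c)))))
      (meets (C d)))

/-- The set of the `a < b` with `φ a` is stationary in `b`: it meets every closed unbounded
subset of `b`. -/
def FStatIn (φ : X → Set P) (b : X) : Set P :=
  fall fun C : X → Set P => fimp (FClubIn C b)
    (fex fun a : X => fand (fground (a < b)) (fand (φ a) (meets (C a))))

/-- `b` is in the trace of `S`: `b` has uncountable cofinality and `S ∩ b` is stationary in `b`. -/
def FTrace (S : X → Set P) (b : X) : Set P := fand (FUncCof b) (FStatIn (fun a => meets (S a)) b)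

/-- `A` is a `T`-concentrated club guessing sequence on `S`: for every `a ∈ S` the set `A a` is a
subset of `a` which is unbounded in `a`, and for every closed unbounded subset `D` of `X` the set
of the `a ∈ S` with `A a ⊆ D ∩ T` is stationary. -/
def FConcGuess (S T : X → Set P) (A : X → X → Set P) : Set P :=
  fand
    (fall fun a : X => fimp (meets (S a))
      (fand (fall fun b : X => fimp (meets (A a b)) (fground (b < a)))
        (fall fun b : X => fimp (fground (b < a))
          (fex fun c : X => fand (fground (b < c)) (meets (A a c))))))
    (fall fun D : X → Set P => fimp (FClub D)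
      (FStationary fun a => fand (meets (S a))
        (fall fun b : X => fimp (meets (A a b)) (fand (meets (D b)) (meets (T b))))))

/-- `U` is a normal fine `κ`-complete ultrafilter on the set of the subsets of `X` of size less
than `κ`. -/
def IsNormalMeasure (κ : Cardinal.{0}) (X : Type)
    (U : ({A : Set X // #A < κ} → Set P) → Set P) : Set P :=
  fand (IsMeasure κ U)
    (fand (fall fun x : X => meets (U fun A => fground (x ∈ A.1)))
      (fall fun Y : X → {A : Set X // #A < κ} → Set P =>
        fimp (fall fun x : X => meets (U (Y x)))
          (meets (U fun A => fall fun x : X => fimp (fground (x ∈ A.1)) (meets (Y x A))))))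

end

/-- `κ` is an uncountable cardinal which is `μ`-supercompact in every generic extension by a
`κ`-directed closed forcing notion: there is a normal fine `κ`-complete ultrafilter on the set of
the subsets of `μ` of size less than `κ` (such a forcing notion adds no new sets of this kind). -/
def IndestructiblySupercompact (κ μ : Cardinal.{0}) : Prop :=
  ℵ₀ < κ ∧ ∀ (Q : Type) [Preorder Q], DirClosed κ Q →
    ∀ q : Q, q ∈ fex fun U : ({A : Set μ.ord.ToType // #A < κ} → Set Q) → Set Q =>
      IsNormalMeasure κ μ.ord.ToType U

section

variable {P : Type} [Preorder P] {X : Type} [LinearOrder X]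

theorem down_FUncCof (b : X) : Down (FUncCof (P := P) b) :=
  down_fand (down_fground _) (down_fall fun _ => down_fimp _ _)

theorem down_FClubIn (C : X → Set P) (b : X) : Down (FClubIn C b) :=
  down_fand (down_fall fun _ => down_fimp _ _) (down_fall fun _ => down_fimp _ _)

theorem down_FStatIn (φ : X → Set P) (b : X) : Down (FStatIn φ b) := down_fall fun _ => down_fimp _ _

theorem down_FTrace (S : X → Set P) (b : X) : Down (FTrace S b) :=
  down_fand (down_FUncCof _) (down_FStatIn _ _)

theorem down_FConcGuess (S T : X → Set P) (A : X → X → Set P) : Down (FConcGuess S T A) :=
  down_fand (down_fall fun _ => down_fimp _ _) (down_fall fun _ => down_fimp _ _)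

end

end Pool.Agent.R583.TDefs
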