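import Mathlib
import Pool.Agent.R583.TBranch
import Pool.Agent.R583.DStat
set_option autoImplicit false
set_option linter.unusedSectionVars false

/-!
# The generic sets are stationary
-/

namespace Pool.Agent.R583.T

open Cardinal Pool.Agent.Helper669.Forcing Pool.Agent.Helper669.K Pool.Agent.R583.DDefs
open Pool.Agent.R583.D (Bdd Dir exists_isLUB exists_seq_of)

variable {X Θ : Type} [LinearOrder X] [WellFoundedLT X] [LinearOrder Θ] [WellFoundedLT Θ]
  {N : Θ → X → X → Set (Cond X Θ)}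

/-- the name of the generic set `S` -/
def SName (N : Θ → X → X → Set (Cond X Θ)) : X → Set (PT N) := fun δ => {p | δ ∈ p.1.s}

/-- the name of the generic set `T` -/
def TName (N : Θ → X → X → Set (Cond X Θ)) : X → Set (PT N) := fun δ => {p | δ ∈ p.1.t}

/-- stages of the construction -/
structure Stage (N : Θ → X → X → Set (Cond X Θ)) (q : PT N) (L : Cardinal.{0}) where
  /-- number of the stage -/
  n : ℕ
  /-- the coordinates at which the system splits -/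
  F : Set Θ
  /-- bounds -/
  b : Θ → X
  /-- the system -/
  Q : Sys X Θ
  /-- covering of the support -/
  G : ℕ → Set Θ
  good : Good N F b Q
  le : ∀ τ, Q.cond τ ≤ q.1
  cF : #F < L
  cG : ∀ m, #(G m) < L
  mono : Monotone G
  cov : Q.supp ⊆ ⋃ m, G m
  bt : ∀ ξ ∈ F, b ξ ≤ Q.top

theorem stage_step [Nonempty X] (hX : Bdd X) {L : Cardinal.{0}} (hL : ℵ₀ ≤ L)
    (hstr : ∀ ν < L, (2 : Cardinal) ^ ν < #X)
    (hcov : ∀ V : Set Θ, #V < #X → ∃ G : ℕ → Set Θ, Monotone G ∧ (∀ m, #(G m) < L) ∧ V ⊆ ⋃ m, G m)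
    {C : X → Set (PT N)} {q : PT N} (hC : q ∈ FClub C) (x : Stage N q L) :
    ∃ y : Stage N q L, y.n = x.n + 1 ∧ y.F = x.F ∪ (x.G x.n ∩ x.Q.supp) ∧
      (∀ ξ ∈ x.F, y.b ξ = x.b ξ) ∧ (∀ m, x.G m ⊆ y.G m) ∧
      (∀ τ, y.Q.cond τ ≤ x.Q.cond τ) ∧ x.Q.top < y.Q.top ∧
      ∀ τ, ∃ c, x.Q.top < c ∧ c < y.Q.top ∧ (⟨y.Q.cond τ, y.good.1 τ⟩ : PT N) ∈ meets (C c) := by
  classical
  have hinf : ℵ₀ ≤ #X := hX.reg.aleph0_le
  let F' : Set Θ := x.F ∪ (x.G x.n ∩ x.Q.supp)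
  let b' : Θ → X := fun ξ => if ξ ∈ x.F then x.b ξ else x.Q.top
  have hgood : Good N F' b' x.Q := good_add x.good Set.inter_subset_right
  have hF' : #F' < L := lt_of_le_of_lt (Cardinal.mk_union_le _ _)
    (Cardinal.add_lt_of_lt hL x.cF (lt_of_le_of_lt
      (Cardinal.mk_le_mk_of_subset Set.inter_subset_left) (x.cG x.n)))
  let E : Set (PT N) := {r | (∃ c, x.Q.top < c ∧ c < r.1.top ∧ r ∈ meets (C c)) ∨
    ∀ r' ≤ r, ¬ r' ≤ q}
  have hEd : Down E := by
    rintro r hr r' hr'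
    rcases hr with ⟨c, h3, h4, h5⟩ | hr
    · exact Or.inl ⟨c, h3, h4.trans_le hr'.1, down_meets _ _ h5 _ hr'⟩
    · exact Or.inr fun r'' hr'' => hr r'' (hr''.trans hr')
  have hE : ∀ p, ∃ r ≤ p, r ∈ E := by
    intro p
    by_cases hp : ∃ r' ≤ p, r' ≤ q
    · obtain ⟨r', hr', hr'q⟩ := hp
      obtain ⟨r2, hr2, c, hc, hr2c⟩ := unbounded_of (down_FUnbounded C _ hC.1 _ hr'q) x.Q.top
      obtain ⟨t2, ht2⟩ := hX.exists_lt (max c r2.1.top)
      obtain ⟨h3, h4⟩ := raise_spec r2.2 (t := t2) ((le_max_right c _).trans ht2.le)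
      refine ⟨⟨_, h3⟩, le_trans (show (⟨_, h3⟩ : PT N) ≤ r2 from h4) (hr2.trans hr'),
        Or.inl ⟨c, hc, (le_max_left _ _).trans_lt ht2, down_meets _ _ hr2c _ h4⟩⟩
    · push Not at hp
      exact ⟨p, le_rfl, Or.inr hp⟩
  have hcard : #(F' → Bool) < #X := by
    have : #(F' → Bool) = 2 ^ #F' := by simp
    rw [this]
    exact hstr _ hF'
  obtain ⟨Q', hQ', hall⟩ := sys_meet hX hinf hcard E hE hEd (⟨x.Q, hgood⟩ : GSys N F' b')
  have hle : ∀ τ, Q'.1.cond τ ≤ x.Q.cond τ := hQ'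
  obtain ⟨H, hH1, hH2, hH3⟩ := hcov Q'.1.supp (Q'.2.1 fun _ => false).1.1
  have hmem : ∀ τ, ∃ c, x.Q.top < c ∧ c < Q'.1.top ∧
      (⟨Q'.1.cond τ, Q'.2.1 τ⟩ : PT N) ∈ meets (C c) := by
    intro τ
    rcases hall τ with ⟨c, h3, h4, h5⟩ | h3
    · exact ⟨c, h3, h4, h5⟩
    · exact absurd ((hle τ).trans (x.le τ)) (h3 _ le_rfl)
  refine ⟨{ n := x.n + 1
            F := F'
            b := b'
            Q := Q'.1
            G := fun m => x.G m ∪ H m
            good := Q'.2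
            le := fun τ => (hle τ).trans (x.le τ)
            cF := hF'
            cG := fun m => lt_of_le_of_lt (Cardinal.mk_union_le _ _)
              (Cardinal.add_lt_of_lt hL (x.cG m) (hH2 m))
            mono := fun m n h => Set.union_subset_union (x.mono h) (hH1 h)
            cov := ?_
            bt := ?_ }, rfl, rfl, ?_, ?_, hle, ?_, hmem⟩
  · intro j hj
    obtain ⟨m, hm⟩ := Set.mem_iUnion.1 (hH3 hj)
    exact Set.mem_iUnion.2 ⟨m, Or.inr hm⟩
  · intro ξ _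
    change (if ξ ∈ x.F then x.b ξ else x.Q.top) ≤ Q'.1.top
    have h1 : x.Q.top ≤ Q'.1.top := (hle fun _ => false).1
    by_cases h : ξ ∈ x.F
    · rw [if_pos h]
      exact (x.bt ξ h).trans h1
    · rw [if_neg h]
      exact h1
  · intro ξ hξ
    change (if ξ ∈ x.F then x.b ξ else x.Q.top) = x.b ξ
    rw [if_pos hξ]
  · intro m
    exact Set.subset_union_left
  · obtain ⟨c, h1, h2, -⟩ := hmem fun _ => false
    exact h1.trans h2

theorem stationary [Nonempty X] (hX : Bdd X) {L : Cardinal.{0}} (hL : ℵ₀ ≤ L)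
    (hstr : ∀ ν < L, (2 : Cardinal) ^ ν < #X)
    (hcov : ∀ V : Set Θ, #V < #X → ∃ G : ℕ → Set Θ, Monotone G ∧ (∀ m, #(G m) < L) ∧ V ⊆ ⋃ m, G m)
    (h0 : ℵ₀ < #X) (p : PT N) :
    p ∈ FStationary fun a => meets (SName N a) := by
  intro C
  refine mem_fimp.2 fun q _ hC => ?_
  -- the first stage
  obtain ⟨G0, hG1, hG2, hG3⟩ := hcov q.1.supp q.2.1.1
  let Q0 : Sys X Θ := ⟨q.1.top, q.1.s, q.1.t, q.1.supp, fun _ => q.1.y⟩
  have hQ0 : ∀ τ, Q0.cond τ = q.1 := fun τ => rfl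
  let x0 : Stage N q L :=
    { n := 0
      F := ∅
      b := fun _ => q.1.top
      Q := Q0
      G := G0
      good := ⟨fun τ => q.2, fun _ _ _ _ => rfl, Set.empty_subset _,
        fun _ _ ξ hξ => (Set.notMem_empty ξ hξ).elim⟩
      le := fun τ => le_rfl
      cF := by
        rw [Cardinal.mk_eq_zero]
        exact Cardinal.aleph0_pos.trans_le hL
      cG := hG2
      mono := hG1
      cov := hG3
      bt := fun ξ hξ => (Set.notMem_empty ξ hξ).elim }
  obtain ⟨f, hf0, hf⟩ := exists_seq_of (stage_step hX hL hstr hcov hC) x0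
  choose hf1 hf2 hf3 hf4 hf5 hf6 hf7 using hf
  have hn : ∀ k, (f k).n = k := by
    intro k
    induction k with
    | zero => rw [hf0]
    | succ k ih => rw [hf1, ih]
  have hmono : ∀ m n, m ≤ n → ∀ τ, (f n).Q.cond τ ≤ (f m).Q.cond τ := by
    intro m n hmn τ
    induction n, hmn using Nat.le_induction with
    | base => exact le_rfl
    | succ n _ ih => exact (hf5 n τ).trans ih
  have hGm : ∀ m n, m ≤ n → ∀ k, (f m).G k ⊆ (f n).G k := by
    intro m n hmn k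
    induction n, hmn using Nat.le_induction with
    | base => exact subset_rfl
    | succ n _ ih => exact ih.trans (hf4 n k)
  have hFm : ∀ m n, m ≤ n → (f m).F ⊆ (f n).F ∧ ∀ ξ ∈ (f m).F, (f n).b ξ = (f m).b ξ := by
    intro m n hmn
    induction n, hmn using Nat.le_induction with
    | base => exact ⟨subset_rfl, fun _ _ => rfl⟩
    | succ n _ ih =>
      refine ⟨ih.1.trans ?_, fun ξ hξ => (hf3 n ξ (ih.1 hξ)).trans (ih.2 ξ hξ)⟩
      rw [hf2 n]
      exact Set.subset_union_left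
  let D : (Θ → Bool) → Set (Cond X Θ) := fun τ => Set.range fun n => (f n).Q.cond τ
  have hDX : ∀ τ, #(D τ) < #X := fun τ =>
    lt_of_le_of_lt (Cardinal.mk_le_aleph0_iff.2 (Set.countable_range _)) h0
  have hdir : ∀ τ, Dir (D τ) := by
    rintro τ _ ⟨m, rfl⟩ _ ⟨n, rfl⟩
    exact ⟨_, ⟨max m n, rfl⟩, hmono _ _ (le_max_left _ _) τ, hmono _ _ (le_max_right _ _) τ⟩
  have hl : ∀ τ, ∀ c ∈ D τ, Legal N c := by
    rintro τ _ ⟨n, rfl⟩
    exact (f n).good.1 τ
  have hlu : ∀ τ, Legal N (uni (D τ)) := fun τ => uni_legal hX (hDX τ) (hdir τ) (hl τ)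
  have hule : ∀ τ n, uni (D τ) ≤ (f n).Q.cond τ := fun τ n =>
    uni_le hX (hDX τ) (hdir τ) (fun c hc => (hl τ c hc).1) ⟨n, rfl⟩
  have htopim : ∀ τ, Cond.top '' D τ = Set.range fun n => (f n).Q.top := by
    intro τ
    change Cond.top '' (Set.range fun n => (f n).Q.cond τ) = _
    rw [← Set.range_comp]
    rfl
  let τ0 : Θ → Bool := fun _ => false
  have htop : ∀ τ, (uni (D τ)).top = (uni (D τ0)).top := by
    intro τ
    have h1 := uni_top hX (hDX τ)
    have h2 := uni_top hX (hDX τ0)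
    rw [htopim] at h1 h2
    exact h1.unique h2
  have hlub : IsLUB (Set.range fun n => (f n).Q.top) (uni (D τ0)).top := by
    rw [← htopim τ0]
    exact uni_top hX (hDX τ0)
  obtain ⟨t, ht⟩ := hX.exists_lt (uni (D τ0)).top
  have htopn : ∀ n, (f n).Q.top < (uni (D τ0)).top := fun n =>
    (hf6 n).trans_le (hlub.1 ⟨n + 1, rfl⟩)
  have hcofin : ∀ b < (uni (D τ0)).top, ∃ n, b < (f n).Q.top := by
    intro b hb
    by_contra hcon
    push Not at hcon
    refine absurd hb (not_lt.2 (hlub.2 ?_))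
    rintro _ ⟨n, rfl⟩
    exact hcon n
  let S : Set X := {x | ∃ n, x ∈ (f n).Q.s}
  let T : Set X := {x | ∃ n, x ∈ (f n).Q.t}
  let V : Set Θ := {j | ∃ n, j ∈ (f n).Q.supp}
  let Y : (Θ → Bool) → Θ → Set X := fun τ j => {x | ∃ n, x ∈ (f n).Q.Y τ j}
  have huni : ∀ τ, (⟨(uni (D τ0)).top, S, T, V, Y τ⟩ : Cond X Θ) = uni (D τ) := by
    intro τ
    ext x
    · exact (htop τ).symm
    · constructor
      · rintro ⟨n, hn⟩
        exact ⟨_, ⟨n, rfl⟩, hn⟩
      · rintro ⟨_, ⟨n, rfl⟩, hn⟩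
        exact ⟨n, hn⟩
    · constructor
      · rintro ⟨n, hn⟩
        exact ⟨_, ⟨n, rfl⟩, hn⟩
      · rintro ⟨_, ⟨n, rfl⟩, hn⟩
        exact ⟨n, hn⟩
    · constructor
      · rintro ⟨n, hn⟩
        exact ⟨_, ⟨n, rfl⟩, hn⟩
      · rintro ⟨_, ⟨n, rfl⟩, hn⟩
        exact ⟨n, hn⟩
    · constructor
      · rintro ⟨n, hn⟩
        exact ⟨_, ⟨n, rfl⟩, hn⟩
      · rintro ⟨_, ⟨n, rfl⟩, hn⟩
        exact ⟨n, hn⟩
  let A : Lim N :=
    { δ := (uni (D τ0)).top
      s := S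
      t := T
      V := V
      Y := Y
      tp := t
      lt := ht
      legal := fun τ => by
        rw [huni τ]
        exact hlu τ
      coh := by
        intro τ τ' j h
        have h1 : ∀ n, (f n).Q.Y τ j = (f n).Q.Y τ' j := fun n =>
          (f n).good.2.1 τ τ' j fun i hi hiF => h i hi ⟨n, (f n).good.2.2.1 hiF⟩
        ext x
        constructor
        · rintro ⟨n, hn⟩
          exact ⟨n, by rwa [← h1 n]⟩
        · rintro ⟨n, hn⟩
          exact ⟨n, by rwa [h1 n]⟩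
      diff := by
        rintro τ τ' j ⟨n0, hn0⟩ hne
        obtain ⟨m0, hm0⟩ := Set.mem_iUnion.1 ((f n0).cov hn0)
        let n := max n0 m0
        have hjG : j ∈ (f n).G n :=
          (f n).mono (le_max_right n0 m0) (hGm n0 n (le_max_left _ _) m0 hm0)
        have hjs : j ∈ (f n).Q.supp := (hmono n0 n (le_max_left _ _) τ).2.2.1 hn0
        have hjF : j ∈ (f (n + 1)).F := by
          rw [hf2 n]
          right
          rw [hn n]
          exact ⟨hjG, hjs⟩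
        refine ⟨(f (n + 1)).b j, ((f (n + 1)).bt j hjF).trans_lt (htopn _), ?_⟩
        rintro c hc1 - ⟨k1, hk1⟩ hu1 hu2
        let k := max k1 (n + 1)
        have hck1 : c < (f k1).Q.top := ((f k1).good.1 τ).1.2.1.2 c hk1
        have hck : c ∈ (f k).Q.t := ((hmono k1 k (le_max_left _ _) τ).2.1 c hck1).2.2 hk1
        have hckt : c < (f k).Q.top := ((f k).good.1 τ).1.2.1.2 c hck
        obtain ⟨hF1, hF2⟩ := hFm (n + 1) k (le_max_right _ _)
        have hb : (f k).b j < c := by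
          rw [hF2 j hjF]
          exact hc1
        have hjk : j ∈ (f k).Q.supp := (f k).good.2.2.1 (hF1 hjF)
        have key : ∀ τ, Unb (Y τ j) c → Unb ((f k).Q.Y τ j) c := by
          intro τ hu
          refine unb_congr (fun x hx => ?_) hu
          have h1 := hule τ k
          rw [← huni τ] at h1
          exact h1.2.2.2 j hjk x (hx.trans hckt)
        exact (f k).good.2.2.2 τ τ' j (hF1 hjF) hne c hck hb (key τ hu1) (key τ' hu2)
      cof := ⟨fun n => (f n).Q.top, htopn, hcofin⟩ }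
  obtain ⟨τ, r, hr, hδ, hδt, hrle⟩ := exists_branch hX A
  have hrn : ∀ n, r ≤ (f n).Q.cond τ := by
    intro n
    refine hrle.trans ?_
    have h1 := hule τ n
    rw [← huni τ] at h1
    exact h1
  have hrq : (⟨r, hr⟩ : PT N) ≤ q := (hrn 0).trans ((f 0).le τ)
  obtain ⟨r', hr', hr'C⟩ := closed_of (q := (⟨r, hr⟩ : PT N)) (δ := A.δ)
    (down_FClosed C _ hC.2 _ hrq) ⟨_, htopn 0⟩ (by
      intro b hb
      obtain ⟨n, hn⟩ := hcofin b hb
      obtain ⟨c, h1, h2, h3⟩ := hf7 n τ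
      exact ⟨c, hn.trans h1, h2.trans (htopn (n + 1)), down_meets _ _ h3 _ (hrn (n + 1))⟩)
  refine ⟨r', hr'.trans hrq, mem_fex_of_mem A.δ (down_fand (down_meets _) (down_meets _))
    ⟨meets_of_le (s := ⟨r, hr⟩) hδ hr', hr'C⟩⟩

/-- extending a condition to get an element of a club -/
theorem chain_step (hX : Bdd X) {C : X → Set (PT N)} {q : PT N} (hC : q ∈ FClub C)
    (x : {r : PT N // r ≤ q}) :
    ∃ y : {r : PT N // r ≤ q}, y.1 ≤ x.1 ∧ ∃ c, x.1.1.top < c ∧ c < y.1.1.top ∧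
      y.1 ∈ meets (C c) := by
  obtain ⟨r2, hr2, c, hc, hr2c⟩ := unbounded_of (down_FUnbounded C _ hC.1 _ x.2) x.1.1.top
  obtain ⟨t2, ht2⟩ := hX.exists_lt (max c r2.1.top)
  obtain ⟨h3, h4⟩ := raise_spec r2.2 (t := t2) ((le_max_right c _).trans ht2.le)
  have hle : (⟨_, h3⟩ : PT N) ≤ r2 := h4
  exact ⟨⟨⟨_, h3⟩, (hle.trans hr2).trans x.2⟩, hle.trans hr2, c, hc,
    (le_max_left _ _).trans_lt ht2, down_meets _ _ hr2c _ hle⟩

theorem stationaryT [Nonempty X] (hX : Bdd X) (h0 : ℵ₀ < #X) (p : PT N) :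
    p ∈ FStationary fun a => meets (TName N a) := by
  intro C
  refine mem_fimp.2 fun q _ hC => ?_
  obtain ⟨f, hf0, hf⟩ := exists_seq_of (chain_step hX hC) ⟨q, le_rfl⟩
  have hmono : ∀ m n, m ≤ n → (f n).1 ≤ (f m).1 := by
    intro m n hmn
    induction n, hmn using Nat.le_induction with
    | base => exact le_rfl
    | succ n _ ih => exact (hf n).1.trans ih
  let D : Set (Cond X Θ) := Set.range fun n => (f n).1.1
  have hDX : #D < #X :=
    lt_of_le_of_lt (Cardinal.mk_le_aleph0_iff.2 (Set.countable_range _)) h0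
  have hdir : Dir D := by
    rintro _ ⟨m, rfl⟩ _ ⟨n, rfl⟩
    exact ⟨_, ⟨max m n, rfl⟩, hmono _ _ (le_max_left _ _), hmono _ _ (le_max_right _ _)⟩
  have hl : ∀ c ∈ D, Legal N c := by
    rintro _ ⟨n, rfl⟩
    exact (f n).1.2
  have hle : ∀ n, uni D ≤ (f n).1.1 := fun n =>
    uni_le hX hDX hdir (fun c hc => (hl c hc).1) ⟨n, rfl⟩
  have hlt : ∀ n, (f n).1.1.top < (uni D).top := fun n => by
    obtain ⟨-, c, h1, h2, -⟩ := hf n
    exact (h1.trans h2).trans_le (hle (n + 1)).1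
  obtain ⟨t, ht⟩ := hX.exists_lt (uni D).top
  have hlu := uni_legal hX hDX hdir hl
  obtain ⟨h1, h2⟩ := addW_spec hlu ht.le (V := ∅) (by
    rw [Set.union_empty]
    exact hlu.1.1) (W := fun _ => ∅) (fun _ x hx => hx.elim)
    (Z := {(uni D).top}) (by
      rintro x rfl
      exact ⟨le_rfl, ht⟩)
  have hr0 : ∀ n, (⟨_, h1⟩ : PT N) ≤ (f n).1 := fun n => h2.trans (hle n)
  have hrq : (⟨_, h1⟩ : PT N) ≤ q := (hr0 0).trans (f 0).2
  obtain ⟨r', hr', hr'C⟩ := closed_of (q := (⟨_, h1⟩ : PT N)) (δ := (uni D).top)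
    (down_FClosed C _ hC.2 _ hrq) ⟨_, hlt 0⟩ (by
      intro b hb
      obtain ⟨_, ⟨n, rfl⟩, hn⟩ := lt_uni_top hX hDX hb
      obtain ⟨-, c, h3, h4, h5⟩ := hf n
      exact ⟨c, hn.trans h3, h4.trans (hlt (n + 1)), down_meets _ _ h5 _ (hr0 (n + 1))⟩)
  exact ⟨r', hr'.trans hrq, mem_fex_of_mem (uni D).top (down_fand (down_meets _) (down_meets _))
    ⟨meets_of_le (s := ⟨_, h1⟩) (Or.inr rfl) hr', hr'C⟩⟩

end Pool.Agent.R583.T
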