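import Mathlib
import Pool.Agent.R583.TStat
import Pool.Agent.R583.TCC
import Pool.Agent.R583.TDefs
import Pool.Agent.Helper539.LadAnti
import Pool.Agent.Helper539.LadBook
set_option autoImplicit false
set_option linter.unusedSectionVars false

/-!
# No concentrated club guessing sequence on the generic set
-/

namespace Pool.Agent.R583.T

open Cardinal Pool.Agent.Helper669.Forcing Pool.Agent.Helper669.K Pool.Agent.R583.DDefs
open Pool.Agent.R583.TDefs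
open Pool.Agent.R583.D (Bdd Dir exists_isLUB exists_seq_of)

/-- coding of conditions -/
def iota {X Θ : Type} (p : Cond X Θ) : Pool.Agent.Helper539.LadIter.Cond X Θ (Prop × Prop) :=
  ⟨p.top, fun x => (x ∈ p.s, x ∈ p.t), p.supp, p.y⟩

theorem iota_inj {X Θ : Type} {p q : Cond X Θ} (h : iota p = iota q) : p = q := by
  have h1 : p.top = q.top := congrArg Pool.Agent.Helper539.LadIter.Cond.top h
  have h2 : (fun x => (x ∈ p.s, x ∈ p.t)) = fun x => (x ∈ q.s, x ∈ q.t) :=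
    congrArg Pool.Agent.Helper539.LadIter.Cond.g h
  have h3 : p.supp = q.supp := congrArg Pool.Agent.Helper539.LadIter.Cond.supp h
  have h4 : p.y = q.y := congrArg Pool.Agent.Helper539.LadIter.Cond.y h
  have h5 : p.s = q.s := by
    ext x
    exact iff_of_eq (congrArg Prod.fst (congrFun h2 x))
  have h6 : p.t = q.t := by
    ext x
    exact iff_of_eq (congrArg Prod.snd (congrFun h2 x))
  cases p
  cases q
  simp only at h1 h3 h4 h5 h6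
  subst h1 h3 h4 h5 h6
  rfl

theorem bookkeeping {X Θ M : Type} [LinearOrder X] [LinearOrder Θ] [WellFoundedLT Θ] [Infinite X]
    (hM : #M ^ #X = #M) (hM2 : 2 ≤ #M) (hΘ : #Θ = 2 ^ #M) (hΘi : ∀ j : Θ, #(Set.Iio j) < #Θ) :
    ∃ N : Θ → X → X → Set (Cond X Θ), ∀ V : Set Θ, #V ≤ #M →
      ∀ Nm : X → X → Set (Cond X Θ), (∀ γ x, ∀ b ∈ Nm γ x, WF b ∧ b.supp ⊆ V) →
        ∀ j0 : Θ, ∃ j, j0 ≤ j ∧ N j = Nm := by
  have hXM : #X ≤ #M := by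
    calc #X ≤ 2 ^ #X := (Cardinal.cantor _).le
      _ ≤ #M ^ #X := Cardinal.power_le_power_right hM2
      _ = #M := hM
  have hinf : ℵ₀ ≤ #M := (Cardinal.aleph0_le_mk X).trans hXM
  obtain ⟨N, hN⟩ := Pool.Agent.Helper539.LadBook.bookkeeping (X := X) (Θ := Θ) (K := Prop × Prop)
    (M := M) (Λ := X) (False, False) (fun x => ⟨Function.Embedding.subtype _⟩) hM hM2 hXM
    (by
      rw [Cardinal.mk_prod, Cardinal.mk_Prop, Cardinal.lift_id]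
      exact Cardinal.mul_le_of_le hinf hM2 hM2) hΘ hΘi
  refine ⟨fun j γ x => {p | iota p ∈ N j γ x}, fun V hV Nm hNm j0 => ?_⟩
  obtain ⟨j, hj, hNj⟩ := hN V hV (fun γ x => iota '' Nm γ x) (by
    rintro γ x _ ⟨b, hb, rfl⟩
    obtain ⟨h1, h2⟩ := hNm γ x b hb
    refine ⟨⟨(Cardinal.le_def _ _).1 h1.1.le, fun i _ z hz => (h1.2.2.1 i z hz).le,
      h1.2.2.2, fun z hz => ?_⟩, h2⟩
    have h3 : z ∉ b.s := fun h => absurd (h1.2.1.1 z h).1 (not_lt.2 (le_of_lt hz))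
    have h4 : z ∉ b.t := fun h => absurd (h1.2.1.2 z h) (not_lt.2 (le_of_lt hz))
    exact Prod.ext (eq_false h3) (eq_false h4)) j0
  refine ⟨j, hj, ?_⟩
  funext γ x
  ext p
  have h : N j γ x = iota '' Nm γ x := by rw [hNj]
  change iota p ∈ N j γ x ↔ p ∈ Nm γ x
  rw [h]
  constructor
  · rintro ⟨q, hq, hqp⟩
    rw [← iota_inj hqp]
    exact hq
  · exact fun hp => ⟨p, hp, rfl⟩

variable {X Θ : Type} [LinearOrder X] [WellFoundedLT X] [LinearOrder Θ] [WellFoundedLT Θ]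
  {N : Θ → X → X → Set (Cond X Θ)}

/-- the name of the set of limit points of the coordinate `j` -/
def CName (N : Θ → X → X → Set (Cond X Θ)) (j : Θ) : X → Set (PT N) :=
  fun δ => {p | δ < p.1.top ∧ j ∈ p.1.supp ∧ Unb (p.1.y j) δ}

theorem exists_above (hX : Bdd X) (p : PT N) (b : X) (j : Θ) :
    ∃ q ≤ p, b < q.1.top ∧ j ∈ q.1.supp := by
  have hinf : ℵ₀ ≤ #X := hX.reg.aleph0_le
  obtain ⟨t, ht⟩ := hX.exists_lt (max b p.1.top)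
  obtain ⟨h1, h2⟩ := addW_spec p.2 (tp := t) ((le_max_right _ _).trans ht.le) (V := {j}) (by
    refine lt_of_le_of_lt (Cardinal.mk_union_le _ _) (Cardinal.add_lt_of_lt hinf p.2.1.1 ?_)
    rw [Cardinal.mk_singleton]
    exact lt_of_lt_of_le Cardinal.one_lt_aleph0 hinf) (W := fun _ => ∅)
    (fun _ x hx => hx.elim) (Z := ∅) (fun x hx => hx.elim)
  exact ⟨⟨_, h1⟩, h2, (le_max_left _ _).trans_lt ht, Or.inr rfl⟩

theorem exists_point (hX : Bdd X) (p : PT N) (j : Θ) :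
    ∃ q ≤ p, p.1.top < q.1.top ∧ j ∈ q.1.supp ∧ p.1.top ∈ q.1.y j := by
  classical
  have hinf : ℵ₀ ≤ #X := hX.reg.aleph0_le
  obtain ⟨t, ht⟩ := hX.exists_lt p.1.top
  obtain ⟨h1, h2⟩ := addW_spec p.2 (tp := t) ht.le (V := {j}) (by
    refine lt_of_le_of_lt (Cardinal.mk_union_le _ _) (Cardinal.add_lt_of_lt hinf p.2.1.1 ?_)
    rw [Cardinal.mk_singleton]
    exact lt_of_lt_of_le Cardinal.one_lt_aleph0 hinf)
    (W := fun i => {x | x = p.1.top ∧ i = j})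
    (by
      rintro i x ⟨rfl, rfl⟩
      exact ⟨le_rfl, ht, Or.inr rfl⟩) (Z := ∅) (fun x hx => hx.elim)
  exact ⟨⟨_, h1⟩, h2, ht, Or.inr rfl, Or.inr ⟨rfl, rfl⟩⟩

theorem club_CName [Nonempty X] (hX : Bdd X) (h0 : ℵ₀ < #X) (j : Θ) (p : PT N) :
    p ∈ FClub (CName N j) := by
  refine ⟨fun b => mem_fex.2 fun q _ => ?_, fun d => mem_fimp.2 fun q _ hq => ?_⟩
  · obtain ⟨q0, hq0, hbq0, -⟩ := exists_above hX q b j
    obtain ⟨f, hf0, hf⟩ := exists_seq_of (fun a : PT N => exists_point hX a j) q0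
    have hmono : ∀ m n, m ≤ n → f n ≤ f m := by
      intro m n hmn
      induction n, hmn using Nat.le_induction with
      | base => exact le_rfl
      | succ n _ ih => exact (hf n).1.trans ih
    let D : Set (Cond X Θ) := Set.range fun n => (f n).1
    have hDX : #D < #X :=
      lt_of_le_of_lt (Cardinal.mk_le_aleph0_iff.2 (Set.countable_range _)) h0
    have hdir : Dir D := by
      rintro _ ⟨m, rfl⟩ _ ⟨n, rfl⟩
      exact ⟨_, ⟨max m n, rfl⟩, hmono _ _ (le_max_left _ _), hmono _ _ (le_max_right _ _)⟩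
    have hl : ∀ c ∈ D, Legal N c := by
      rintro _ ⟨n, rfl⟩
      exact (f n).2
    have hle : ∀ n, uni D ≤ (f n).1 := fun n =>
      uni_le hX hDX hdir (fun c hc => (hl c hc).1) ⟨n, rfl⟩
    obtain ⟨t, ht⟩ := hX.exists_lt (uni D).top
    obtain ⟨h1, h2⟩ := raise_spec (uni_legal hX hDX hdir hl) ht.le
    have hlt : ∀ n, (f n).1.top < (uni D).top := fun n => (hf n).2.1.trans_le (hle (n + 1)).1
    refine ⟨⟨_, h1⟩, ?_, (uni D).top, ?_, ?_⟩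
    · refine le_trans ?_ hq0
      rw [← hf0]
      exact h2.trans (hle 0)
    · rw [← hf0] at hbq0
      exact hbq0.trans (hlt 0)
    · refine meets_of_mem ⟨ht, ?_, ?_⟩
      · exact (hle 1).2.2.1 (hf 0).2.2.1
      · intro c hc
        obtain ⟨_, ⟨n, rfl⟩, hn⟩ := lt_uni_top hX hDX hc
        exact ⟨_, ((hle (n + 1)).2.2.2 j (hf n).2.2.1 _ (hf n).2.1).2 (hf n).2.2.2, hn, hlt n⟩
  · obtain ⟨r, hr, hdr, hjr⟩ := exists_above hX q d j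
    refine ⟨r, hr, meets_of_mem ⟨hdr, hjr, fun b hb => ?_⟩⟩
    obtain ⟨r1, hr1, hr1'⟩ := mem_fimp.1 (hq.2 b) r hr hb
    obtain ⟨r2, hr2, c, ⟨hbc, hcd⟩, hcm⟩ := mem_fex.1 hr1' r1 le_rfl
    obtain ⟨r3, hr3, s, ⟨hcs, hjs, hu⟩, hr3s⟩ := hcm r2 le_rfl
    obtain ⟨x, hx, hbx, hxc⟩ := hu b hbc
    refine ⟨x, ?_, hbx, hxc.trans hcd⟩
    have h1 : x ∈ r3.1.y j := (hr3s.2.2.2 j hjs x (hxc.trans hcs)).2 hx
    have h2 : r3 ≤ r := hr3.trans (hr2.trans hr1)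
    exact (h2.2.2.2 j hjr x (hxc.trans (hcd.trans hdr))).1 h1

theorem no_guess [Nonempty X] [Infinite X] [Nonempty Θ] {M : Type} (hX : Bdd X) (h0 : ℵ₀ < #X)
    (hM : #M ^ #X = #M) (hM2 : 2 ≤ #M)
    (hbook : ∀ V : Set Θ, #V ≤ #M → ∀ Nm : X → X → Set (Cond X Θ),
      (∀ γ x, ∀ b ∈ Nm γ x, WF b ∧ b.supp ⊆ V) → ∀ j0 : Θ, ∃ j, j0 ≤ j ∧ N j = Nm)
    (hcf : ∀ V : Set Θ, #V ≤ #M → ∃ j0, ∀ j ∈ V, j < j0) (p : PT N) :
    p ∈ fnot (fex fun A : X → X → Set (PT N) => FConcGuess (SName N) (TName N) A) := by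
  classical
  intro q _ hD
  obtain ⟨r, -, A, hA⟩ := mem_fex.1 hD q le_rfl
  have hinf : ℵ₀ ≤ #X := hX.reg.aleph0_le
  have hXM : #X ≤ #M := by
    calc #X ≤ 2 ^ #X := (Cardinal.cantor _).le
      _ ≤ #M ^ #X := Cardinal.power_le_power_right hM2
      _ = #M := hM
  -- the antichains
  have hZ := fun δβ : X × X => Pool.Agent.Helper539.LadAnti.exists_maximal_antichain
    {u : PT N | ∃ b ∈ A δβ.1 δβ.2, u ≤ b}
  choose Z hZ1 hZ2 hZ3 using hZ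
  obtain ⟨V, hVM, hV⟩ := antichains_small (N := N) (M := M) (A' := X × X) hM hM2 (by
      simp only [Cardinal.mk_prod, Cardinal.lift_id, Cardinal.mul_eq_self hinf]
      exact hXM) (fun a => Subtype.val '' Z a)
    (by
      rintro a _ ⟨z, -, rfl⟩
      exact z.2)
    (by
      rintro a _ ⟨z, hz, rfl⟩ _ ⟨z', hz', rfl⟩ ⟨u, hu, h1, h2⟩
      exact congrArg Subtype.val (hZ2 a z hz z' hz' ⟨⟨u, hu⟩, h1, h2⟩))
  obtain ⟨j0, hj0⟩ := hcf V hVM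
  obtain ⟨j, hj, hNj⟩ := hbook V hVM (fun γ x => Subtype.val '' Z (γ, x)) (by
    rintro γ x _ ⟨z, hz, rfl⟩
    exact ⟨z.2.1, hV (γ, x) z.1 ⟨z, hz, rfl⟩⟩) j0
  have hsupp : ∀ δ β, ∀ z ∈ Z (δ, β), z.1.supp ⊆ Set.Iio j := fun δ β z hz i hi =>
    (hj0 i (hV (δ, β) z.1 ⟨z, hz, rfl⟩ hi)).trans_le hj
  -- the critical condition
  obtain ⟨r1, hr1, hr1s⟩ := mem_fimp.1 (hA.2 (CName N j)) r le_rfl (club_CName hX h0 j r)
  obtain ⟨r1', hr1', hr1'e⟩ := mem_fimp.1 (hr1s (CName N j)) r1 le_rfl (club_CName hX h0 j r1)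
  obtain ⟨r2, hr2, δ, ⟨hS, hsub⟩, hCδ⟩ := mem_fex.1 hr1'e r1' le_rfl
  obtain ⟨r3, hr3, s1, hs1, hr3s⟩ := hS r2 le_rfl
  obtain ⟨r4, hr4, s2, ⟨hs2a, hs2b, hs2c⟩, hr4s⟩ := hCδ r3 hr3
  have hr4r2 : r4 ≤ r2 := hr4.trans hr3
  have hr4r : r4 ≤ r := hr4r2.trans (hr2.trans (hr1'.trans hr1))
  have hr4S : r4 ∈ meets (SName N δ) := meets_of_le hs1 (hr4.trans hr3s)
  have hδs : δ ∈ r4.1.s := by
    have h1 : r4 ≤ s1 := hr4.trans hr3s
    exact (h1.2.1 δ (s1.2.1.2.1.1 δ hs1).1).1.2 hs1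
  have hjs : j ∈ r4.1.supp := hr4s.2.2.1 hs2b
  have hδt : δ < r4.1.top := (r4.2.1.2.1.1 δ hδs).1
  have hu : Unb (r4.1.y j) δ := unb_congr
    (fun x hx => (hr4s.2.2.2 j hs2b x (hx.trans hs2a)).symm) hs2c
  obtain ⟨t, ht⟩ := hX.exists_lt r4.1.top
  obtain ⟨hrl, hrle⟩ := raise_spec r4.2 ht.le
  -- amalgamation
  have ham : ∀ w ∈ Lg N j, w ≤ restr (raise r4.1 t) (Set.Iio j) →
      ∃ u : PT N, u ≤ r4 ∧ restr u.1 (Set.Iio j) ≤ w := by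
    intro w hw hwle
    obtain ⟨hwl, hws⟩ := mem_lg.1 hw
    obtain ⟨h1, h2, h3⟩ := am_spec (isLowerSet_Iio j) hwl r4.2 ht hwle.1 hwle.2.1 hinf (by
      intro i hi his
      refine ⟨hwle.2.2.1 ⟨his, hi⟩, fun x hx => ?_⟩
      rw [hwle.2.2.2 i ⟨his, hi⟩ x (hx.trans ht)]
      exact ⟨fun h => h.1, fun h => ⟨h, hi⟩⟩)
    refine ⟨⟨_, h1⟩, h2, h3.trans ⟨le_rfl, fun _ _ => ⟨Iff.rfl, Iff.rfl⟩,
      fun i hi => ⟨hi, hws hi⟩, fun i hi x _ => ?_⟩⟩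
    exact ⟨fun h => h.1, fun h => ⟨h, hws hi⟩⟩
  have hres : ∀ z : PT N, z.1.supp ⊆ Set.Iio j → ∀ u : PT N, u ≤ z →
      restr u.1 (Set.Iio j) ≤ z.1 := by
    intro z hz u huz
    refine (restr_mono huz _).trans ⟨le_rfl, fun _ _ => ⟨Iff.rfl, Iff.rfl⟩,
      fun i hi => ⟨hi, hz hi⟩, fun i hi x _ => ?_⟩
    exact ⟨fun h => h.1, fun h => ⟨h, hz hi⟩⟩
  -- `A δ` is a cofinal subset of `δ`
  have hcof := mem_fimp.1 (hA.1 δ)
  refine r4.2.2 j hjs δ hδs hu (restr (raise r4.1 t) (Set.Iio j)) (restr_mem_lg hrl j)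
    (restr_mono hrle _) ⟨fun β hβ w hw hwle => ?_, fun c hc hnc w hw hwle b hb hwb => ?_⟩
  · obtain ⟨u, hu4, huw⟩ := ham w hw hwle
    obtain ⟨u1, hu1, hu1a, hu1b⟩ := hcof u (hu4.trans hr4r) (down_meets _ _ hr4S _ hu4)
    obtain ⟨u2, hu2, hu2e⟩ := mem_fimp.1 (hu1b β) u1 le_rfl hβ
    obtain ⟨u3, hu3, c, hβc, hu3c⟩ := mem_fex.1 hu2e u2 le_rfl
    have hβc' : β < c := hβc
    obtain ⟨_, _, hcδ⟩ := mem_fimp.1 (hu1a c) u3 (hu3.trans hu2) hu3c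
    have hcδ' : c < δ := hcδ
    obtain ⟨u4, hu4', a, ha, hu4a⟩ := hu3c u3 le_rfl
    obtain ⟨z, hz, u5, hu5, hu5z⟩ := hZ3 (δ, c) u4 ⟨a, ha, hu4a⟩
    refine ⟨restr u5.1 (Set.Iio j), restr_mem_lg u5.2 j, ?_, c, hβc', hcδ', z.1, ?_, ?_⟩
    · exact (restr_mono (hu5.trans (hu4'.trans (hu3.trans (hu2.trans hu1)))) _).trans huw
    · rw [hNj]
      exact ⟨z, hz, rfl⟩
    · exact hres z (hsupp δ c z hz) u5 hu5z
  · rw [hNj] at hb
    obtain ⟨z, hz, rfl⟩ := hb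
    obtain ⟨a, ha, hza⟩ := hZ1 (δ, c) hz
    obtain ⟨u, hu4, huw⟩ := ham w hw hwle
    have huz : u ≤ z := (restr_le u.1 (Set.Iio j)).trans (huw.trans hwb)
    obtain ⟨u1, hu1, h1C, h1T⟩ := mem_fimp.1 (hsub c) u (hu4.trans hr4r2)
      (meets_of_le ha (huz.trans hza))
    apply hnc
    constructor
    · obtain ⟨u2, hu2, s, ⟨hsa, hsb, hsc⟩, hu2s⟩ := h1C u1 le_rfl
      have h4 : u2 ≤ r4 := hu2.trans (hu1.trans hu4)
      intro e he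
      obtain ⟨x, hx, hex, hxc⟩ := hsc e he
      refine ⟨x, ?_, hex, hxc⟩
      have h5 : x ∈ u2.1.y j := (hu2s.2.2.2 j hsb x (hxc.trans hsa)).2 hx
      exact (h4.2.2.2 j hjs x (hxc.trans (hc.trans hδt))).1 h5
    · obtain ⟨u2, hu2, s, hs, hu2s⟩ := h1T u1 le_rfl
      have h4 : u2 ≤ r4 := hu2.trans (hu1.trans hu4)
      have h5 : c ∈ u2.1.t := (hu2s.2.1 c (s.2.1.2.1.2 c hs)).2.2 hs
      exact (h4.2.1 c (hc.trans hδt)).2.1 h5

end Pool.Agent.R583.T
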