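import Mathlib
import Pool.Agent.R583.TDefs
import Pool.Agent.R583.TUni
import Pool.Agent.R583.DStat
import Pool.Agent.Helper539.LadAnti
set_option autoImplicit false
set_option linter.unusedSectionVars false

/-!
# Reflection of stationary sets of points of cofinality `ω` from a normal measure
-/

namespace Pool.Agent.R583.TRefl

open Cardinal Pool.Agent.Helper669.Forcing Pool.Agent.Helper669.K Pool.Agent.R583.DDefs
open Pool.Agent.R583.TDefs
open Pool.Agent.R583.T (CofOmega)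
open Pool.Agent.R583.D (Bdd Dir exists_isLUB exists_seq_of)

section general

variable {P : Type} [Preorder P]

/-- regular open sets of conditions -/
def Reg (φ : Set P) : Prop := Down φ ∧ ∀ p, (∀ q ≤ p, ∃ r ≤ q, r ∈ φ) → p ∈ φ

theorem reg_fnot {φ : Set P} (h : Down φ) : Reg (fnot φ) := by
  refine ⟨down_fnot _, fun p hp q hq hqφ => ?_⟩
  obtain ⟨r, hr, hr'⟩ := hp q hq
  exact hr' r le_rfl (h _ hqφ _ hr)

theorem reg_meets (φ : Set P) : Reg (meets φ) := by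
  refine ⟨down_meets _, fun p hp q hq => ?_⟩
  obtain ⟨r, hr, hr'⟩ := hp q hq
  obtain ⟨u, hu, s, hs, hus⟩ := hr' r le_rfl
  exact ⟨u, hu.trans hr, s, hs, hus⟩

theorem reg_fand {φ ψ : Set P} (h : Reg φ) (h' : Reg ψ) : Reg (fand φ ψ) := by
  refine ⟨down_fand h.1 h'.1, fun p hp => ⟨h.2 p fun q hq => ?_, h'.2 p fun q hq => ?_⟩⟩
  · obtain ⟨r, hr, hr'⟩ := hp q hq
    exact ⟨r, hr, hr'.1⟩
  · obtain ⟨r, hr, hr'⟩ := hp q hq
    exact ⟨r, hr, hr'.2⟩

theorem reg_fall {ι : Sort*} {φ : ι → Set P} (h : ∀ i, Reg (φ i)) : Reg (fall φ) := by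
  refine ⟨down_fall fun i => (h i).1, fun p hp i => (h i).2 p fun q hq => ?_⟩
  obtain ⟨r, hr, hr'⟩ := hp q hq
  exact ⟨r, hr, hr' i⟩

theorem reg_fex {ι : Sort*} {φ : ι → Set P} : Reg (fex φ) :=
  reg_fnot (down_fall fun _ => down_fnot _)

theorem reg_fimp {φ ψ : Set P} (h : Down φ) : Reg (fimp φ ψ) :=
  reg_fnot (down_fand h (down_fnot _))

theorem reg_fground (h : Prop) : Reg (fground (P := P) h) :=
  ⟨down_fground _, fun p hp => by
    obtain ⟨_, _, h'⟩ := hp p le_rfl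
    exact h'⟩

theorem mem_meets_reg {φ : Set P} (h : Reg φ) {p : P} : p ∈ meets φ ↔ p ∈ φ := by
  refine ⟨fun hp => h.2 p fun q hq => ?_, fun hp => meets_of_mem hp⟩
  obtain ⟨r, hr, s, hs, hrs⟩ := hp q hq
  exact ⟨r, hr, h.1 _ hs _ hrs⟩

theorem mp {φ ψ : Set P} {p : P} (h : p ∈ fimp φ ψ) (hd : Down φ) (hp : p ∈ φ) (hr : Reg ψ) :
    p ∈ ψ :=
  hr.2 p fun q hq => mem_fimp.1 h q hq (hd _ hp _ hq)

/-- equality below `r` -/
def Eqb (r : P) (φ ψ : Set P) : Prop := ∀ r' ≤ r, (r' ∈ φ ↔ r' ∈ ψ)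

theorem Eqb.rfl' {r : P} {φ : Set P} : Eqb r φ φ := fun _ _ => Iff.rfl

theorem eqb_fnot {r : P} {φ ψ : Set P} (h : Eqb r φ ψ) : Eqb r (fnot φ) (fnot ψ) := by
  intro r' hr'
  exact forall_congr' fun q => forall_congr' fun hq => not_congr (h q (hq.trans hr'))

theorem eqb_fand {r : P} {φ ψ φ' ψ' : Set P} (h : Eqb r φ ψ) (h' : Eqb r φ' ψ') :
    Eqb r (fand φ φ') (fand ψ ψ') := fun r' hr' => and_congr (h r' hr') (h' r' hr')

theorem eqb_fall {r : P} {ι : Sort*} {φ ψ : ι → Set P} (h : ∀ i, Eqb r (φ i) (ψ i)) :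
    Eqb r (fall φ) (fall ψ) := fun r' hr' => forall_congr' fun i => h i r' hr'

theorem eqb_fex {r : P} {ι : Sort*} {φ ψ : ι → Set P} (h : ∀ i, Eqb r (φ i) (ψ i)) :
    Eqb r (fex φ) (fex ψ) := eqb_fnot (eqb_fall fun i => eqb_fnot (h i))

theorem eqb_fimp {r : P} {φ ψ φ' ψ' : Set P} (h : Eqb r φ ψ) (h' : Eqb r φ' ψ') :
    Eqb r (fimp φ φ') (fimp ψ ψ') := eqb_fnot (eqb_fand h (eqb_fnot h'))

/-- the maximum principle -/
theorem max_principle {X : Type} {Φ : (X → Set P) → Set P} (hreg : ∀ c, Reg (Φ c))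
    (hcongr : ∀ c c' r, (∀ x, Eqb r (meets (c x)) (meets (c' x))) → r ∈ Φ c → r ∈ Φ c') (p : P)
    (h : ∀ q ≤ p, ∃ r ≤ q, ∃ c, r ∈ Φ c) : ∃ c, p ∈ Φ c := by
  classical
  obtain ⟨Z, hZ1, hZ2, hZ3⟩ := Pool.Agent.Helper539.LadAnti.exists_maximal_antichain
    {r : P | ∃ c, r ∈ Φ c}
  choose g hg using fun z : Z => hZ1 z.2
  let c : X → Set P := fun x => {u | ∃ z : Z, u ≤ z.1 ∧ u ∈ meets (g z x)}
  have key : ∀ z : Z, ∀ r ≤ z.1, r ∈ Φ c := by
    intro z r hr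
    refine hcongr (g z) c r (fun x r' hr' => ⟨fun h1 => ?_, fun h1 => ?_⟩) ((hreg _).1 _ (hg z) _ hr)
    · exact meets_of_mem ⟨z, hr'.trans hr, h1⟩
    · refine (reg_meets (g z x)).2 r' fun q hq => ?_
      obtain ⟨t, ht, u, ⟨z', huz', hu⟩, htu⟩ := h1 q hq
      have hzz : z.1 = z'.1 := hZ2 z.1 z.2 z'.1 z'.2
        ⟨t, ht.trans (hq.trans (hr'.trans hr)), htu.trans huz'⟩
      have hzz' : z = z' := Subtype.ext hzz
      subst hzz'
      exact ⟨t, ht, down_meets _ _ hu _ htu⟩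
  refine ⟨c, (hreg c).2 p fun q hq => ?_⟩
  obtain ⟨r, hr, hr'⟩ := h q hq
  obtain ⟨z, hz, u, hu1, hu2⟩ := hZ3 r hr'
  exact ⟨u, hu1.trans hr, key ⟨z, hz⟩ u hu2⟩

end general

section measure

variable {P : Type} [Preorder P] {X : Type} {κ : Cardinal.{0}}

/-- the index set -/
abbrev PK (κ : Cardinal.{0}) (X : Type) : Type := {A : Set X // #A < κ}

variable {U : (PK κ X → Set P) → Set P}

theorem down_IsMeasure {K : Type} (U : (K → Set P) → Set P) : Down (IsMeasure κ U) := by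
  refine down_fand (down_fall fun _ => down_fall fun _ => down_fimp _ _) (down_fand
    (down_fall fun _ => down_fand (down_fimp _ _) (down_fimp _ _)) (down_fand
    (down_fall fun _ => down_fall fun _ => down_fall fun _ => down_fimp _ _)
    (down_fall fun _ => down_fnot _)))

theorem down_IsNormalMeasure : Down (IsNormalMeasure κ X U) := by
  refine down_fand (down_IsMeasure U) (down_fand (down_fall fun _ => down_meets _)
    (down_fall fun _ => down_fimp _ _))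

theorem U_mono {q : P} (hU : q ∈ IsNormalMeasure κ X U) {φ ψ : PK κ X → Set P}
    (h : q ∈ meets (U φ)) (hi : ∀ A, ∀ r ≤ q, r ∈ meets (φ A) → ∃ r' ≤ r, r' ∈ meets (ψ A)) :
    q ∈ meets (U ψ) := by
  refine mp (hU.1.1 φ ψ) (down_fand (down_meets _) (down_fall fun _ => down_fimp _ _))
    ⟨h, fun A => mem_fimp.2 fun r hr hr' => hi A r hr hr'⟩ (reg_meets _)

theorem U_compl {q : P} (hU : q ∈ IsNormalMeasure κ X U) {φ : PK κ X → Set P}
    (h : ∀ r ≤ q, r ∉ meets (U φ)) : q ∈ meets (U (nCompl φ)) :=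
  mp (hU.1.2.1 φ).2 (down_fnot _) h (reg_meets _)

theorem U_nonempty {q : P} (hU : q ∈ IsNormalMeasure κ X U) {φ : PK κ X → Set P}
    (h : q ∈ meets (U φ)) : ∃ r ≤ q, ∃ A, r ∈ meets (φ A) := by
  by_contra hcon
  push Not at hcon
  have h1 : q ∈ meets (U (nCompl φ)) := U_mono hU h fun A r hr hr' => absurd hr' (hcon r hr A)
  obtain ⟨r, hr, hr'⟩ := mem_fimp.1 (hU.1.2.1 φ).1 q le_rfl h
  exact hr' r le_rfl (down_meets _ _ h1 _ hr)

theorem U_inter {q : P} (hU : q ∈ IsNormalMeasure κ X U) (hκ : ℵ₀ < κ)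
    {φ : ℕ → PK κ X → Set P} (h : ∀ n, q ∈ meets (U (φ n))) :
    q ∈ meets (U fun A => fall fun n => meets (φ n A)) := by
  obtain ⟨e⟩ : Nonempty ((ℵ₀ : Cardinal.{0}).out ≃ ℕ) := by
    rw [← Cardinal.eq, Cardinal.mk_out, Cardinal.mk_nat]
  have h1 : q ∈ meets (U (nInter fun i => φ (e i))) :=
    mp (hU.1.2.2.1 ℵ₀ hκ fun i => φ (e i)) (down_fall fun _ => down_meets _)
      (fun i => h (e i)) (reg_meets _)
  refine U_mono hU h1 fun A r hr hr' => ⟨r, le_rfl, ?_⟩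
  have hreg : Reg (nInter (fun i => φ (e i)) A) := reg_fall fun _ => reg_meets _
  have h2 := (mem_meets_reg hreg).1 hr'
  refine meets_of_mem fun n => ?_
  have h3 : r ∈ meets (φ (e (e.symm n)) A) := h2 (e.symm n)
  rwa [e.apply_symm_apply] at h3

theorem U_and {q : P} (hU : q ∈ IsNormalMeasure κ X U) (hκ : ℵ₀ < κ)
    {φ ψ : PK κ X → Set P} (h : q ∈ meets (U φ)) (h' : q ∈ meets (U ψ)) :
    q ∈ meets (U fun A => fand (meets (φ A)) (meets (ψ A))) := by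
  have h1 := U_inter hU hκ (φ := fun n => if n = 0 then φ else ψ) (by
    intro n
    by_cases hn : n = 0
    · simp only [hn, if_true]
      exact h
    · simp only [hn, if_false]
      exact h')
  refine U_mono hU h1 fun A r hr hr' => ⟨r, le_rfl, ?_⟩
  have h2 := (mem_meets_reg (reg_fall fun _ => reg_meets _)).1 hr'
  refine meets_of_mem ⟨?_, ?_⟩
  · simpa using h2 0
  · simpa using h2 1

theorem U_fine {q : P} (hU : q ∈ IsNormalMeasure κ X U) (x : X) :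
    q ∈ meets (U fun A => fground (x ∈ A.1)) := hU.2.1 x

theorem U_diag {q : P} (hU : q ∈ IsNormalMeasure κ X U) {Y : X → PK κ X → Set P}
    (h : ∀ x, q ∈ meets (U (Y x))) :
    q ∈ meets (U fun A => fall fun x => fimp (fground (x ∈ A.1)) (meets (Y x A))) :=
  mp (hU.2.2 Y) (down_fall fun _ => down_meets _) h (reg_meets _)

end measure

section reflection

variable {P : Type} [Preorder P] {X : Type} [LinearOrder X]

/-- limit points -/
def IsLim (b : X) : Prop := (∃ a, a < b) ∧ ∀ a < b, ∃ c, a < c ∧ c < b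

/-- `c` is a club of `b` disjoint from `S` -/
def Avoid (S : X → Set P) (b : X) (c : X → Set P) : Set P :=
  fand (FClubIn c b)
    (fnot (fex fun a : X => fand (fground (a < b)) (fand (meets (S a)) (meets (c a)))))

theorem reg_Avoid (S : X → Set P) (b : X) (c : X → Set P) : Reg (Avoid S b c) :=
  reg_fand (reg_fand (reg_fall fun _ => reg_fimp (down_fground _))
    (reg_fall fun _ => reg_fimp (down_fand (down_fground _) (down_fall fun _ => down_fimp _ _))))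
    (reg_fnot (down_fex _))

theorem congr_Avoid (S : X → Set P) (b : X) (c c' : X → Set P) (r : P)
    (h : ∀ x, Eqb r (meets (c x)) (meets (c' x))) (hr : r ∈ Avoid S b c) : r ∈ Avoid S b c' := by
  have : Eqb r (Avoid S b c) (Avoid S b c') := by
    refine eqb_fand (eqb_fand (eqb_fall fun a => eqb_fimp Eqb.rfl' (eqb_fex fun x =>
      eqb_fand Eqb.rfl' (h x))) (eqb_fall fun d => eqb_fimp (eqb_fand Eqb.rfl' (eqb_fall fun a =>
      eqb_fimp Eqb.rfl' (eqb_fex fun x => eqb_fand Eqb.rfl' (h x)))) (h d)))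
      (eqb_fnot (eqb_fex fun a => eqb_fand Eqb.rfl' (eqb_fand Eqb.rfl' (h a))))
  exact (this r le_rfl).1 hr

theorem exists_avoid {S : X → Set P} {b : X} {p : P}
    (h : ∀ r ≤ p, r ∉ FStatIn (fun a => meets (S a)) b) : ∃ c, p ∈ Avoid S b c := by
  refine max_principle (reg_Avoid S b) (congr_Avoid S b) p fun q hq => ?_
  have h1 := h q hq
  simp only [FStatIn, fall, Set.mem_ofPred_eq, not_forall] at h1
  obtain ⟨C, hC⟩ := h1
  rw [mem_fimp] at hC
  push Not at hC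
  obtain ⟨r, hr, hrC, hr'⟩ := hC
  exact ⟨r, hr, C, hrC, hr'⟩

variable {κ : Cardinal.{0}} {U : (PK κ X → Set P) → Set P}

/-- good sets -/
def Nice (A : Set X) : Prop := (∃ x, x ∈ A) ∧ ∀ x ∈ A, ∃ y ∈ A, x < y

theorem U_nice [WellFoundedLT X] (hX : Bdd X) {q : P} (hU : q ∈ IsNormalMeasure κ X U)
    (hκ : ℵ₀ < κ) [Nonempty X] : q ∈ meets (U fun A => fground (Nice A.1)) := by
  obtain ⟨x0⟩ := (inferInstance : Nonempty X)
  have h1 : ∀ x, q ∈ meets (U fun A => fground (∃ y ∈ A.1, x < y)) := by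
    intro x
    obtain ⟨y, hy⟩ := hX.exists_lt x
    refine U_mono hU (U_fine hU y) fun A r hr hr' => ⟨r, le_rfl, ?_⟩
    have h2 := (mem_meets_reg (reg_fground _)).1 hr'
    exact meets_of_mem ⟨y, h2, hy⟩
  refine U_mono hU (U_and hU hκ (U_fine hU x0) (U_diag hU h1)) fun A r hr hr' => ⟨r, le_rfl, ?_⟩
  obtain ⟨h2, h3⟩ := (mem_meets_reg (reg_fand (reg_meets _) (reg_meets _))).1 hr'
  have h4 := (mem_meets_reg (reg_fground _)).1 h2
  have h5 := (mem_meets_reg (reg_fall fun _ => reg_fimp (down_fground _))).1 h3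
  refine meets_of_mem ⟨⟨x0, h4⟩, fun x hx => ?_⟩
  exact (mem_meets_reg (reg_fground _)).1 (mp (h5 x) (down_fground _) hx (reg_meets _))

theorem main_lemma [WellFoundedLT X] [Nonempty X] (hX : Bdd X) (h0 : ℵ₀ < #X)
    (hσ : ∀ f : ℕ → P, (∀ n, f (n + 1) ≤ f n) → ∃ r, ∀ n, r ≤ f n)
    (hκX : κ ≤ #X) (hκ : ℵ₀ < κ) {p : P} (hU : p ∈ IsNormalMeasure κ X U) {S : X → Set P}
    (hS : ∀ a r, r ∈ meets (S a) → CofOmega a)
    (hst : p ∈ FStationary fun a => meets (S a)) :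
    ∃ r ≤ p, ∃ b, IsLim b ∧ r ∈ FStatIn (fun a => meets (S a)) b := by
  classical
  by_contra hcon
  push Not at hcon
  -- the names of the clubs
  have hc1 : ∀ b, IsLim b → ∃ c, p ∈ Avoid S b c := fun b hb =>
    exists_avoid fun r hr => hcon r hr b hb
  have hlub : ∀ A : PK κ X, ∃ b, IsLUB A.1 b := fun A =>
    exists_isLUB hX (A.2.trans_le hκX)
  choose β hβ using hlub
  have hniceL : ∀ A : PK κ X, Nice A.1 → IsLim (β A) := by
    intro A hA
    obtain ⟨⟨x, hx⟩, hA2⟩ := hA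
    obtain ⟨y, hy, hxy⟩ := hA2 x hx
    refine ⟨⟨x, hxy.trans_le ((hβ A).1 hy)⟩, fun a ha => ?_⟩
    obtain ⟨z, hz, haz⟩ := (lt_isLUB_iff (hβ A)).1 ha
    obtain ⟨w, hw, hzw⟩ := hA2 z hz
    exact ⟨z, haz, hzw.trans_le ((hβ A).1 hw)⟩
  have hcN : ∀ A : PK κ X, ∃ c, Nice A.1 → p ∈ Avoid S (β A) c := by
    intro A
    by_cases hA : Nice A.1
    · obtain ⟨c, hc⟩ := hc1 _ (hniceL A hA)
      exact ⟨c, fun _ => hc⟩
    · exact ⟨fun _ => ∅, fun h => absurd h hA⟩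
  choose cN hcN using hcN
  let hit : X → X → PK κ X → Set P := fun α α' A =>
    fex fun c : X => fand (fground (α < c ∧ c < α')) (meets (cN A c))
  have hlt : ∀ (α α' : X) (A : PK κ X) (r : P), r ∈ meets (hit α α' A) →
      ∃ r' ≤ r, ∃ c, α < c ∧ c < α' ∧ r' ∈ meets (cN A c) := by
    intro α α' A r hr
    obtain ⟨r', hr', c, ⟨h1, h2⟩, h3⟩ := mem_fex.1 ((mem_meets_reg reg_fex).1 hr) r le_rfl
    exact ⟨r', hr', c, h1, h2, h3⟩
  have hmk : ∀ (α α' : X) (A : PK κ X) (r : P) (c : X), α < c → c < α' → r ∈ meets (cN A c) →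
      r ∈ meets (hit α α' A) := by
    intro α α' A r c h1 h2 h3
    exact meets_of_mem (mem_fex_of_mem c (down_fand (down_fground _) (down_meets _)) ⟨⟨h1, h2⟩, h3⟩)
  have hhmono : ∀ (α α' γ γ' : X) (A : PK κ X) (r : P), γ ≤ α → α' ≤ γ' →
      r ∈ meets (hit α α' A) → ∃ r' ≤ r, r' ∈ meets (hit γ γ' A) := by
    intro α α' γ γ' A r h1 h2 h3
    obtain ⟨r', hr', c, h4, h5, h6⟩ := hlt α α' A r h3
    exact ⟨r', hr', hmk γ γ' A r' c (h1.trans_lt h4) (h5.trans_le h2) h6⟩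
  -- hitting
  have F2 : ∀ q ≤ p, ∀ α, ∃ r ≤ q, ∃ α', α < α' ∧ r ∈ meets (U (hit α α')) := by
    intro q hq α
    by_contra hcon2
    push Not at hcon2
    have hUq := down_IsNormalMeasure _ hU _ hq
    have h1 : ∀ α', q ∈ meets (U (nCompl (hit α α'))) := by
      intro α'
      refine U_compl hUq fun r hr hr' => ?_
      by_cases hαα : α < α'
      · exact hcon2 r hr α' hαα hr'
      · obtain ⟨r1, _, A, hr1⟩ := U_nonempty (down_IsNormalMeasure _ hUq _ hr) hr'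
        obtain ⟨_, _, c, h2, h3, _⟩ := hlt α α' A r1 hr1
        exact hαα (h2.trans h3)
    obtain ⟨r, hr, A, hrA⟩ := U_nonempty hUq (U_and hUq hκ (U_diag hUq h1)
      (U_and hUq hκ (U_fine hUq α) (U_nice hX hUq hκ)))
    obtain ⟨h2, h3⟩ := (mem_meets_reg (reg_fand (reg_meets _) (reg_meets _))).1 hrA
    have h4 := (mem_meets_reg (reg_fall fun _ => reg_fimp (down_fground _))).1 h2
    obtain ⟨h5, h6⟩ := (mem_meets_reg (reg_fand (reg_meets _) (reg_meets _))).1 h3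
    have hαA : α ∈ A.1 := (mem_meets_reg (reg_fground _)).1 h5
    have hnice : Nice A.1 := (mem_meets_reg (reg_fground _)).1 h6
    have hav := (reg_Avoid S (β A) (cN A)).1 _ (hcN A hnice) _ (hr.trans hq)
    obtain ⟨y, hy, hαy⟩ := hnice.2 α hαA
    have hαβ : α < β A := hαy.trans_le ((hβ A).1 hy)
    obtain ⟨r1, hr1, hr1e⟩ := mem_fimp.1 (hav.1.1 α) r le_rfl hαβ
    obtain ⟨r2, hr2, c, ⟨h7, h8⟩, h9⟩ := mem_fex.1 hr1e r1 le_rfl
    obtain ⟨α', hα', hcα'⟩ := (lt_isLUB_iff (hβ A)).1 h8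
    have h10 := hmk α α' A r2 c h7 hcα' h9
    obtain ⟨r3, hr3, hr3'⟩ := mem_fimp.1 (h4 α') r2 (hr2.trans hr1) hα'
    have h11 := (mem_meets_reg (reg_fnot (down_meets _))).1 hr3'
    exact h11 r3 le_rfl (down_meets _ _ h10 _ hr3)
  -- the club
  let EN : X → Set P := fun δ => fall fun α : X => fimp (fground (α < δ)) (meets (U (hit α δ)))
  have hENreg : ∀ δ, Reg (EN δ) := fun δ => reg_fall fun _ => reg_fimp (down_fground _)
  have hEN : p ∈ FClub EN := by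
    refine ⟨fun b => mem_fex.2 fun q hq => ?_, fun d => mem_fimp.2 fun q hq hqd => ?_⟩
    · have hstep : ∀ x : {q : P // q ≤ p} × X, ∃ y : {q : P // q ≤ p} × X, y.1.1 ≤ x.1.1 ∧
          x.2 < y.2 ∧ y.1.1 ∈ meets (U (hit x.2 y.2)) := by
        intro x
        obtain ⟨r, hr, α', h1, h2⟩ := F2 x.1.1 x.1.2 x.2
        exact ⟨(⟨r, hr.trans x.1.2⟩, α'), hr, h1, h2⟩
      obtain ⟨f, hf0, hf⟩ := exists_seq_of hstep (⟨q, hq⟩, b)
      obtain ⟨r, hr⟩ := hσ (fun n => (f n).1.1) fun n => (hf n).1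
      obtain ⟨δ, hδ⟩ := exists_isLUB hX (S := Set.range fun n => (f n).2)
        (lt_of_le_of_lt (Cardinal.mk_le_aleph0_iff.2 (Set.countable_range _)) h0)
      have hlt : ∀ n, (f n).2 < δ := fun n => (hf n).2.1.trans_le (hδ.1 ⟨n + 1, rfl⟩)
      have hr0 : r ≤ q := by
        have := hr 0
        rwa [hf0] at this
      refine ⟨r, hr0, δ, ?_, ?_⟩
      · have := hlt 0
        rwa [hf0] at this
      · refine meets_of_mem fun α => mem_fimp.2 fun r' hr' hα => ⟨r', le_rfl, ?_⟩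
        obtain ⟨_, ⟨n, rfl⟩, hn⟩ := (lt_isLUB_iff hδ).1 hα
        have hUr := down_IsNormalMeasure _ hU _ (hr'.trans (hr0.trans hq))
        refine U_mono hUr (down_meets _ _ (hf n).2.2 _ (hr'.trans (hr (n + 1))))
          fun A s _ hs => ?_
        exact hhmono _ _ _ _ A s hn.le (hlt (n + 1)).le hs
    · refine ⟨q, le_rfl, meets_of_mem fun α => mem_fimp.2 fun q' hq' hα => ?_⟩
      obtain ⟨q1, hq1, hq1e⟩ := mem_fimp.1 (hqd.2 α) q' hq' hα
      obtain ⟨q2, hq2, c, ⟨hαc, hcd⟩, hc⟩ := mem_fex.1 hq1e q1 le_rfl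
      have hαc' : α < c := hαc
      have hcd' : c < d := hcd
      obtain ⟨r, hr, hr'⟩ := mem_fimp.1 ((mem_meets_reg (hENreg c)).1 hc α) q2 le_rfl hαc'
      have hUr := down_IsNormalMeasure _ hU _ (hr.trans (hq2.trans (hq1.trans (hq'.trans hq))))
      refine ⟨r, hr.trans (hq2.trans hq1), U_mono hUr hr' fun A s _ hs => ?_⟩
      exact hhmono _ _ _ _ A s le_rfl hcd'.le hs
  -- a point in the club
  obtain ⟨r1, hr1, hr1e⟩ := mem_fimp.1 (hst EN) p le_rfl hEN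
  obtain ⟨r, hr, δ, hrS, hrE⟩ := mem_fex.1 hr1e r1 le_rfl
  have hrp : r ≤ p := hr.trans hr1
  have hUr := down_IsNormalMeasure _ hU _ hrp
  obtain ⟨f, hf1, hf2⟩ := hS δ r hrS
  have hrE' := (mem_meets_reg (hENreg δ)).1 hrE
  have h1 : ∀ n, r ∈ meets (U (hit (f n) δ)) := fun n =>
    mp (hrE' (f n)) (down_fground _) (hf1 n) (reg_meets _)
  obtain ⟨r2, hr2, A, hr2A⟩ := U_nonempty hUr (U_and hUr hκ (U_inter hUr hκ h1)
      (U_and hUr hκ (U_fine hUr δ) (U_nice hX hUr hκ)))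
  obtain ⟨h2, h3⟩ := (mem_meets_reg (reg_fand (reg_meets _) (reg_meets _))).1 hr2A
  have h4 := (mem_meets_reg (reg_fall fun _ => reg_meets _)).1 h2
  obtain ⟨h5, h6⟩ := (mem_meets_reg (reg_fand (reg_meets _) (reg_meets _))).1 h3
  have hδA : δ ∈ A.1 := (mem_meets_reg (reg_fground _)).1 h5
  have hnice : Nice A.1 := (mem_meets_reg (reg_fground _)).1 h6
  have hav := (reg_Avoid S (β A) (cN A)).1 _ (hcN A hnice) _ (hr2.trans hrp)
  obtain ⟨y, hy, hδy⟩ := hnice.2 δ hδA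
  have hδβ : δ < β A := hδy.trans_le ((hβ A).1 hy)
  obtain ⟨r3, hr3, hr3C⟩ := mem_fimp.1 (hav.1.2 δ) r2 le_rfl ⟨⟨⟨f 0, hf1 0⟩, hδβ⟩,
    fun a => mem_fimp.2 fun q hq ha => by
      obtain ⟨n, hn⟩ := hf2 a ha
      obtain ⟨q', hq', c, h7, h8, h9⟩ := hlt (f n) δ A q (down_meets _ _ (h4 n) _ hq)
      exact ⟨q', hq', mem_fex_of_mem c (down_fand (down_fground _) (down_meets _))
        ⟨⟨hn.trans h7, h8⟩, h9⟩⟩⟩
  exact hav.2 r3 hr3 (mem_fex_of_mem δ (down_fand (down_fground _)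
    (down_fand (down_meets _) (down_meets _)))
    ⟨hδβ, down_meets _ _ hrS _ (hr3.trans hr2), hr3C⟩)

/-- successors -/
theorem exists_next [WellFoundedLT X] {b : X} (hb : IsLim b) (a : X) (ha : a < b) :
    ∃ a', a < a' ∧ a' < b ∧ ¬ CofOmega a' := by
  obtain ⟨c, hc, hcb⟩ := hb.2 a ha
  have hne : (Set.Ioi a).Nonempty := ⟨c, hc⟩
  refine ⟨(wellFounded_lt (α := X)).min _ hne, (wellFounded_lt (α := X)).min_mem _ hne, ?_, ?_⟩
  · exact lt_of_le_of_lt (not_lt.1 ((wellFounded_lt (α := X)).not_lt_min _ hc)) hcb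
  · rintro ⟨f, hf1, hf2⟩
    obtain ⟨n, hn⟩ := hf2 a ((wellFounded_lt (α := X)).min_mem _ hne)
    exact (wellFounded_lt (α := X)).not_lt_min _ (show f n ∈ Set.Ioi a from hn) (hf1 n)

theorem not_cofOmega_of_stat [WellFoundedLT X] {S : X → Set P}
    (hS : ∀ a r, r ∈ meets (S a) → CofOmega a) {b : X} (hb : IsLim b) {r : P}
    (h : r ∈ FStatIn (fun a => meets (S a)) b) : ¬ CofOmega b := by
  classical
  rintro ⟨g, hg1, hg2⟩
  have hnx : ∀ a, ∃ a', a < b → a < a' ∧ a' < b ∧ ¬ CofOmega a' := by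
    intro a
    by_cases ha : a < b
    · obtain ⟨a', h1, h2, h3⟩ := exists_next hb a ha
      exact ⟨a', fun _ => ⟨h1, h2, h3⟩⟩
    · exact ⟨a, fun h => absurd h ha⟩
  choose nx hnx using hnx
  let h' : ℕ → X := fun n => Nat.rec (nx (g 0)) (fun k x => nx (max x (g (k + 1)))) n
  have hs : ∀ n, h' (n + 1) = nx (max (h' n) (g (n + 1))) := fun n => rfl
  have hall : ∀ n, h' n < b ∧ ¬ CofOmega (h' n) ∧ g n < h' n := by
    intro n
    induction n with
    | zero =>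
      obtain ⟨h1, h2, h3⟩ := hnx (g 0) (hg1 0)
      exact ⟨h2, h3, h1⟩
    | succ n ih =>
      obtain ⟨h1, h2, h3⟩ := hnx (max (h' n) (g (n + 1))) (max_lt ih.1 (hg1 _))
      rw [hs]
      exact ⟨h2, h3, (le_max_right _ _).trans_lt h1⟩
  have hlt : ∀ n, h' n < h' (n + 1) := by
    intro n
    obtain ⟨h1, -, -⟩ := hnx (max (h' n) (g (n + 1))) (max_lt (hall n).1 (hg1 _))
    rw [hs]
    exact (le_max_left _ _).trans_lt h1
  have hmono : StrictMono h' := strictMono_nat_of_lt_succ hlt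
  let C : X → Set P := fun x => fground (∃ n, h' n = x)
  have hC : r ∈ FClubIn C b := by
    refine ⟨fun a => mem_fimp.2 fun q _ ha => ⟨q, le_rfl, ?_⟩, fun d => mem_fimp.2 fun q _ hd => ?_⟩
    · obtain ⟨n, hn⟩ := hg2 a ha
      exact mem_fex_of_mem (h' n) (down_fand (down_fground _) (down_meets _))
        ⟨⟨hn.trans (hall n).2.2, (hall n).1⟩, meets_of_mem ⟨n, rfl⟩⟩
    · exfalso
      have hd1 : ∀ a < d, ∃ n, a < h' n ∧ h' n < d := by
        intro a ha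
        obtain ⟨q1, _, hq1⟩ := mem_fimp.1 (hd.2 a) q le_rfl ha
        obtain ⟨q2, _, c, hc1, hc2⟩ := mem_fex.1 hq1 q1 le_rfl
        obtain ⟨n, hn⟩ := (mem_meets_reg (reg_fground _)).1 hc2
        have hc1' : a < c ∧ c < d := hc1
        rw [← hn] at hc1'
        exact ⟨n, hc1'⟩
      have hdd : (∃ a, a < d) ∧ d < b := hd.1
      have hex : ∃ m, d ≤ h' m := by
        obtain ⟨m, hm⟩ := hg2 d hdd.2
        exact ⟨m, (hm.trans (hall m).2.2).le⟩
      obtain ⟨m, hm, hmin⟩ : ∃ m, d ≤ h' m ∧ ∀ k < m, h' k < d := by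
        have hd2 : DecidablePred fun m => d ≤ h' m := Classical.decPred _
        exact ⟨Nat.find hex, Nat.find_spec hex, fun k hk => not_le.1 (Nat.find_min hex hk)⟩
      rcases Nat.eq_zero_or_pos m with h1 | h1
      · rw [h1] at hm
        obtain ⟨a, ha⟩ := hdd.1
        obtain ⟨n, -, hn⟩ := hd1 a ha
        exact absurd (hm.trans (hmono.monotone (Nat.zero_le n))) (not_le.2 hn)
      · have h2 : h' (m - 1) < d := hmin _ (by omega)
        obtain ⟨n, hn1, hn2⟩ := hd1 _ h2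
        have h3 : m - 1 < n := hmono.lt_iff_lt.1 hn1
        have h4 : m ≤ n := by omega
        exact absurd (hm.trans (hmono.monotone h4)) (not_le.2 hn2)
  obtain ⟨r1, hr1, hr1e⟩ := mem_fimp.1 (h C) r le_rfl hC
  obtain ⟨r2, hr2, a, -, haS, haC⟩ := mem_fex.1 hr1e r1 le_rfl
  obtain ⟨n, hn⟩ := (mem_meets_reg (reg_fground _)).1 haC
  rw [← hn] at haS
  exact (hall n).2.1 (hS _ _ haS)

theorem uncCof_of_not [WellFoundedLT X]
    (hσ : ∀ f : ℕ → P, (∀ n, f (n + 1) ≤ f n) → ∃ r, ∀ n, r ≤ f n) {b : X} (hb : IsLim b)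
    (hn : ¬ CofOmega b) (r : P) : r ∈ FUncCof b := by
  refine ⟨hb.1, fun f => mem_fimp.2 fun q hq hqf => ?_⟩
  have hstep : ∀ x : ℕ × {q' : P // q' ≤ q}, ∃ y : ℕ × {q' : P // q' ≤ q}, y.1 = x.1 + 1 ∧
      y.2.1 ≤ x.2.1 ∧ ∃ z, y.2.1 ∈ meets (f x.1 z) := by
    rintro ⟨n, q', hq'⟩
    obtain ⟨r', hr', z, hz⟩ := IsFun.total (down_IsFun _ _ hqf.1 _ hq') n
    exact ⟨(n + 1, ⟨r', hr'.trans hq'⟩), rfl, hr', z, hz⟩
  obtain ⟨F, hF0, hF⟩ := exists_seq_of hstep (0, ⟨q, le_rfl⟩)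
  have hn' : ∀ n, (F n).1 = n := by
    intro n
    induction n with
    | zero => rw [hF0]
    | succ n ih => rw [(hF n).1, ih]
  obtain ⟨r', hr'⟩ := hσ (fun n => (F n).2.1) fun n => (hF n).2.1
  choose z hz using fun n => (hF n).2.2
  have hz' : ∀ n, r' ∈ meets (f n (z n)) := by
    intro n
    have h1 := hz n
    rw [hn'] at h1
    exact down_meets _ _ h1 _ (hr' (n + 1))
  have hr'q : r' ≤ q := (hr' 0).trans (F 0).2.2
  have hzb : ∀ n, z n < b := by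
    intro n
    obtain ⟨_, _, h1⟩ := mem_fimp.1 (hqf.2 n (z n)) r' hr'q (hz' n)
    exact h1
  have hbd : ∃ a < b, ∀ n, z n < a := by
    by_contra hcon
    push Not at hcon
    apply hn
    refine ⟨z, hzb, fun a ha => ?_⟩
    obtain ⟨c, hac, hcb⟩ := hb.2 a ha
    obtain ⟨n, hn⟩ := hcon c hcb
    exact ⟨n, hac.trans_le hn⟩
  obtain ⟨a, hab, ha⟩ := hbd
  refine ⟨r', hr'q, mem_fex_of_mem a (down_fand (down_fground _)
    (down_fall fun _ => down_fall fun _ => down_fimp _ _)) ⟨hab, fun n x => mem_fimp.2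
      fun s hs hsx => ⟨s, le_rfl, ?_⟩⟩⟩
  have : z n = x := IsFun.unique (down_IsFun _ _ hqf.1 _ (hs.trans hr'q))
    (down_meets _ _ (hz' n) _ hs) hsx
  change x < a
  rw [← this]
  exact ha n

/-- intersections of clubs -/
theorem club_inter [WellFoundedLT X] (hX : Bdd X) (h0 : ℵ₀ < #X)
    (hσ : ∀ f : ℕ → P, (∀ n, f (n + 1) ≤ f n) → ∃ r, ∀ n, r ≤ f n) {C E : X → Set P} {p : P}
    (hC : p ∈ FClub C) (hE : p ∈ FClub E) :
    p ∈ FClub fun a => fand (meets (C a)) (meets (E a)) := by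
  refine ⟨fun b => mem_fex.2 fun q hq => ?_, fun d => mem_fimp.2 fun q hq hqd => ?_⟩
  · have hstep : ∀ x : {q : P // q ≤ p} × X, ∃ y : {q : P // q ≤ p} × X, y.1.1 ≤ x.1.1 ∧
        x.2 < y.2 ∧ (∃ c, x.2 < c ∧ c ≤ y.2 ∧ y.1.1 ∈ meets (C c)) ∧
        ∃ c, x.2 < c ∧ c ≤ y.2 ∧ y.1.1 ∈ meets (E c) := by
      rintro ⟨⟨x, hx⟩, a⟩
      obtain ⟨r1, hr1, c1, h1, h2⟩ := unbounded_of (down_FUnbounded C _ hC.1 _ hx) a
      obtain ⟨r2, hr2, c2, h3, h4⟩ := unbounded_of (down_FUnbounded E _ hE.1 _ (hr1.trans hx)) a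
      exact ⟨(⟨r2, hr2.trans (hr1.trans hx)⟩, max c1 c2), hr2.trans hr1,
        h1.trans_le (le_max_left _ _), ⟨c1, h1, le_max_left _ _, down_meets _ _ h2 _ hr2⟩,
        c2, h3, le_max_right _ _, h4⟩
    obtain ⟨f, hf0, hf⟩ := exists_seq_of hstep (⟨q, hq⟩, b)
    obtain ⟨r, hr⟩ := hσ (fun n => (f n).1.1) fun n => (hf n).1
    obtain ⟨δ, hδ⟩ := exists_isLUB hX (S := Set.range fun n => (f n).2)
      (lt_of_le_of_lt (Cardinal.mk_le_aleph0_iff.2 (Set.countable_range _)) h0)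
    have hlt : ∀ n, (f n).2 < δ := fun n => (hf n).2.1.trans_le (hδ.1 ⟨n + 1, rfl⟩)
    have hr0 : r ≤ q := by
      have := hr 0
      rwa [hf0] at this
    have hbδ : b < δ := by
      have := hlt 0
      rwa [hf0] at this
    obtain ⟨r1, hr1, h1⟩ := closed_of (q := r) (δ := δ) (down_FClosed C _ hC.2 _ (hr0.trans hq))
      ⟨b, hbδ⟩ (by
        intro a ha
        obtain ⟨_, ⟨n, rfl⟩, hn⟩ := (lt_isLUB_iff hδ).1 ha
        obtain ⟨c, h2, h3, h4⟩ := (hf n).2.2.1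
        exact ⟨c, hn.trans h2, h3.trans_lt (hlt (n + 1)), down_meets _ _ h4 _ (hr (n + 1))⟩)
    obtain ⟨r2, hr2, h2⟩ := closed_of (q := r1) (δ := δ)
      (down_FClosed E _ hE.2 _ (hr1.trans (hr0.trans hq))) ⟨b, hbδ⟩ (by
        intro a ha
        obtain ⟨_, ⟨n, rfl⟩, hn⟩ := (lt_isLUB_iff hδ).1 ha
        obtain ⟨c, h2, h3, h4⟩ := (hf n).2.2.2
        exact ⟨c, hn.trans h2, h3.trans_lt (hlt (n + 1)),
          down_meets _ _ h4 _ (hr1.trans (hr (n + 1)))⟩)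
    exact ⟨r2, hr2.trans (hr1.trans hr0), δ, hbδ, meets_of_mem ⟨down_meets _ _ h1 _ hr2, h2⟩⟩
  · have hreg : ∀ a, Reg (fand (meets (C a)) (meets (E a))) := fun a =>
      reg_fand (reg_meets _) (reg_meets _)
    obtain ⟨q1, hq1, h1⟩ := mem_fimp.1 (hC.2 d) q hq ⟨hqd.1, fun b => mem_fimp.2 fun q' hq' hb => by
      obtain ⟨q1, hq1, h1⟩ := mem_fimp.1 (hqd.2 b) q' hq' hb
      obtain ⟨q2, hq2, c, h2, h3⟩ := mem_fex.1 h1 q1 le_rfl
      exact ⟨q2, hq2.trans hq1, mem_fex_of_mem c (down_fand (down_fground _) (down_meets _))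
        ⟨h2, ((mem_meets_reg (hreg c)).1 h3).1⟩⟩⟩
    obtain ⟨q2, hq2, h2⟩ := mem_fimp.1 (hE.2 d) q1 (hq1.trans hq) ⟨hqd.1,
      fun b => mem_fimp.2 fun q' hq' hb => by
        obtain ⟨q1, hq1, h1⟩ := mem_fimp.1 (hqd.2 b) q' (hq'.trans hq1) hb
        obtain ⟨q2, hq2, c, h2, h3⟩ := mem_fex.1 h1 q1 le_rfl
        exact ⟨q2, hq2.trans hq1, mem_fex_of_mem c (down_fand (down_fground _) (down_meets _))
          ⟨h2, ((mem_meets_reg (hreg c)).1 h3).2⟩⟩⟩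
    exact ⟨q2, hq2.trans hq1, meets_of_mem ⟨down_meets _ _ h1 _ hq2, h2⟩⟩

/-- every stationary set of points of cofinality `ω` reflects stationarily often -/
theorem reflects [WellFoundedLT X] [Nonempty X] (hX : Bdd X) (h0 : ℵ₀ < #X)
    (hσ : ∀ f : ℕ → P, (∀ n, f (n + 1) ≤ f n) → ∃ r, ∀ n, r ≤ f n)
    (hκX : κ ≤ #X) (hκ : ℵ₀ < κ) {p : P} (hU : p ∈ IsNormalMeasure κ X U) {S : X → Set P}
    (hS : ∀ a r, r ∈ meets (S a) → CofOmega a)
    (hst : p ∈ FStationary fun a => meets (S a)) :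
    p ∈ FStationary fun b => FTrace S b := by
  intro E
  refine mem_fimp.2 fun q hq hE => ?_
  let S' : X → Set P := fun a => fand (meets (S a)) (meets (E a))
  have hregS : ∀ a, Reg (S' a) := fun a => reg_fand (reg_meets _) (reg_meets _)
  have hS' : ∀ a r, r ∈ meets (S' a) → CofOmega a := fun a r h =>
    hS a r ((mem_meets_reg (hregS a)).1 h).1
  have hst' : q ∈ FStationary fun a => meets (S' a) := by
    intro C
    refine mem_fimp.2 fun q' hq' hC => ?_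
    have hE' := down_FClub E _ hE _ hq'
    obtain ⟨r1, hr1, h1⟩ := mem_fimp.1 (hst fun a => fand (meets (E a)) (meets (C a))) q'
      (hq'.trans hq) (club_inter hX h0 hσ hE' hC)
    obtain ⟨r2, hr2, a, h2, h3⟩ := mem_fex.1 h1 r1 le_rfl
    have h4 := (mem_meets_reg (reg_fand (reg_meets (E a)) (reg_meets (C a)))).1 h3
    exact ⟨r2, hr2.trans hr1, mem_fex_of_mem a (down_fand (down_meets _) (down_meets _))
      ⟨meets_of_mem ⟨h2, h4.1⟩, h4.2⟩⟩
  obtain ⟨r, hr, b, hb, hrb⟩ := main_lemma hX h0 hσ hκX hκ (down_IsNormalMeasure _ hU _ hq) hS' hst'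
  have hun := uncCof_of_not hσ hb (not_cofOmega_of_stat hS' hb hrb) r
  have hst2 : r ∈ FStatIn (fun a => meets (S a)) b := by
    intro C
    refine mem_fimp.2 fun q' hq' hC => ?_
    obtain ⟨r1, hr1, h1⟩ := mem_fimp.1 (hrb C) q' hq' hC
    obtain ⟨r2, hr2, a, h2, h3, h4⟩ := mem_fex.1 h1 r1 le_rfl
    exact ⟨r2, hr2.trans hr1, mem_fex_of_mem a (down_fand (down_fground _)
      (down_fand (down_meets _) (down_meets _))) ⟨h2, ((mem_meets_reg (hregS a)).1 h3).1, h4⟩⟩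
  obtain ⟨r1, hr1, h1⟩ := mem_fimp.1 (hE.2 b) r hr ⟨hb.1, fun a => mem_fimp.2 fun q' hq' ha => by
    obtain ⟨r1, hr1, h1⟩ := mem_fimp.1 (hrb fun x => fground (a < x)) q' hq' (by
      refine ⟨fun a' => mem_fimp.2 fun s _ ha' => ⟨s, le_rfl, ?_⟩, fun d => mem_fimp.2
        fun s _ hd => ⟨s, le_rfl, ?_⟩⟩
      · obtain ⟨c, h2, h3⟩ := hb.2 (max a' a) (max_lt ha' ha)
        exact mem_fex_of_mem c (down_fand (down_fground _) (down_meets _))
          ⟨⟨(le_max_left _ _).trans_lt h2, h3⟩, meets_of_mem ((le_max_right _ _).trans_lt h2)⟩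
      · obtain ⟨⟨a', ha'⟩, -⟩ : (∃ a, a < d) ∧ d < b := hd.1
        obtain ⟨s1, _, hs1⟩ := mem_fimp.1 (hd.2 a') s le_rfl ha'
        obtain ⟨s2, _, c, hc1, hc2⟩ := mem_fex.1 hs1 s1 le_rfl
        have h4 : a < c := (mem_meets_reg (reg_fground _)).1 hc2
        have h5 : a' < c ∧ c < d := hc1
        exact meets_of_mem (h4.trans h5.2))
    obtain ⟨r2, hr2, c, h2, h3, h4⟩ := mem_fex.1 h1 r1 le_rfl
    have h5 : a < c := (mem_meets_reg (reg_fground _)).1 h4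
    exact ⟨r2, hr2.trans hr1, mem_fex_of_mem c (down_fand (down_fground _) (down_meets _))
      ⟨⟨h5, h2⟩, ((mem_meets_reg (hregS c)).1 h3).2⟩⟩⟩
  exact ⟨r1, hr1.trans hr, mem_fex_of_mem b (down_fand (down_FTrace _ _) (down_meets _))
    ⟨down_FTrace S b _ ⟨hun, hst2⟩ _ hr1, h1⟩⟩

end reflection

end Pool.Agent.R583.TRefl
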