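import Mathlib
import Pool.Agent.R583.TKill
import Pool.Agent.R583.TRefl
import Pool.Agent.R583.DFinal
set_option autoImplicit false
set_option linter.unusedSectionVars false

/-!
# Assembly
-/

namespace Pool.Agent.R583.T

open Cardinal Pool.Agent.Helper669.Forcing Pool.Agent.Helper669.K Pool.Agent.R583.DDefs
open Pool.Agent.R583.TDefs Pool.Agent.R583.TRefl
open Pool.Agent.R583.D (Bdd Dir exists_isLUB exists_seq_of bdd_ord staysRegular_of_dirClosed
  cof_theta cofOmega_name)

theorem dirClosed_mono {κ ν : Cardinal.{0}} (h : ν ≤ κ) {Q : Type} [Preorder Q]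
    (hQ : DirClosed κ Q) : DirClosed ν Q := fun D hD => hQ D (hD.trans_le h)

/-- covering by an increasing sequence of small sets -/
theorem exists_cover {μ : Cardinal.{0}} (hinf : ℵ₀ ≤ μ) (hcof : μ.ord.cof = ℵ₀) {Θ : Type}
    (V : Set Θ) (hV : #V ≤ μ) :
    ∃ G : ℕ → Set Θ, Monotone G ∧ (∀ m, #(G m) < μ) ∧ V ⊆ ⋃ m, G m := by
  obtain ⟨s, hs1, hs2⟩ := Order.exists_cof_eq μ.ord.ToType
  rw [Ordinal.cof_toType, hcof] at hs2
  have hsc : s.Countable := Cardinal.mk_le_aleph0_iff.1 hs2.le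
  have hsne : s.Nonempty := by
    rw [Set.nonempty_iff_ne_empty]
    rintro rfl
    rw [Cardinal.mk_eq_zero] at hs2
    exact Cardinal.aleph0_ne_zero hs2.symm
  obtain ⟨g, hg⟩ := hsc.exists_eq_range hsne
  have hmk : #μ.ord.ToType = μ := mk_ord_toType μ
  obtain ⟨e⟩ : Nonempty (V ↪ μ.ord.ToType) := (Cardinal.le_def _ _).1 (by rw [hmk]; exact hV)
  refine ⟨fun m => {j | ∃ h : j ∈ V, e ⟨j, h⟩ ≤ partialSups g m}, ?_, ?_, ?_⟩
  · rintro m n hmn j ⟨hj, hle⟩
    exact ⟨hj, hle.trans ((partialSups g).monotone hmn)⟩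
  · intro m
    have h1 : #(Set.Iic (partialSups g m)) < μ := by
      have h3 : #(Set.Iio (partialSups g m)) < μ := by simpa using mk_Iio_lt (partialSups g m)
      have h4 : (Set.Iic (partialSups g m)) =
          insert (partialSups g m) (Set.Iio (partialSups g m)) := by
        ext x
        simp only [Set.mem_Iic, Set.mem_insert_iff, Set.mem_Iio]
        exact le_iff_eq_or_lt
      rw [h4]
      exact lt_of_le_of_lt Cardinal.mk_insert_le
        (Cardinal.add_lt_of_lt hinf h3 (lt_of_lt_of_le Cardinal.one_lt_aleph0 hinf))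
    refine lt_of_le_of_lt (Cardinal.mk_le_of_injective
      (f := fun j : {j | ∃ h : j ∈ V, e ⟨j, h⟩ ≤ partialSups g m} =>
        (⟨e ⟨j.1, j.2.1⟩, j.2.2⟩ : Set.Iic (partialSups g m))) ?_) h1
    intro a b hab
    have h2 : e ⟨a.1, a.2.1⟩ = e ⟨b.1, b.2.1⟩ := congrArg Subtype.val hab
    have h3 := e.injective h2
    have h4 : a.1 = b.1 := congrArg (fun z : V => z.1) h3
    exact Subtype.ext h4
  · intro j hj
    obtain ⟨y, hy, hjy⟩ := hs1 (e ⟨j, hj⟩)
    rw [hg] at hy
    obtain ⟨m, rfl⟩ := hy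
    exact Set.mem_iUnion.2 ⟨m, hj, hjy.trans (le_partialSups g m)⟩

theorem main {κ μ : Cardinal.{0}} (hκμ : κ < μ) (hstr : ∀ ν < μ, (2 : Cardinal.{0}) ^ ν < μ)
    (hcof : μ.ord.cof = ℵ₀) (h : IndestructiblySupercompact κ (Order.succ μ)) :
    ∃ (P : Type) (_ : Preorder P), Nonempty P ∧ DirClosed (Order.succ μ) P ∧ ∀ p : P,
      (∀ ν : Cardinal.{0}, ν.IsRegular → ν ≤ Order.succ μ → p ∈ StaysRegular P ν) ∧
      p ∈ fex fun S : (Order.succ μ).ord.ToType → Set P =>
        fex fun T : (Order.succ μ).ord.ToType → Set P =>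
          fand (fall fun a => fimp (meets (S a)) (FCofOmega a))
            (fand (FStationary fun a => meets (S a))
              (fand (FStationary fun b => FTrace S b)
                (fand (FStationary fun a => meets (T a))
                  (fnot (fex fun A : (Order.succ μ).ord.ToType →
                    (Order.succ μ).ord.ToType → Set P => FConcGuess S T A))))) := by
  classical
  obtain ⟨hκ0, hI⟩ := h
  have hinfμ : ℵ₀ ≤ μ := (hκ0.trans hκμ).le
  have hsreg : (Order.succ μ).IsRegular := Cardinal.isRegular_succ hinfμ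
  have hlts : μ < Order.succ μ := Order.lt_succ μ
  have hinf : ℵ₀ ≤ Order.succ μ := hsreg.aleph0_le
  let X : Type := (Order.succ μ).ord.ToType
  have hXκ : #X = Order.succ μ := mk_ord_toType _
  have hX : Bdd X := bdd_ord hsreg
  have iX : Infinite X := Cardinal.infinite_iff.2 (by rw [hXκ]; exact hinf)
  have iX' : Nonempty X := inferInstance
  let M : Type := Set X
  have hMκ : #M = 2 ^ Order.succ μ := by rw [Cardinal.mk_set, hXκ]
  have hM : #M ^ #X = #M := by
    rw [hMκ, hXκ, ← Cardinal.power_mul, Cardinal.mul_eq_self hinf]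
  have hM2 : 2 ≤ #M := by
    rw [hMκ]
    exact ((Cardinal.ofNat_lt_aleph0 (n := 2)).le.trans hinf).trans (Cardinal.cantor _).le
  let c : Cardinal.{0} := 2 ^ ((2 : Cardinal.{0}) ^ Order.succ μ)
  let Θ : Type := c.ord.ToType
  have hΘc : #Θ = c := mk_ord_toType c
  have hΘ : #Θ = 2 ^ #M := by rw [hΘc, hMκ]
  have iΘ : Nonempty Θ := by
    rw [← Cardinal.mk_ne_zero_iff, hΘ]
    exact Cardinal.power_ne_zero _ two_ne_zero
  obtain ⟨N, hN⟩ := bookkeeping (X := X) (Θ := Θ) (M := M) hM hM2 hΘ (fun j => by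
    have := mk_Iio_lt (α := Θ) j (by simp [Θ])
    exact this)
  have hcf : ∀ V : Set Θ, #V ≤ #M → ∃ j0, ∀ j ∈ V, j < j0 := by
    intro V hV
    rw [hMκ] at hV
    refine cof_theta (c := c) (M := 2 ^ Order.succ μ) ?_ V hV
    exact Cardinal.lt_cof_ord_power (hinf.trans (Cardinal.cantor _).le) Cardinal.one_lt_two
  have hdir : DirClosed (Order.succ μ) (PT N) := by
    have := dirClosed_PT (N := N) hX
    rwa [hXκ] at this
  have h0X : ℵ₀ < #X := by
    rw [hXκ]
    exact (hκ0.trans hκμ).trans hlts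
  have hσ : ∀ f : ℕ → PT N, (∀ n, f (n + 1) ≤ f n) → ∃ r, ∀ n, r ≤ f n := by
    intro f hf
    have hmono : ∀ m n, m ≤ n → f n ≤ f m := by
      intro m n hmn
      induction n, hmn using Nat.le_induction with
      | base => exact le_rfl
      | succ n _ ih => exact (hf n).trans ih
    obtain ⟨r, hr⟩ := hdir (Set.range f) (lt_of_le_of_lt (Cardinal.mk_le_aleph0_iff.2
      (Set.countable_range _)) ((hκ0.trans hκμ).trans hlts)) ⟨_, 0, rfl⟩ (by
        rintro _ ⟨m, rfl⟩ _ ⟨n, rfl⟩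
        exact ⟨_, ⟨max m n, rfl⟩, hmono _ _ (le_max_left _ _), hmono _ _ (le_max_right _ _)⟩)
    exact ⟨r, fun n => hr _ ⟨n, rfl⟩⟩
  have hS : ∀ a r, r ∈ meets (SName N a) → CofOmega a := by
    intro a r hr
    obtain ⟨_, _, s, hs, _⟩ := hr r le_rfl
    exact (s.2.1.2.1.1 a hs).2
  have hstat : ∀ p : PT N, p ∈ FStationary fun a => meets (SName N a) := fun p =>
    stationary hX hinfμ (fun ν hν => by rw [hXκ]; exact (hstr ν hν).trans hlts)
      (fun V hV => exists_cover hinfμ hcof V (by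
        rw [hXκ] at hV
        exact Order.lt_succ_iff.1 hV)) h0X p
  refine ⟨PT N, inferInstance, ?_, hdir, fun p => ⟨fun ν hν hνμ =>
    staysRegular_of_dirClosed hν (dirClosed_mono hνμ hdir) p, ?_⟩⟩
  · obtain ⟨x0⟩ := iX'
    refine ⟨⟨⟨x0, ∅, ∅, ∅, fun _ => ∅⟩, ⟨?_, ⟨fun x hx => hx.elim, fun x hx => hx.elim⟩,
      fun _ x hx => hx.elim, fun _ _ => rfl⟩, fun i hi => hi.elim⟩⟩
    rw [Cardinal.mk_eq_zero]
    exact Cardinal.aleph0_pos.trans h0X
  · refine mem_fex_of_mem (SName N) (down_fex _) (mem_fex_of_mem (TName N)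
      (down_fand (down_fall fun _ => down_fimp _ _)
      (down_fand (down_FStationary _) (down_fand (down_FStationary _)
        (down_fand (down_FStationary _) (down_fnot _))))) ⟨fun a => ?_, hstat p, ?_,
        stationaryT hX h0X p, no_guess (M := M) hX h0X hM hM2 hN hcf p⟩)
    · refine mem_fimp.2 fun q _ hq => ⟨q, le_rfl, cofOmega_name (hS a q hq) q⟩
    · have hreg : Reg (FStationary fun b => FTrace (SName N) b) :=
        reg_fall fun C => reg_fimp (down_FClub C)
      refine hreg.2 p fun q _ => ?_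
      obtain ⟨r, hr, U, hU⟩ := mem_fex.1
        (hI (PT N) (dirClosed_mono (hκμ.le.trans hlts.le) hdir) q) q le_rfl
      refine ⟨r, hr, reflects hX h0X hσ ?_ hκ0 hU hS (hstat r)⟩
      rw [hXκ]
      exact hκμ.le.trans hlts.le

end Pool.Agent.R583.T
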